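import Pool.Agent.LVE.Defs

set_option autoImplicit false

open scoped BigOperators Classical

namespace Pool.Agent.LVE

private theorem as_bound {ι : Type} (e : ι → ℕ) (he : Function.Injective e) (A : Finset ι)
    (γ : ι → ℝ) (l : ι) (hl : l ∈ A) (hmin : ∀ l' ∈ A, γ l' ≠ 0 → e l ≤ e l') (t : ℝ)
    (ht : 0 < t) (ht1 : t ≤ 1) :
    ∑ l' ∈ A, t ^ (e l' + 1) * γ l' ≤ t ^ (e l + 1) * (γ l + t * ∑ l' ∈ A, |γ l'|) := by
  rw [← Finset.add_sum_erase A _ hl, mul_add]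
  refine add_le_add le_rfl ?_
  have h1 : ∑ l' ∈ A.erase l, t ^ (e l' + 1) * γ l' ≤
      ∑ l' ∈ A.erase l, t ^ (e l + 1) * (t * |γ l'|) := by
    refine Finset.sum_le_sum fun l' hl' => ?_
    obtain ⟨hne, hA⟩ := Finset.mem_erase.1 hl'
    by_cases h0 : γ l' = 0
    · rw [h0]
      simp
    · have h2 := hmin l' hA h0
      have h3 : e l ≠ e l' := fun h => hne (he h).symm
      have h4 : t ^ (e l' + 1) ≤ t ^ (e l + 1 + 1) :=
        pow_le_pow_of_le_one ht.le ht1 (by omega)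
      have h5 : t ^ (e l' + 1) * γ l' ≤ t ^ (e l' + 1) * |γ l'| :=
        mul_le_mul_of_nonneg_left (le_abs_self _) (by positivity)
      have h6 : t ^ (e l' + 1) * |γ l'| ≤ t ^ (e l + 1 + 1) * |γ l'| :=
        mul_le_mul_of_nonneg_right h4 (abs_nonneg _)
      calc t ^ (e l' + 1) * γ l' ≤ t ^ (e l + 1 + 1) * |γ l'| := h5.trans h6
        _ = t ^ (e l + 1) * (t * |γ l'|) := by rw [pow_succ]; ring
  refine h1.trans ?_
  rw [← Finset.mul_sum, ← Finset.mul_sum]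
  refine mul_le_mul_of_nonneg_left ?_ (by positivity)
  refine mul_le_mul_of_nonneg_left ?_ ht.le
  exact Finset.sum_le_sum_of_subset_of_nonneg (Finset.erase_subset _ _)
    fun _ _ _ => abs_nonneg _

theorem asym {ι : Type} [Fintype ι] (e : ι → ℕ) (he : Function.Injective e) (A : Finset ι)
    (x : ι) (hx : x ∉ A) (γ : ι → ℝ)
    (h : ∀ t₀ : ℝ, 0 < t₀ → ∃ t : ℝ, 0 < t ∧ t < t₀ ∧
      t ^ (e x + 1) ≤ ∑ l ∈ A, t ^ (e l + 1) * γ l) :
    ∃ l ∈ A, 0 < γ l ∧ e l < e x ∧ ∀ l' ∈ A, γ l' ≠ 0 → e l ≤ e l' := by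
  have hne : (A.filter fun l => γ l ≠ 0).Nonempty := by
    by_contra hn
    rw [Finset.not_nonempty_iff_eq_empty] at hn
    obtain ⟨t, h1, _, h3⟩ := h 1 one_pos
    have h4 : ∑ l ∈ A, t ^ (e l + 1) * γ l = 0 := by
      refine Finset.sum_eq_zero fun l hl => ?_
      have h5 : γ l = 0 := by
        by_contra h6
        have h7 : l ∈ A.filter fun l => γ l ≠ 0 := Finset.mem_filter.2 ⟨hl, h6⟩
        rw [hn] at h7
        simp at h7
      rw [h5, mul_zero]
    rw [h4] at h3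
    have h8 : 0 < t ^ (e x + 1) := pow_pos h1 _
    linarith
  obtain ⟨l, hl, hmin⟩ := Finset.exists_min_image (A.filter fun l => γ l ≠ 0) e hne
  obtain ⟨hlA, hl0⟩ := Finset.mem_filter.1 hl
  have hmin' : ∀ l' ∈ A, γ l' ≠ 0 → e l ≤ e l' := fun l' h1 h2 =>
    hmin l' (Finset.mem_filter.2 ⟨h1, h2⟩)
  have hC : 0 ≤ ∑ l' ∈ A, |γ l'| := Finset.sum_nonneg fun _ _ => abs_nonneg _
  obtain ⟨C, hCd⟩ : ∃ C, C = ∑ l' ∈ A, |γ l'| := ⟨_, rfl⟩
  have hb := as_bound e he A γ l hlA hmin'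
  rw [← hCd] at hC hb
  have hpos : 0 < γ l := by
    rcases lt_or_gt_of_ne hl0 with hneg | hpos
    · exfalso
      obtain ⟨t, h1, h2, h3⟩ := h (min 1 (-γ l / (C + 1))) (by
        refine lt_min one_pos (div_pos (by linarith) (by linarith)))
      have h4 := lt_of_lt_of_le h2 (min_le_left _ _)
      have h5 := lt_of_lt_of_le h2 (min_le_right _ _)
      rw [lt_div_iff₀ (by linarith)] at h5
      have h6 := h3.trans (hb t h1 h4.le)
      have h7 : 0 < t ^ (e x + 1) := pow_pos h1 _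
      have h8 : γ l + t * C < 0 := by nlinarith
      have h9 : t ^ (e l + 1) * (γ l + t * C) < 0 := mul_neg_of_pos_of_neg (pow_pos h1 _) h8
      linarith
    · exact hpos
  refine ⟨l, hlA, hpos, ?_, hmin'⟩
  by_contra hle
  have hlt : e x < e l := by
    rcases Nat.lt_or_ge (e x) (e l) with h1 | h1
    · exact h1
    · exfalso
      have h2 : e x = e l := by omega
      exact hx ((he h2) ▸ hlA)
  obtain ⟨t, h1, h2, h3⟩ := h (min 1 (1 / (γ l + C + 1))) (by
    refine lt_min one_pos (div_pos one_pos (by linarith)))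
  have h4 := lt_of_lt_of_le h2 (min_le_left _ _)
  have h5 := lt_of_lt_of_le h2 (min_le_right _ _)
  rw [lt_div_iff₀ (by linarith)] at h5
  have h6 := h3.trans (hb t h1 h4.le)
  have h7 : t ^ (e l + 1) ≤ t ^ (e x + 1 + 1) := pow_le_pow_of_le_one h1.le h4.le (by omega)
  have h8 : 0 < t ^ (e x + 1) := pow_pos h1 _
  have h9 : 0 ≤ γ l + t * C := by positivity
  have h10 : t ^ (e l + 1) * (γ l + t * C) ≤ t ^ (e x + 1 + 1) * (γ l + t * C) :=
    mul_le_mul_of_nonneg_right h7 h9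
  have h11 : t ^ (e x + 1) ≤ t ^ (e x + 1) * (t * (γ l + t * C)) := by
    calc t ^ (e x + 1) ≤ t ^ (e x + 1 + 1) * (γ l + t * C) := h6.trans h10
      _ = t ^ (e x + 1) * (t * (γ l + t * C)) := by rw [pow_succ t (e x + 1)]; ring
  have h12 : 1 ≤ t * (γ l + t * C) := by
    by_contra h13
    have h14 := not_le.1 h13
    have h15 : t ^ (e x + 1) * (t * (γ l + t * C)) < t ^ (e x + 1) * 1 :=
      mul_lt_mul_of_pos_left h14 h8
    linarith
  have h16 : t * C ≤ C := mul_le_of_le_one_left hC h4.le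
  have h17 : t * (γ l + t * C) ≤ t * (γ l + C) :=
    mul_le_mul_of_nonneg_left (by linarith) h1.le
  nlinarith

end Pool.Agent.LVE
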