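import Pool.Agent.LVE.Defs

/-!
# First facts on pivots and slack sets
-/

set_option autoImplicit false

open scoped BigOperators Classical

namespace Pool.Agent.LVE

open Pool.Agent.GRD

variable {m : ℕ}

theorem c1_ord_lt {s : Fin m → Bool} {q : Fin m} {k : ℕ} (hk : k < m) (h : ord s q ≤ k) :
    s q = true ∧ (q : ℕ) ≤ k := by
  unfold ord at h
  by_cases hs : s q = true
  · rw [if_pos hs] at h
    exact ⟨hs, h⟩
  · rw [if_neg hs] at h
    omega

theorem ord_inj (s : Fin m → Bool) : Function.Injective (ord s) := by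
  intro l l' h
  have h1 := l.isLt
  have h2 := l'.isLt
  unfold ord at h
  apply Fin.ext
  split_ifs at h <;> omega

theorem isP_unique {s : Fin m → Bool} {v z : Fin m → ℝ} {g : Fin m → Fin m → ℝ} {x l l' : Fin m}
    (h : IsP s v z g x l) (h' : IsP s v z g x l') : l = l' := by
  have hg : g l x ≠ 0 := by
    intro h0
    have := h.2.1
    rw [h0, mul_zero] at this
    exact lt_irrefl _ this
  have hg' : g l' x ≠ 0 := by
    intro h0
    have := h'.2.1
    rw [h0, mul_zero] at this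
    exact lt_irrefl _ this
  exact ord_inj s (le_antisymm (h.2.2.2 l' h'.1 hg') (h'.2.2.2 l h.1 hg))

theorem neg_zero_mem {L : Submodule ℝ (Fin m → ℝ)} {a : Fin m → ℝ} {s : Fin m → Bool}
    {v z : Fin m → ℝ} {g : Fin m → Fin m → ℝ} (h : Sol L a s v z g) {x : Fin m} (hx : z x = 0)
    (hv : |v x| = 1) (hs : s x = true) : ∃ q, s q = true ∧ (q : ℕ) < x ∧ PX s v z g x q := by
  obtain ⟨q, hq⟩ := h.piv x hx hv
  have h1 : ord s x = (x : ℕ) := by
    unfold ord
    rw [if_pos hs]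
  have h2 : ord s q < (x : ℕ) := by
    rw [← h1]
    exact hq.2.2.1
  have h3 := c1_ord_lt (s := s) (q := q) x.isLt h2.le
  have h4 : ord s q = (q : ℕ) := by
    unfold ord
    rw [if_pos h3.1]
  refine ⟨q, h3.1, ?_, hx, hv, hq⟩
  rw [← h4]
  exact h2

theorem supp_pivot {L : Submodule ℝ (Fin m → ℝ)} {a : Fin m → ℝ} {s : Fin m → Bool}
    {v z : Fin m → ℝ} {g : Fin m → Fin m → ℝ} (h : Sol L a s v z g) {x l : Fin m} (hx : z x = 0)
    (hv : |v x| = 1) (hl : z l ≠ 0) (hs : s l = true) (hg : g l x ≠ 0) :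
    ∃ q, s q = true ∧ (q : ℕ) ≤ l ∧ PX s v z g x q := by
  obtain ⟨q, hq⟩ := h.piv x hx hv
  have h1 : ord s l = (l : ℕ) := by
    unfold ord
    rw [if_pos hs]
  have h2 : ord s q ≤ (l : ℕ) := by
    rw [← h1]
    exact hq.2.2.2 l hl hg
  have h3 := c1_ord_lt (s := s) (q := q) l.isLt h2
  exact ⟨q, h3.1, h3.2, hx, hv, hq⟩

theorem zs_neg {L : Submodule ℝ (Fin m → ℝ)} {a : Fin m → ℝ} {ω : Fin m → ZMod 3}
    {v z : Fin m → ℝ} {g : Fin m → Fin m → ℝ} (h : Sol L a (sb ω) v z g) {l : Fin m}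
    (hl : l ∈ Zs ω v z g) (hl' : l ∉ Ys (sb ω) v z g) :
    sb ω l = true ∧ v l * z l < 0 := by
  have hm := (Finset.mem_filter.mp hl).2
  have key : sb ω l = true ∧ z l ≠ 0 := by
    rcases hm.2 with h0 | hQ | hY
    · have hs : sb ω l = true := by
        unfold sb
        rw [h0]
        decide
      refine ⟨hs, fun hz => hl' ?_⟩
      obtain ⟨q, hq1, -, hq2⟩ := neg_zero_mem h hz hm.1 hs
      exact Finset.mem_filter.mpr ⟨Finset.mem_univ _, q, hq1, hq2⟩
    · obtain ⟨-, hs, x, hx⟩ := Finset.mem_filter.mp hQ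
      exact ⟨hs, hx.2.2.1⟩
    · exact absurd hY hl'
  refine ⟨key.1, ?_⟩
  rw [h.vz l]
  have hev : ev (sb ω) l = -1 := by
    unfold ev
    rw [if_pos key.1]
  rw [hev]
  have := abs_pos.mpr key.2
  linarith

theorem zs_le {L : Submodule ℝ (Fin m → ℝ)} {a : Fin m → ℝ} {ω : Fin m → ZMod 3}
    {v z : Fin m → ℝ} {g : Fin m → Fin m → ℝ} (h : Sol L a (sb ω) v z g) {l : Fin m}
    (hl : l ∈ Zs ω v z g) : v l * z l ≤ 0 := by
  by_cases hY : l ∈ Ys (sb ω) v z g
  · obtain ⟨-, q, -, hx⟩ := Finset.mem_filter.mp hY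
    rw [hx.1, mul_zero]
  · exact (zs_neg h hl hY).2.le

end Pool.Agent.LVE
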