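import Pool.Agent.LVE.Defs3
import Pool.Agent.LVE.C1

/-!
# Number of queried coordinates, with the excess of the face
-/

set_option autoImplicit false

open scoped BigOperators Classical

namespace Pool.Agent.LVE

open Pool.Agent.GRD Module

variable {m : ℕ}

/-- the zero coordinates are few -/
private theorem as3_rank {L : Submodule ℝ (Fin m → ℝ)} {z : Fin m → ℝ}
    (h : ∀ y ∈ L, (∀ l, z l ≠ 0 → y l = 0) → y = 0) :
    Module.finrank ℝ L ≤ (Finset.univ.filter fun l : Fin m => z l ≠ 0).card := by
  let f : L →ₗ[ℝ] ({l : Fin m // z l ≠ 0} → ℝ) :=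
    { toFun := fun y l => (y : Fin m → ℝ) l.1
      map_add' := fun _ _ => rfl
      map_smul' := fun _ _ => rfl }
  have hf : Function.Injective f := by
    rw [← LinearMap.ker_eq_bot, LinearMap.ker_eq_bot']
    intro y hy
    apply Subtype.ext
    apply h y y.2
    intro l hl
    exact congrFun hy ⟨l, hl⟩
  have h1 := LinearMap.finrank_le_finrank_of_injective hf
  rw [Module.finrank_fintype_fun_eq_card, Fintype.card_subtype] at h1
  exact h1

/-- the basis elements in `S` are independent on `L` -/
private theorem as3_indep {L : Submodule ℝ (Fin m → ℝ)} {a : Fin m → ℝ} {s : Fin m → Bool}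
    {v z : Fin m → ℝ} {g : Fin m → Fin m → ℝ} (h : Sol L a s v z g) (S : Finset (Fin m)) :
    finrank ℝ (Lz L S) + (S.filter fun l => z l ≠ 0).card ≤ finrank ℝ L := by
  have hz : ∀ l : {l : Fin m // l ∈ S.filter fun l => z l ≠ 0}, z l.1 ≠ 0 :=
    fun l => (Finset.mem_filter.1 l.2).2
  let φ : (Lz L S × ({l : Fin m // l ∈ S.filter fun l => z l ≠ 0} → ℝ)) →ₗ[ℝ] L :=
    { toFun := fun p => ⟨(p.1 : Fin m → ℝ) + ∑ l, p.2 l • g l.1,
        L.add_mem p.1.2.1 (L.sum_mem fun l _ => L.smul_mem _ (h.gL l.1 (hz l)))⟩
      map_add' := by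
        intro p p'
        apply Subtype.ext
        simp only [Prod.fst_add, Prod.snd_add, Pi.add_apply, add_smul, Finset.sum_add_distrib,
          Submodule.coe_add]
        abel
      map_smul' := by
        intro r p
        apply Subtype.ext
        simp only [Prod.smul_fst, Prod.smul_snd, Pi.smul_apply, smul_eq_mul, mul_smul,
          RingHom.id_apply, Submodule.coe_smul, smul_add, Finset.smul_sum] }
  have hφ : Function.Injective φ := by
    rw [← LinearMap.ker_eq_bot, LinearMap.ker_eq_bot']
    rintro ⟨w, c⟩ hwc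
    have h1 : (w : Fin m → ℝ) + ∑ l, c l • g l.1 = 0 := congrArg Subtype.val hwc
    have hc : c = 0 := by
      funext l
      have h2 := congrFun h1 l.1
      rw [Pi.add_apply, w.2.2 l.1 (Finset.mem_filter.1 l.2).1, zero_add, Finset.sum_apply,
        Finset.sum_eq_single l] at h2
      · rw [Pi.smul_apply, smul_eq_mul, Pi.zero_apply] at h2
        rcases mul_eq_zero.1 h2 with h3 | h3
        · exact h3
        · have h4 := h.gl l.1 (hz l)
          rw [h3, mul_zero] at h4
          exact absurd h4.symm one_ne_zero
      · intro l' _ hne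
        rw [Pi.smul_apply, h.gz l'.1 l.1 (hz l') (hz l), smul_zero]
        intro e
        exact hne (Subtype.ext e.symm)
      · intro h3
        exact absurd (Finset.mem_univ _) h3
    have hw : w = 0 := by
      apply Subtype.ext
      rw [hc] at h1
      simp only [Pi.zero_apply, zero_smul, Finset.sum_const_zero, add_zero] at h1
      exact h1
    rw [hc, hw]
    rfl
  have h1 := LinearMap.finrank_le_finrank_of_injective hφ
  rw [Module.finrank_prod, Module.finrank_fintype_fun_eq_card, Fintype.card_coe] at h1
  exact h1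

/-- number of queried coordinates, with the excess `e` of the face -/
theorem card_As3 {L : Submodule ℝ (Fin m → ℝ)} {a : Fin m → ℝ} (ha : Gen L a)
    {ω : Fin m → ZMod 3} {v z : Fin m → ℝ} {g : Fin m → Fin m → ℝ}
    (h : Sol L a (sb ω) v z g) (e : ℕ)
    (he : Module.finrank ℝ L + e ≤ (Sp (Psi ω v z g)).card +
      Module.finrank ℝ (Lz L (Sp (Psi ω v z g)))) :
    (As ω v z g).card + Module.finrank ℝ L + e ≤ m + (Qs (sb ω) v z g).card := by
  obtain ⟨S, hS⟩ : ∃ S, S = Sp (Psi ω v z g) := ⟨_, rfl⟩
  have hSm : ∀ l ∈ S, |v l| = 1 ∧ l ∉ Zs ω v z g := by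
    intro l hl
    rw [hS] at hl
    unfold Sp at hl
    rw [Finset.mem_filter] at hl
    by_contra hcon
    apply hl.2
    unfold Psi
    rw [if_neg hcon]
  rw [← hS] at he
  have h1 := as3_rank (ha z h.orth)
  have h2 := as3_indep h S
  have h3 : (S.filter fun l => z l ≠ 0).card + (S.filter fun l => ¬ z l ≠ 0).card = S.card :=
    Finset.card_filter_add_card_filter_not _
  have h4 : (Ys (sb ω) v z g).card + (Finset.univ.filter fun l : Fin m => z l ≠ 0).card +
      (S.filter fun l => ¬ z l ≠ 0).card ≤ (Tt v).card := by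
    rw [← Finset.card_union_of_disjoint, ← Finset.card_union_of_disjoint]
    · apply Finset.card_le_card
      intro x hx
      rw [Finset.mem_union, Finset.mem_union] at hx
      unfold Tt
      rw [Finset.mem_filter]
      refine ⟨Finset.mem_univ _, ?_⟩
      rcases hx with (hx | hx) | hx
      · unfold Ys at hx
        rw [Finset.mem_filter] at hx
        obtain ⟨_, q, _, hq⟩ := hx
        exact hq.2.1
      · rw [Finset.mem_filter] at hx
        exact h.v1 x hx.2
      · rw [Finset.mem_filter] at hx
        exact (hSm x hx.1).1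
    · rw [Finset.disjoint_left]
      intro x hx hx'
      rw [Finset.mem_filter] at hx'
      rw [Finset.mem_union] at hx
      rcases hx with hx | hx
      · apply (hSm x hx'.1).2
        unfold Zs
        rw [Finset.mem_filter]
        exact ⟨Finset.mem_univ _, (hSm x hx'.1).1, Or.inr (Or.inr hx)⟩
      · rw [Finset.mem_filter] at hx
        exact hx'.2 hx.2
    · rw [Finset.disjoint_left]
      intro x hx hx'
      unfold Ys at hx
      rw [Finset.mem_filter] at hx hx'
      obtain ⟨_, q, _, hq⟩ := hx
      exact hx'.2 hq.1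
  have h5 : ((Tt v)ᶜ).card + (Tt v).card = m := by
    rw [Finset.card_compl_add_card, Fintype.card_fin]
  have h6 : (As ω v z g).card ≤ ((Ys (sb ω) v z g).card + (Qs (sb ω) v z g).card)
      + ((Tt v)ᶜ).card := by
    unfold As
    exact (Finset.card_union_le _ _).trans (Nat.add_le_add_right (Finset.card_union_le _ _) _)
  omega

end Pool.Agent.LVE
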