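import Pool.Agent.LVE.BU

/-!
Row BF: a continuous map which is odd far away from the origin has a zero.
-/

set_option autoImplicit false

open scoped BigOperators Classical

namespace Pool.Agent.LVE

open Pool.Agent.GRD Pool.Agent.VNP

private noncomputable def BF_g (k : ℕ) (F : (Fin k → ℝ) → (Fin k → ℝ)) (C : ℝ)
    (x : Fin (k + 1) → ℝ) : Fin k → ℝ :=
  if 0 ≤ x (Fin.last k) then F (fun j => C * x j.castSucc)
  else -F (fun j => -(C * x j.castSucc))

private theorem BF_norm (k : ℕ) (R : ℝ) (x : Fin (k + 1) → ℝ) (hx : ∑ j, |x j| = 1)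
    (h0 : x (Fin.last k) = 0) :
    R ≤ ‖fun j : Fin k => ((k : ℝ) + 1) * (|R| + 1) * x j.castSucc‖ := by
  rw [Fin.sum_univ_castSucc, h0, abs_zero, add_zero] at hx
  have h1 : ∀ j : Fin k, ((k : ℝ) + 1) * (|R| + 1) * |x j.castSucc| ≤
      ‖fun j : Fin k => ((k : ℝ) + 1) * (|R| + 1) * x j.castSucc‖ := by
    intro j
    have h2 := norm_le_pi_norm (fun j : Fin k => ((k : ℝ) + 1) * (|R| + 1) * x j.castSucc) j
    rw [Real.norm_eq_abs, abs_mul, abs_of_nonneg (a := ((k : ℝ) + 1) * (|R| + 1))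
      (by positivity)] at h2
    exact h2
  have h3 := Finset.sum_le_sum (s := Finset.univ) fun j (_ : j ∈ Finset.univ) => h1 j
  rw [← Finset.mul_sum, hx, mul_one, Finset.sum_const, Finset.card_univ, Fintype.card_fin,
    nsmul_eq_mul] at h3
  have h4 : (0 : ℝ) ≤ ‖fun j : Fin k => ((k : ℝ) + 1) * (|R| + 1) * x j.castSucc‖ :=
    norm_nonneg _
  have h5 : ((k : ℝ) + 1) * (|R| + 1) ≤ ((k : ℝ) + 1) *
      ‖fun j : Fin k => ((k : ℝ) + 1) * (|R| + 1) * x j.castSucc‖ := by linarith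
  have h6 : (0 : ℝ) < (k : ℝ) + 1 := by positivity
  have h7 := le_of_mul_le_mul_left h5 h6
  have h8 := le_abs_self R
  linarith

theorem zero_of_odd_far (k : ℕ) (F : (Fin k → ℝ) → (Fin k → ℝ)) (hF : Continuous F) (R : ℝ)
    (hodd : ∀ x, R ≤ ‖x‖ → F (-x) = -F x) : ∃ x, F x = 0 := by
  have hneg : ∀ x : Fin (k + 1) → ℝ, (fun j : Fin k =>
      -(((k : ℝ) + 1) * (|R| + 1) * x j.castSucc)) =
      -fun j : Fin k => ((k : ℝ) + 1) * (|R| + 1) * x j.castSucc := fun x => rfl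
  have hneg2 : ∀ x : Fin (k + 1) → ℝ, (fun j : Fin k =>
      ((k : ℝ) + 1) * (|R| + 1) * (-x) j.castSucc) =
      fun j : Fin k => -(((k : ℝ) + 1) * (|R| + 1) * x j.castSucc) := by
    intro x
    funext j
    rw [Pi.neg_apply, mul_neg]
  have hneg3 : ∀ x : Fin (k + 1) → ℝ, (fun j : Fin k =>
      -(((k : ℝ) + 1) * (|R| + 1) * (-x) j.castSucc)) =
      fun j : Fin k => ((k : ℝ) + 1) * (|R| + 1) * x j.castSucc := by
    intro x
    funext j
    rw [Pi.neg_apply, mul_neg, neg_neg]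
  have hC : ContinuousOn (BF_g k F (((k : ℝ) + 1) * (|R| + 1))) {x | ∑ j, |x j| = 1} := by
    unfold BF_g
    apply ContinuousOn.if
    · rintro x ⟨hx, hx2⟩
      have h0 : (0 : ℝ) = x (Fin.last k) :=
        frontier_le_subset_eq continuous_const (continuous_apply (Fin.last k)) hx2
      rw [hneg x, hodd _ (BF_norm k R x hx h0.symm), neg_neg]
    · exact (hF.comp (by fun_prop)).continuousOn
    · exact (hF.comp (by fun_prop)).neg.continuousOn
  obtain ⟨x, hx, h⟩ := borsuk k (BF_g k F (((k : ℝ) + 1) * (|R| + 1))) hC (by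
    intro x hx
    unfold BF_g
    rw [Pi.neg_apply, hneg2 x, hneg3 x]
    rcases lt_trichotomy (x (Fin.last k)) 0 with h | h | h
    · rw [if_pos (by linarith), if_neg (by linarith), neg_neg]
    · rw [if_pos (by linarith), if_pos (by linarith), hneg x, hodd _ (BF_norm k R x hx h)]
    · rw [if_neg (by linarith), if_pos (by linarith)])
  unfold BF_g at h
  split_ifs at h with h1
  · exact ⟨_, h⟩
  · exact ⟨_, neg_eq_zero.1 h⟩

end Pool.Agent.LVE
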