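import Pool.Agent.LVE.Defs
import Pool.Agent.VNP.KyFan

/-!
# Fine antipodal chains on the l1 sphere (barycentric subdivision on lists, mod 2)
-/

set_option autoImplicit false

open scoped BigOperators Classical

namespace Pool.Agent.LVE

open Pool.Agent.GRD Pool.Agent.VNP

section

variable {ι : Type}

/-- mean of the entries -/
noncomputable def sd_mean (t : List (ι → ℝ)) : ι → ℝ := (t.length : ℝ)⁻¹ • t.sum

/-- subdivision of the chains on lists of length `n` -/
noncomputable def sd_op : ℕ → (Ch (ι → ℝ) →ₗ[ZMod 2] Ch (ι → ℝ))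
  | 0 => LinearMap.id
  | n + 1 => Finsupp.linearCombination (ZMod 2) (fun t => cone (sd_mean t) (sd_op n (bdL t)))

theorem sd_op_zero : sd_op (ι := ι) 0 = LinearMap.id := rfl

theorem sd_op_succ (n : ℕ) (t : List (ι → ℝ)) :
    sd_op (n + 1) (Finsupp.single t 1) = cone (sd_mean t) (sd_op n (bdL t)) := by
  rw [sd_op, Finsupp.linearCombination_single, one_smul]

theorem sd_mean_single (v : ι → ℝ) : sd_mean [v] = v := by
  simp [sd_mean]

theorem sd_len {t : List (ι → ℝ)} {n : ℕ} (ht : t.length = n + 1) :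
    bdL t ∈ On (fun s : List (ι → ℝ) => s.length = n) := by
  apply bdL_mem_on
  intro i hi
  rw [List.length_eraseIdx_of_lt hi, ht]
  rfl

theorem sd_bd (n : ℕ) : ∀ c : Ch (ι → ℝ), c ∈ On (fun t : List (ι → ℝ) => t.length = n + 1) →
    bd (sd_op (n + 1) c) = sd_op n (bd c) := by
  induction n with
  | zero =>
    intro c hc
    have h := on_ext (bd.comp (sd_op (0 + 1))) ((sd_op 0).comp bd)
      (P := fun t : List (ι → ℝ) => t.length = 0 + 1) ?_ hc
    · rw [LinearMap.comp_apply, LinearMap.comp_apply] at h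
      exact h
    · intro t ht
      obtain ⟨v, rfl⟩ := List.length_eq_one_iff.1 ht
      rw [LinearMap.comp_apply, LinearMap.comp_apply, sd_op_succ, sd_op_zero, LinearMap.id_apply,
        LinearMap.id_apply, bd_cone, bd_bdL, map_zero, add_zero, bd_single_one]
  | succ n ih =>
    intro c hc
    have h := on_ext (bd.comp (sd_op (n + 1 + 1))) ((sd_op (n + 1)).comp bd)
      (P := fun t : List (ι → ℝ) => t.length = n + 1 + 1) ?_ hc
    · rw [LinearMap.comp_apply, LinearMap.comp_apply] at h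
      exact h
    · intro t ht
      rw [LinearMap.comp_apply, LinearMap.comp_apply, sd_op_succ, bd_cone,
        ih _ (sd_len ht), bd_bdL, map_zero, map_zero, add_zero, bd_single_one]

theorem sd_sum_neg (t : List (ι → ℝ)) : (t.map fun x => -x).sum = -t.sum := by
  induction t with
  | nil => simp
  | cons a t ih => rw [List.map_cons, List.sum_cons, List.sum_cons, ih, neg_add]

theorem sd_mean_neg (t : List (ι → ℝ)) : sd_mean (t.map fun x => -x) = -sd_mean t := by
  unfold sd_mean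
  rw [sd_sum_neg, List.length_map, smul_neg]

theorem sd_neg (n : ℕ) : ∀ c : Ch (ι → ℝ),
    mapC (fun x => -x) (sd_op n c) = sd_op n (mapC (fun x => -x) c) := by
  induction n with
  | zero => intro c; rfl
  | succ n ih =>
    intro c
    have h : (mapC (fun x => -x)).comp (sd_op (ι := ι) (n + 1)) =
        (sd_op (n + 1)).comp (mapC (fun x => -x)) := by
      apply ch_ext
      intro t
      rw [LinearMap.comp_apply, LinearMap.comp_apply, sd_op_succ, mapC_cone, ih, mapC_bdL,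
        mapC_single, sd_op_succ, sd_mean_neg]
    have h2 := congrArg (fun f => f c) h
    simpa only [LinearMap.comp_apply] using h2

theorem sd_mean_mem {K : Set (ι → ℝ)} (hK : Convex ℝ K) (t : List (ι → ℝ)) (ht : t ≠ [])
    (h : ∀ x ∈ t, x ∈ K) : sd_mean t ∈ K := by
  induction t with
  | nil => exact absurd rfl ht
  | cons v s ih =>
    rcases s with _ | ⟨w, s⟩
    · rw [sd_mean_single]
      exact h v (by simp)
    · have h1 := ih (by simp) fun x hx => h x (List.mem_cons_of_mem _ hx)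
      have hv := h v (by simp)
      have hn : (0 : ℝ) < ((w :: s).length : ℝ) := by
        rw [List.length_cons]; positivity
      have h2 : sd_mean (v :: w :: s) = (((w :: s).length : ℝ) + 1)⁻¹ • v +
          (((w :: s).length : ℝ) / (((w :: s).length : ℝ) + 1)) • sd_mean (w :: s) := by
        unfold sd_mean
        rw [List.length_cons (a := v), List.sum_cons (a := v), smul_smul, Nat.cast_add,
          Nat.cast_one, smul_add]
        congr 2
        field_simp
      rw [h2]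
      apply hK hv h1
      · positivity
      · positivity
      · field_simp
        ring

theorem sd_hull {K : Set (ι → ℝ)} (hK : Convex ℝ K) (n : ℕ) :
    ∀ t : List (ι → ℝ), t.length = n → (∀ x ∈ t, x ∈ K) →
      sd_op n (Finsupp.single t 1) ∈ On (fun s : List (ι → ℝ) => ∀ x ∈ s, x ∈ K) := by
  induction n with
  | zero =>
    intro t _ h
    exact single_mem_on 1 h
  | succ n ih =>
    intro t ht h
    rw [sd_op_succ]
    have hne : t ≠ [] := by
      rintro rfl
      simp at ht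
    have hb := sd_mean_mem hK t hne h
    apply cone_mem_on (P := fun s : List (ι → ℝ) => ∀ x ∈ s, x ∈ K)
    · intro s hs x hx
      rcases List.mem_cons.1 hx with rfl | hx
      · exact hb
      · exact hs x hx
    · apply on_map (sd_op n) _ (P := fun s : List (ι → ℝ) => s.length = n ∧ ∀ x ∈ s, x ∈ K)
      · rintro s ⟨h1, h2⟩
        exact ih s h1 h2
      · apply bdL_mem_on
        intro i hi
        refine ⟨?_, fun x hx => h x (List.mem_of_mem_eraseIdx hx)⟩
        rw [List.length_eraseIdx_of_lt hi, ht]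
        rfl

theorem sd_sum_dist (s : List (ι → ℝ)) (j : ι) (c r : ℝ) (h : ∀ w ∈ s, |w j - c| ≤ r) :
    |s.sum j - s.length * c| ≤ s.length * r := by
  induction s with
  | nil => simp
  | cons w s ih =>
    have h1 := ih fun x hx => h x (List.mem_cons_of_mem _ hx)
    have h2 := h w (by simp)
    rw [List.sum_cons, List.length_cons, Pi.add_apply, Nat.cast_add, Nat.cast_one]
    have h3 : w j + s.sum j - ((s.length : ℝ) + 1) * c =
        (w j - c) + (s.sum j - s.length * c) := by ring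
    rw [h3]
    refine (abs_add_le _ _).trans ?_
    linarith

theorem sd_mean_dist (t : List (ι → ℝ)) (n k : ℕ) (ht : t.length = n + 1) (hn : n ≤ k) (r : ℝ)
    (hr : 0 ≤ r) (j : ι) (h : ∀ x ∈ t, ∀ y ∈ t, |x j - y j| ≤ r) (v : ι → ℝ) (hv : v ∈ t) :
    |sd_mean t j - v j| ≤ (k : ℝ) / (k + 1) * r := by
  have hp := List.perm_cons_erase hv
  have h1 : t.sum = v + (t.erase v).sum := by
    rw [hp.sum_eq, List.sum_cons]
  have hl : (t.erase v).length = n := by
    rw [List.length_erase_of_mem hv, ht]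
    rfl
  have h2 := sd_sum_dist (t.erase v) j (v j) r fun w hw => h w (List.mem_of_mem_erase hw) v hv
  rw [hl] at h2
  have h3 : sd_mean t j - v j = ((n : ℝ) + 1)⁻¹ * ((t.erase v).sum j - n * v j) := by
    unfold sd_mean
    rw [Pi.smul_apply, smul_eq_mul, ht, h1, Pi.add_apply, Nat.cast_add, Nat.cast_one]
    field_simp
    ring
  rw [h3, abs_mul, abs_of_nonneg (by positivity : (0 : ℝ) ≤ ((n : ℝ) + 1)⁻¹)]
  have h4 : (n : ℝ) / (n + 1) ≤ (k : ℝ) / (k + 1) := by
    have h5 : (n : ℝ) ≤ k := by exact_mod_cast hn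
    rw [div_le_div_iff₀ (by positivity) (by positivity)]
    nlinarith
  calc ((n : ℝ) + 1)⁻¹ * |(t.erase v).sum j - n * v j|
      ≤ ((n : ℝ) + 1)⁻¹ * (n * r) := mul_le_mul_of_nonneg_left h2 (by positivity)
    _ = (n : ℝ) / (n + 1) * r := by rw [div_eq_mul_inv]; ring
    _ ≤ (k : ℝ) / (k + 1) * r := mul_le_mul_of_nonneg_right h4 hr

theorem sd_mesh (k : ℕ) (r : ℝ) (hr : 0 ≤ r) (n : ℕ) : n ≤ k + 1 →
    ∀ t : List (ι → ℝ), t.length = n → (∀ x ∈ t, ∀ y ∈ t, ∀ j, |x j - y j| ≤ r) →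
      sd_op n (Finsupp.single t 1) ∈ On (fun s : List (ι → ℝ) => s.length = n ∧
        ∀ x ∈ s, ∀ y ∈ s, ∀ j, |x j - y j| ≤ (k : ℝ) / (k + 1) * r) := by
  induction n with
  | zero =>
    intro _ t ht h
    refine single_mem_on 1 ⟨ht, ?_⟩
    rw [List.length_eq_zero_iff.1 ht]
    intro x hx
    simp at hx
  | succ n ih =>
    intro hn t ht h
    rw [sd_op_succ]
    have hc : Convex ℝ {x : ι → ℝ | ∀ j, |sd_mean t j - x j| ≤ (k : ℝ) / (k + 1) * r} := by
      intro x hx y hy a b ha hb hab j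
      have hx1 := hx j
      have hy1 := hy j
      have h1 : sd_mean t j - (a • x + b • y) j =
          a * (sd_mean t j - x j) + b * (sd_mean t j - y j) := by
        simp only [Pi.add_apply, Pi.smul_apply, smul_eq_mul]
        have h2 : sd_mean t j = (a + b) * sd_mean t j := by rw [hab, one_mul]
        linear_combination h2
      rw [h1]
      refine (abs_add_le _ _).trans ?_
      rw [abs_mul, abs_mul, abs_of_nonneg ha, abs_of_nonneg hb]
      have h3 := mul_le_mul_of_nonneg_left hx1 ha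
      have h4 := mul_le_mul_of_nonneg_left hy1 hb
      calc a * |sd_mean t j - x j| + b * |sd_mean t j - y j|
          ≤ a * ((k : ℝ) / (k + 1) * r) + b * ((k : ℝ) / (k + 1) * r) := add_le_add h3 h4
        _ = (a + b) * ((k : ℝ) / (k + 1) * r) := by ring
        _ = (k : ℝ) / (k + 1) * r := by rw [hab, one_mul]
    have hP : bdL t ∈ On (fun s : List (ι → ℝ) => s.length = n ∧
        (∀ x ∈ s, ∀ y ∈ s, ∀ j, |x j - y j| ≤ r) ∧ ∀ x ∈ s, x ∈ t) := by
      apply bdL_mem_on
      intro i hi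
      refine ⟨?_, fun x hx y hy => h x (List.mem_of_mem_eraseIdx hx) y
        (List.mem_of_mem_eraseIdx hy), fun x hx => List.mem_of_mem_eraseIdx hx⟩
      rw [List.length_eraseIdx_of_lt hi, ht]
      rfl
    have h1 : sd_op n (bdL t) ∈ On (fun s : List (ι → ℝ) => s.length = n ∧
        ∀ x ∈ s, ∀ y ∈ s, ∀ j, |x j - y j| ≤ (k : ℝ) / (k + 1) * r) := by
      refine on_map (sd_op n) _ ?_ hP
      rintro s ⟨h2, h3, _⟩
      exact ih (by omega) s h2 h3
    have h2 : sd_op n (bdL t) ∈ On (fun s : List (ι → ℝ) => ∀ x ∈ s,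
        x ∈ {x : ι → ℝ | ∀ j, |sd_mean t j - x j| ≤ (k : ℝ) / (k + 1) * r}) := by
      refine on_map (sd_op n) _ ?_ hP
      rintro s ⟨h2, _, h4⟩
      apply sd_hull hc n s h2
      intro x hx j
      exact sd_mean_dist t n k ht (by omega) r hr j (fun x hx y hy => h x hx y hy j) x (h4 x hx)
    have h3 : sd_op n (bdL t) ∈ On (fun s : List (ι → ℝ) => (s.length = n ∧
        ∀ x ∈ s, ∀ y ∈ s, ∀ j, |x j - y j| ≤ (k : ℝ) / (k + 1) * r) ∧
        ∀ x ∈ s, ∀ j, |sd_mean t j - x j| ≤ (k : ℝ) / (k + 1) * r) := by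
      rw [mem_on] at h1 h2 ⊢
      exact fun s hs => ⟨h1 s hs, h2 s hs⟩
    refine cone_mem_on ?_ h3
    rintro s ⟨⟨h4, h5⟩, h6⟩
    refine ⟨by rw [List.length_cons, h4], ?_⟩
    have h7 : (0 : ℝ) ≤ (k : ℝ) / (k + 1) * r := by positivity
    intro x hx y hy j
    rcases List.mem_cons.1 hx with rfl | hx <;> rcases List.mem_cons.1 hy with rfl | hy
    · rw [sub_self, abs_zero]
      exact h7
    · exact h6 y hy j
    · rw [abs_sub_comm]
      exact h6 x hx j
    · exact h5 x hx y hy j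

end

section

variable {k : ℕ}

/-- the unit vector (zero if `k < i`) -/
def sd_e (k i : ℕ) : Fin (k + 1) → ℝ := fun l => if (l : ℕ) = i then 1 else 0

/-- the coarse chains -/
noncomputable def sd_c (k : ℕ) : ℕ → Ch (Fin (k + 1) → ℝ)
  | 0 => Finsupp.single [sd_e k 0] 1
  | i + 1 => cone (sd_e k (i + 1)) (sd_c k i + mapC (fun x => -x) (sd_c k i))

/-- a closed facet of the l1 sphere -/
def sd_K (σ : Fin (k + 1) → ℝ) : Set (Fin (k + 1) → ℝ) :=
  {x | (∀ l, 0 ≤ σ l * x l) ∧ ∑ l, σ l * x l = 1}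

theorem sd_K_convex (σ : Fin (k + 1) → ℝ) : Convex ℝ (sd_K σ) := by
  intro x hx y hy a b ha hb hab
  refine ⟨fun l => ?_, ?_⟩
  · have h1 := mul_nonneg ha (hx.1 l)
    have h2 := mul_nonneg hb (hy.1 l)
    simp only [Pi.add_apply, Pi.smul_apply, smul_eq_mul]
    nlinarith
  · have h1 : ∑ l, σ l * (a • x + b • y) l = a * ∑ l, σ l * x l + b * ∑ l, σ l * y l := by
      rw [Finset.mul_sum, Finset.mul_sum, ← Finset.sum_add_distrib]
      refine Finset.sum_congr rfl fun l _ => ?_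
      simp only [Pi.add_apply, Pi.smul_apply, smul_eq_mul]
      ring
    rw [h1, hx.2, hy.2, mul_one, mul_one, hab]

theorem sd_K_abs {σ : Fin (k + 1) → ℝ} (hσ : ∀ l, σ l = 1 ∨ σ l = -1) {x : Fin (k + 1) → ℝ}
    (hx : x ∈ sd_K σ) : ∑ l, |x l| = 1 := by
  rw [← hx.2]
  refine Finset.sum_congr rfl fun l _ => ?_
  have h := hx.1 l
  rcases hσ l with h1 | h1 <;> rw [h1] at h ⊢
  · rw [one_mul] at h ⊢
    exact abs_of_nonneg h
  · rw [neg_one_mul] at h ⊢
    exact abs_of_nonpos (by linarith)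

/-- the tuples of the coarse chains -/
def sd_P (k i : ℕ) (t : List (Fin (k + 1) → ℝ)) : Prop :=
  t.length = i + 1 ∧ ∃ σ : Fin (k + 1) → ℝ, (∀ l, σ l = 1 ∨ σ l = -1) ∧
    ∀ x ∈ t, x ∈ sd_K σ ∧ ∀ l : Fin (k + 1), i < (l : ℕ) → x l = 0

theorem sd_P_neg {i : ℕ} {t : List (Fin (k + 1) → ℝ)} (h : sd_P k i t) :
    sd_P k i (t.map fun x => -x) := by
  obtain ⟨h1, σ, h2, h3⟩ := h
  refine ⟨by rw [List.length_map, h1], fun l => -σ l, fun l => ?_, ?_⟩
  · rcases h2 l with h | h
    · right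
      change -σ l = -1
      rw [h]
    · left
      change -σ l = 1
      rw [h, neg_neg]
  · intro x hx
    obtain ⟨y, hy, rfl⟩ := List.mem_map.1 hx
    obtain ⟨⟨h4, h5⟩, h6⟩ := h3 y hy
    refine ⟨⟨fun l => ?_, ?_⟩, fun l hl => ?_⟩
    · rw [Pi.neg_apply, neg_mul_neg]
      exact h4 l
    · simp only [Pi.neg_apply, neg_mul_neg]
      exact h5
    · rw [Pi.neg_apply, h6 l hl, neg_zero]

theorem sd_e_sum {i : ℕ} (hi : i ≤ k) (σ : Fin (k + 1) → ℝ)
    (hσ : ∀ l : Fin (k + 1), (l : ℕ) = i → σ l = 1) : ∑ l, σ l * sd_e k i l = 1 := by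
  rw [Finset.sum_eq_single (⟨i, by omega⟩ : Fin (k + 1))]
  · rw [hσ _ rfl]
    simp [sd_e]
  · intro b _ hb
    have : (b : ℕ) ≠ i := fun h => hb (Fin.ext h)
    simp [sd_e, this]
  · intro h
    exact absurd (Finset.mem_univ _) h

theorem sd_e_nonneg {i : ℕ} (σ : Fin (k + 1) → ℝ)
    (hσ : ∀ l : Fin (k + 1), (l : ℕ) = i → σ l = 1) (l : Fin (k + 1)) :
    0 ≤ σ l * sd_e k i l := by
  unfold sd_e
  by_cases h : (l : ℕ) = i
  · rw [if_pos h, hσ l h]
    norm_num
  · rw [if_neg h, mul_zero]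

theorem sd_P_cons {i : ℕ} (hi : i + 1 ≤ k) {t : List (Fin (k + 1) → ℝ)} (h : sd_P k i t) :
    sd_P k (i + 1) (sd_e k (i + 1) :: t) := by
  obtain ⟨h1, σ, h2, h3⟩ := h
  refine ⟨by rw [List.length_cons, h1], fun l => if (l : ℕ) = i + 1 then 1 else σ l,
    fun l => ?_, ?_⟩
  · by_cases hl : (l : ℕ) = i + 1
    · left; simp only [hl, if_true]
    · simp only [hl, if_false]
      exact h2 l
  · intro x hx
    rcases List.mem_cons.1 hx with rfl | hx
    · have hσ' : ∀ l : Fin (k + 1), (l : ℕ) = i + 1 →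
          (fun l : Fin (k + 1) => if (l : ℕ) = i + 1 then (1 : ℝ) else σ l) l = 1 :=
        fun l hl => if_pos hl
      refine ⟨⟨fun l => ?_, ?_⟩, fun l hl => ?_⟩
      · exact sd_e_nonneg _ hσ' l
      · exact sd_e_sum hi _ hσ'
      · unfold sd_e
        rw [if_neg (by omega)]
    · obtain ⟨⟨h4, h5⟩, h6⟩ := h3 x hx
      have h7 : ∀ l : Fin (k + 1), (if (l : ℕ) = i + 1 then (1 : ℝ) else σ l) * x l =
          σ l * x l := by
        intro l
        by_cases hl : (l : ℕ) = i + 1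
        · rw [h6 l (by omega), mul_zero, mul_zero]
        · rw [if_neg hl]
      refine ⟨⟨fun l => ?_, ?_⟩, fun l hl => h6 l (by omega)⟩
      · rw [h7]
        exact h4 l
      · simp only [h7]
        exact h5

theorem sd_c_on (i : ℕ) (hi : i ≤ k) : sd_c k i ∈ On (sd_P k i) := by
  induction i with
  | zero =>
    refine single_mem_on 1 ⟨rfl, fun _ => 1, fun _ => Or.inl rfl, ?_⟩
    intro x hx
    rw [List.mem_singleton] at hx
    subst hx
    refine ⟨⟨fun l => sd_e_nonneg _ (fun _ _ => rfl) l, sd_e_sum hi _ (fun _ _ => rfl)⟩,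
      fun l hl => ?_⟩
    unfold sd_e
    rw [if_neg (by omega)]
  | succ i ih =>
    refine cone_mem_on (P := sd_P k i) (fun t ht => sd_P_cons hi ht) ?_
    refine Submodule.add_mem _ (ih (by omega)) ?_
    exact mapC_mem_on (fun t ht => sd_P_neg ht) (ih (by omega))

theorem sd_c_cycle (i : ℕ) : bd (sd_c k i + mapC (fun x => -x) (sd_c k i)) = 0 := by
  induction i with
  | zero =>
    rw [sd_c, mapC_single, map_add, bd_single_one, bd_single_one, List.map_cons, List.map_nil,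
      bdL_cons, bdL_cons, bdL_nil, map_zero, map_zero, add_zero]
    exact ch_add_self _
  | succ i ih =>
    have h1 : bd (sd_c k (i + 1)) = sd_c k i + mapC (fun x => -x) (sd_c k i) := by
      rw [sd_c, bd_cone, ih, map_zero, add_zero]
    rw [map_add, ← mapC_bd, h1, map_add, mapC_mapC]
    have h2 : mapC (fun x : Fin (k + 1) → ℝ => - -x) (sd_c k i) = sd_c k i := by
      simp only [neg_neg]
      exact mapC_id _
    rw [h2, add_comm (mapC (fun x => -x) (sd_c k i)) (sd_c k i)]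
    exact ch_add_self _

theorem sd_c_bd (i : ℕ) : bd (sd_c k (i + 1)) = sd_c k i + mapC (fun x => -x) (sd_c k i) := by
  rw [sd_c, bd_cone, sd_c_cycle, map_zero, add_zero]

/-- the iterated subdivisions -/
noncomputable def sd_D (k : ℕ) : ℕ → ℕ → Ch (Fin (k + 1) → ℝ)
  | 0, i => sd_c k i
  | N + 1, i => sd_op (i + 1) (sd_D k N i)

/-- the tuples of the iterated subdivisions -/
def sd_R (k N i : ℕ) (t : List (Fin (k + 1) → ℝ)) : Prop :=
  (t.length = i + 1 ∧ ∀ x ∈ t, ∀ y ∈ t, ∀ j, |x j - y j| ≤ ((k : ℝ) / (k + 1)) ^ N * 2) ∧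
    ∃ σ : Fin (k + 1) → ℝ, (∀ l, σ l = 1 ∨ σ l = -1) ∧ ∀ x ∈ t, x ∈ sd_K σ

theorem sd_D_on (N i : ℕ) (hi : i ≤ k) : sd_D k N i ∈ On (sd_R k N i) := by
  induction N with
  | zero =>
    refine on_mono ?_ (sd_c_on i hi)
    rintro t ⟨h1, σ, h2, h3⟩
    refine ⟨⟨h1, ?_⟩, σ, h2, fun x hx => (h3 x hx).1⟩
    have h4 : ∀ x ∈ t, ∀ j, |x j| ≤ 1 := by
      intro x hx j
      rw [← sd_K_abs h2 (h3 x hx).1]
      exact Finset.single_le_sum (f := fun l => |x l|) (fun l _ => abs_nonneg _)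
        (Finset.mem_univ j)
    intro x hx y hy j
    rw [pow_zero, one_mul]
    have h5 := h4 x hx j
    have h6 := h4 y hy j
    rw [abs_le] at h5 h6 ⊢
    constructor <;> linarith
  | succ N ih =>
    have h0 : (0 : ℝ) ≤ ((k : ℝ) / (k + 1)) ^ N * 2 := by positivity
    refine on_map (sd_op (i + 1)) _ ?_ ih
    rintro t ⟨⟨h1, h2⟩, σ, h3, h4⟩
    have h5 := sd_mesh k _ h0 (i + 1) (by omega) t h1 h2
    have h6 := sd_hull (sd_K_convex σ) (i + 1) t h1 h4
    rw [mem_on] at h5 h6 ⊢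
    intro s hs
    refine ⟨⟨(h5 s hs).1, ?_⟩, σ, h3, h6 s hs⟩
    intro x hx y hy j
    have h7 := (h5 s hs).2 x hx y hy j
    have h8 : ((k : ℝ) / (k + 1)) ^ (N + 1) * 2 =
        (k : ℝ) / (k + 1) * (((k : ℝ) / (k + 1)) ^ N * 2) := by
      rw [pow_succ]; ring
    rw [h8]
    exact h7

theorem sd_D_zero (N : ℕ) : sd_D k N 0 = Finsupp.single [sd_e k 0] 1 := by
  induction N with
  | zero => rfl
  | succ N ih =>
    rw [sd_D, ih, sd_op_succ, sd_mean_single, bdL_cons, bdL_nil, map_zero, add_zero, sd_op_zero,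
      LinearMap.id_apply, cone_single]

theorem sd_D_bd (N i : ℕ) (hi : i < k) :
    bd (sd_D k N (i + 1)) = sd_D k N i + mapC (fun x => -x) (sd_D k N i) := by
  induction N with
  | zero => exact sd_c_bd i
  | succ N ih =>
    have h1 : sd_D k N (i + 1) ∈ On (fun t : List (Fin (k + 1) → ℝ) => t.length = i + 1 + 1) :=
      on_mono (fun t ht => ht.1.1) (sd_D_on N (i + 1) (by omega))
    rw [sd_D, sd_bd _ _ h1, ih, map_add, ← sd_neg]
    rfl

end

/-- SD -/
theorem fine_chain (k : ℕ) (δ : ℝ) (hδ : 0 < δ) :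
    ∃ (c : ℕ → Ch (Fin (k + 1) → ℝ)) (v0 : Fin (k + 1) → ℝ),
      c 0 = Finsupp.single [v0] 1 ∧
      (∀ i ≤ k, c i ∈ On (fun t => t.length = i + 1 ∧ ∀ x ∈ t, ∀ y ∈ t,
        (∑ j, |x j| = 1) ∧ (∑ j, |y j| = 1) ∧ ∀ j, |x j - y j| < δ)) ∧
      (∀ i < k, bd (c (i + 1)) = c i + mapC (fun x => -x) (c i)) := by
  have h0 : (0 : ℝ) ≤ (k : ℝ) / (k + 1) := by positivity
  have h1 : (k : ℝ) / (k + 1) < 1 := by
    rw [div_lt_one (by positivity)]
    linarith
  obtain ⟨N, hN⟩ := exists_pow_lt_of_lt_one (half_pos hδ) h1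
  refine ⟨sd_D k N, sd_e k 0, sd_D_zero N, fun i hi => ?_, fun i hi => sd_D_bd N i hi⟩
  refine on_mono ?_ (sd_D_on N i hi)
  rintro t ⟨⟨h2, h3⟩, σ, h4, h5⟩
  refine ⟨h2, fun x hx y hy => ⟨sd_K_abs h4 (h5 x hx), sd_K_abs h4 (h5 y hy), fun j => ?_⟩⟩
  refine (h3 x hx y hy j).trans_lt ?_
  linarith

end Pool.Agent.LVE
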