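import Pool.Agent.LVE.Defs
import Pool.Agent.VNP.KyFan
import Pool.Agent.LVE.SD

/-!
# The Borsuk-Ulam theorem on the l1 sphere
-/

set_option autoImplicit false

open scoped BigOperators Classical

namespace Pool.Agent.LVE

open Pool.Agent.GRD Pool.Agent.VNP

private theorem bu_compact (k : ℕ) : IsCompact {x : Fin (k + 1) → ℝ | ∑ j, |x j| = 1} := by
  apply Metric.isCompact_of_isClosed_isBounded
  · apply isClosed_eq
    · exact continuous_finsetSum _ fun j _ => (continuous_apply j).abs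
    · exact continuous_const
  · rw [isBounded_iff_forall_norm_le]
    refine ⟨1, ?_⟩
    intro x hx
    have hx' : ∑ j, |x j| = 1 := hx
    rw [pi_norm_le_iff_of_nonneg zero_le_one]
    intro j
    rw [Real.norm_eq_abs, ← hx']
    exact Finset.single_le_sum (f := fun j => |x j|) (fun i _ => abs_nonneg (x i)) (Finset.mem_univ j)

/-- an index of a largest entry -/
private noncomputable def bu_idx {k : ℕ} [NeZero k] (u : Fin k → ℝ) : Fin k :=
  if h : ∃ i, ∀ j, u j ≤ u i then h.choose else 0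

private theorem bu_idx_spec {k : ℕ} [NeZero k] (u : Fin k → ℝ) (j : Fin k) : u j ≤ u (bu_idx u) := by
  have h : ∃ i, ∀ j, u j ≤ u i := Finite.exists_max u
  unfold bu_idx
  rw [dif_pos h]
  exact h.choose_spec j

private noncomputable def bu_lab {k : ℕ} [NeZero k] (v : Fin k → ℝ) : ℤ :=
  if 0 < v (bu_idx (fun i => |v i|)) then ((bu_idx (fun i => |v i|)).val : ℤ) + 1
  else -(((bu_idx (fun i => |v i|)).val : ℤ) + 1)

private theorem bu_norm {k : ℕ} [NeZero k] (v : Fin k → ℝ) :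
    ‖v‖ ≤ |v (bu_idx (fun i => |v i|))| := by
  rw [pi_norm_le_iff_of_nonneg (abs_nonneg _)]
  intro j
  rw [Real.norm_eq_abs]
  exact bu_idx_spec (fun i => |v i|) j

private theorem bu_lab_abs {k : ℕ} [NeZero k] (v : Fin k → ℝ) :
    |bu_lab v| = ((bu_idx (fun i => |v i|)).val : ℤ) + 1 := by
  unfold bu_lab
  have h : (0 : ℤ) ≤ ((bu_idx (fun i => |v i|)).val : ℤ) := Int.natCast_nonneg _
  split_ifs
  · exact abs_of_nonneg (by omega)
  · rw [abs_neg]
    exact abs_of_nonneg (by omega)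

private theorem bu_lab_neg {k : ℕ} [NeZero k] (v : Fin k → ℝ) (hv : v ≠ 0) :
    bu_lab (-v) = - bu_lab v := by
  have h1 : (fun i => |(-v) i|) = fun i => |v i| := by
    ext i
    rw [Pi.neg_apply, abs_neg]
  have h2 : v (bu_idx (fun i => |v i|)) ≠ 0 := by
    intro h
    have := bu_norm v
    rw [h, abs_zero] at this
    exact hv (norm_le_zero_iff.mp this)
  unfold bu_lab
  rw [h1, Pi.neg_apply]
  rcases lt_or_gt_of_ne h2 with h | h
  · rw [if_pos (by linarith), if_neg (by linarith), neg_neg]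
  · rw [if_neg (by linarith), if_pos h]

private theorem bu_opp {k : ℕ} [NeZero k] (v w : Fin k → ℝ) (c : ℝ) (hc : 0 < c) (hv : c ≤ ‖v‖)
    (hw : c ≤ ‖w‖) (h : bu_lab w = - bu_lab v) : c ≤ dist v w := by
  have h1 : bu_idx (fun i => |w i|) = bu_idx (fun i => |v i|) := by
    have h2 := bu_lab_abs v
    have h3 := bu_lab_abs w
    rw [h, abs_neg, h2] at h3
    ext
    omega
  have hv' := hv.trans (bu_norm v)
  have hw' := hw.trans (bu_norm w)
  have hn := bu_lab_abs v
  have hp : (0 : ℤ) ≤ ((bu_idx (fun i => |v i|)).val : ℤ) := Int.natCast_nonneg _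
  unfold bu_lab at h
  rw [h1] at h hw'
  set i := bu_idx (fun i => |v i|) with hi
  have h5 : |v i - w i| ≤ dist v w := by
    rw [← Real.dist_eq]
    exact dist_le_pi_dist v w i
  refine le_trans ?_ h5
  split_ifs at h with ha hb hb
  · omega
  · rw [abs_of_pos ha] at hw'
    rw [le_abs]
    right
    linarith
  · rw [abs_of_pos hb] at hv'
    rw [le_abs]
    left
    linarith
  · omega

theorem borsuk (k : ℕ) (g : (Fin (k + 1) → ℝ) → (Fin k → ℝ))
    (hg : ContinuousOn g {x | ∑ j, |x j| = 1})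
    (hodd : ∀ x, (∑ j, |x j| = 1) → g (-x) = -g x) :
    ∃ x, (∑ j, |x j| = 1) ∧ g x = 0 := by
  have hx0 : ∑ j, |(Pi.single 0 1 : Fin (k + 1) → ℝ) j| = 1 := by
    rw [Finset.sum_eq_single 0]
    · simp
    · intro j _ hj
      simp [hj]
    · intro h
      exact absurd (Finset.mem_univ _) h
  rcases Nat.eq_zero_or_pos k with hk | hk
  · subst hk
    exact ⟨Pi.single 0 1, hx0, Subsingleton.elim _ _⟩
  have : NeZero k := ⟨hk.ne'⟩
  by_contra hcon
  push Not at hcon
  have hK := bu_compact k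
  obtain ⟨z, hz, hmin⟩ := hK.exists_isMinOn ⟨_, hx0⟩ hg.norm
  set c := ‖g z‖ with hc
  have hc0 : 0 < c := norm_pos_iff.mpr (hcon z hz)
  have hcle : ∀ x, (∑ j, |x j| = 1) → c ≤ ‖g x‖ := fun x hx => hmin hx
  have huc := hK.uniformContinuousOn_of_continuous hg
  rw [Metric.uniformContinuousOn_iff] at huc
  obtain ⟨δ, hδ, hu⟩ := huc c hc0
  obtain ⟨ch, v0, h0, h1, h2⟩ := fine_chain k δ hδ
  refine kyFan (lab := fun x => bu_lab (g x)) (fun x => -x)
    (fun x y => (∑ j, |x j| = 1) ∧ (∑ j, |y j| = 1) ∧ ∀ j, |x j - y j| < δ) k ch v0 h0 h1 h2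
    ?_ ?_ ?_
  · rintro x ⟨hx, _, _⟩
    show bu_lab (g (-x)) = - bu_lab (g x)
    rw [hodd x hx]
    exact bu_lab_neg _ (hcon x hx)
  · rintro x ⟨hx, _, _⟩
    show 1 ≤ |bu_lab (g x)| ∧ |bu_lab (g x)| ≤ (k : ℤ)
    rw [bu_lab_abs]
    have := (bu_idx (fun i => |g x i|)).isLt
    constructor
    · have : (0 : ℤ) ≤ ((bu_idx (fun i => |g x i|)).val : ℤ) := Int.natCast_nonneg _
      omega
    · omega
  · rintro x y ⟨hx, hy, hxy⟩
    show bu_lab (g y) ≠ - bu_lab (g x)
    intro h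
    have h3 := bu_opp (g x) (g y) c hc0 (hcle x hx) (hcle y hy) h
    have h4 : dist x y < δ := by
      rw [dist_pi_lt_iff hδ]
      intro j
      rw [Real.dist_eq]
      exact hxy j
    have h5 := hu x hx y hy h4
    linarith

end Pool.Agent.LVE
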