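import Pool.Agent.LVE.Defs

/-!
Row CC: number of queried coordinates.
-/

set_option autoImplicit false

open scoped BigOperators Classical

namespace Pool.Agent.LVE

open Pool.Agent.GRD

variable {m : ℕ}

private theorem cc_ord_inj (s : Fin m → Bool) {l l' : Fin m} (h : ord s l = ord s l') : l = l' := by
  unfold ord at h
  have h1 := l.2
  have h2 := l'.2
  apply Fin.ext
  split_ifs at h <;> omega

private theorem cc_unique {s : Fin m → Bool} {v z : Fin m → ℝ} {g : Fin m → Fin m → ℝ}
    {x l l' : Fin m} (h : IsP s v z g x l) (h' : IsP s v z g x l') : l = l' := by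
  have e1 : g l x ≠ 0 := by
    intro e
    have := h.2.1
    rw [e, mul_zero] at this
    exact lt_irrefl _ this
  have e2 : g l' x ≠ 0 := by
    intro e
    have := h'.2.1
    rw [e, mul_zero] at this
    exact lt_irrefl _ this
  exact cc_ord_inj s (le_antisymm (h.2.2.2 l' h'.1 e2) (h'.2.2.2 l h.1 e1))

/-- each pivot has its own element -/
private theorem cc_qs_le (s : Fin m → Bool) (v z : Fin m → ℝ) (g : Fin m → Fin m → ℝ) :
    (Qs s v z g).card ≤ (Ys s v z g).card := by
  have hx : ∀ q ∈ Qs s v z g, ∃ x, s q = true ∧ PX s v z g x q := by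
    intro q hq
    unfold Qs at hq
    rw [Finset.mem_filter] at hq
    obtain ⟨_, hs, x, hx⟩ := hq
    exact ⟨x, hs, hx⟩
  refine Finset.card_le_card_of_injOn (fun q => if h : q ∈ Qs s v z g then (hx q h).choose else q)
    ?_ ?_
  · intro q hq
    have hq' : q ∈ Qs s v z g := hq
    have hspec := (hx q hq').choose_spec
    simp only [dif_pos hq']
    unfold Ys
    rw [Finset.mem_coe, Finset.mem_filter]
    exact ⟨Finset.mem_univ _, q, hspec.1, hspec.2⟩
  · intro q hq q' hq' he
    have h1 : q ∈ Qs s v z g := hq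
    have h2 : q' ∈ Qs s v z g := hq'
    simp only [dif_pos h1, dif_pos h2] at he
    have s1 := (hx q h1).choose_spec.2.2.2
    have s2 := (hx q' h2).choose_spec.2.2.2
    rw [← he] at s2
    exact cc_unique s1 s2

/-- the zero coordinates are few -/
private theorem cc_rank {L : Submodule ℝ (Fin m → ℝ)} {z : Fin m → ℝ}
    (h : ∀ y ∈ L, (∀ l, z l ≠ 0 → y l = 0) → y = 0) :
    Module.finrank ℝ L ≤ (Finset.univ.filter fun l : Fin m => z l ≠ 0).card := by
  let f : L →ₗ[ℝ] ({l : Fin m // z l ≠ 0} → ℝ) :=
    { toFun := fun y l => (y : Fin m → ℝ) l.1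
      map_add' := fun _ _ => rfl
      map_smul' := fun _ _ => rfl }
  have hf : Function.Injective f := by
    rw [← LinearMap.ker_eq_bot, LinearMap.ker_eq_bot']
    intro y hy
    apply Subtype.ext
    apply h y y.2
    intro l hl
    exact congrFun hy ⟨l, hl⟩
  have h1 := LinearMap.finrank_le_finrank_of_injective hf
  rw [Module.finrank_fintype_fun_eq_card, Fintype.card_subtype] at h1
  exact h1

-- file CC.lean (row CC): number of queried coordinates
theorem card_As {L : Submodule ℝ (Fin m → ℝ)} {a : Fin m → ℝ} (ha : Gen L a)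
    {ω : Fin m → ZMod 3} {v z : Fin m → ℝ} {g : Fin m → Fin m → ℝ}
    (h : Sol L a (sb ω) v z g) (e : ℕ)
    (he : (Tt v).card ≤ Module.finrank ℝ L + e) :
    (As ω v z g).card + Module.finrank ℝ L ≤ m + e := by
  have h1 := cc_rank (ha z h.orth)
  have h2 := cc_qs_le (sb ω) v z g
  have h3 : (Ys (sb ω) v z g).card + (Finset.univ.filter fun l : Fin m => z l ≠ 0).card ≤
      (Tt v).card := by
    rw [← Finset.card_union_of_disjoint]
    · apply Finset.card_le_card
      intro x hx
      rw [Finset.mem_union] at hx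
      unfold Tt
      rw [Finset.mem_filter]
      refine ⟨Finset.mem_univ _, ?_⟩
      rcases hx with hx | hx
      · unfold Ys at hx
        rw [Finset.mem_filter] at hx
        obtain ⟨_, q, _, hq⟩ := hx
        exact hq.2.1
      · rw [Finset.mem_filter] at hx
        exact h.v1 x hx.2
    · rw [Finset.disjoint_left]
      intro x hx hx'
      unfold Ys at hx
      rw [Finset.mem_filter] at hx hx'
      obtain ⟨_, q, _, hq⟩ := hx
      exact hx'.2 hq.1
  have h4 : ((Tt v)ᶜ).card + (Tt v).card = m := by
    rw [Finset.card_compl_add_card, Fintype.card_fin]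
  have h5 : (As ω v z g).card ≤ ((Ys (sb ω) v z g).card + (Qs (sb ω) v z g).card)
      + ((Tt v)ᶜ).card := by
    unfold As
    exact (Finset.card_union_le _ _).trans (Nat.add_le_add_right (Finset.card_union_le _ _) _)
  omega

end Pool.Agent.LVE
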