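import Pool.Agent.LVE.Defs
import Pool.Agent.LVE.C1

set_option autoImplicit false

open scoped BigOperators Classical

namespace Pool.Agent.LVE

open Pool.Agent.GRD

variable {m : ℕ}

/-! row CM: common pivots -/

theorem cm_abs_sq {c : ℝ} (h : |c| = 1) : c * c = 1 := by
  have := abs_mul_abs_self c
  rw [h] at this
  linarith

theorem cm_half {L : Submodule ℝ (Fin m → ℝ)} {a : Fin m → ℝ}
    {ω ω' : Fin m → ZMod 3} {v z z' : Fin m → ℝ} {g g' : Fin m → Fin m → ℝ}
    (h : Sol L a (sb ω) v z g) (h' : Sol L a (sb ω') v z' g')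
    (hZ : Zs ω v z g = Zs ω' v z' g') (q : Fin m)
    (hq : q ∈ Qs (sb ω) v z g)
    (hind : ∀ p : Fin m, p < q → p ∈ Qs (sb ω) v z g →
      ∀ x, PX (sb ω) v z g x p → PX (sb ω') v z' g' x p) :
    0 ≤ v q * (z' q - z q) ∧
      (v q * (z' q - z q) = 0 → ∀ x, PX (sb ω) v z g x q → z' x = 0) := by
  obtain ⟨hsq, x0, hx0⟩ := (Finset.mem_filter.mp hq).2
  have hzq : z q ≠ 0 := hx0.2.2.1
  have hvq : |v q| = 1 := h.v1 q hzq
  have hvq2 := cm_abs_sq hvq
  have hgq : g q q = v q := by
    have h1 := h.gl q hzq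
    calc g q q = (v q * v q) * g q q := by rw [hvq2, one_mul]
      _ = v q * (v q * g q q) := by ring
      _ = v q := by rw [h1, mul_one]
  -- the sum
  have hsum : ∑ l, (z' l - z l) * g q l = 0 := by
    have e1 := h.orth (g q) (h.gL q hzq)
    have e2 := h'.orth (g q) (h.gL q hzq)
    have : ∑ l, (z' l - z l) * g q l
        = ∑ l, (z' l + a l) * g q l - ∑ l, (z l + a l) * g q l := by
      rw [← Finset.sum_sub_distrib]
      refine Finset.sum_congr rfl fun l _ => ?_
      ring
    rw [this, e1, e2, sub_zero]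
  -- each other term is nonpositive
  have hterm : ∀ l, l ≠ q → (z' l - z l) * g q l ≤ 0 ∧
      (PX (sb ω) v z g l q → (z' l - z l) * g q l = 0 → z' l = 0) := by
    intro l hlq
    by_cases hzl : z l = 0
    · by_cases hvl : |v l| = 1
      · by_cases hgl : g q l = 0
        · refine ⟨by rw [hgl, mul_zero], fun hP _ => ?_⟩
          exfalso
          have := hP.2.2.2.1
          rw [hgl, mul_zero] at this
          exact lt_irrefl _ this
        · obtain ⟨p, hsp, hpq, hP⟩ := supp_pivot h hzl hvl hzq hsq hgl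
          have hpQ : p ∈ Qs (sb ω) v z g :=
            Finset.mem_filter.mpr ⟨Finset.mem_univ _, hsp, l, hP⟩
          rcases lt_or_eq_of_le hpq with hlt | heq
          · have hP' := hind p hlt hpQ l hP
            have hz'l : z' l = 0 := hP'.1
            refine ⟨by rw [hz'l, hzl]; simp, fun _ _ => hz'l⟩
          · have hpe : p = q := Fin.ext heq
            subst hpe
            have hpos : 0 < v l * g p l := hP.2.2.2.1
            have hmem : l ∈ Zs ω v z g :=
              Finset.mem_filter.mpr ⟨Finset.mem_univ _, hvl, Or.inr (Or.inr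
                (Finset.mem_filter.mpr ⟨Finset.mem_univ _, p, hsp, hP⟩))⟩
            rw [hZ] at hmem
            have hle := zs_le h' hmem
            have hvl2 := cm_abs_sq hvl
            have hid : (z' l - z l) * g p l = (v l * z' l) * (v l * g p l) := by
              rw [hzl, sub_zero]
              calc z' l * g p l = (v l * v l) * (z' l * g p l) := by rw [hvl2, one_mul]
                _ = (v l * z' l) * (v l * g p l) := by ring
            refine ⟨?_, fun _ h0 => ?_⟩
            · rw [hid]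
              exact mul_nonpos_of_nonpos_of_nonneg hle hpos.le
            · rw [hid] at h0
              rcases mul_eq_zero.mp h0 with h1 | h1
              · rcases mul_eq_zero.mp h1 with h2 | h2
                · rw [h2] at hvl
                  simp at hvl
                · exact h2
              · exact absurd h1 hpos.ne'
      · have hz'l : z' l = 0 := by
          by_contra hne
          exact hvl (h'.v1 l hne)
        refine ⟨by rw [hz'l, hzl]; simp, fun _ _ => hz'l⟩
    · have : g q l = 0 := h.gz q l hzq hzl hlq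
      refine ⟨by rw [this, mul_zero], fun hP _ => absurd hP.1 hzl⟩
  have hsplit : (z' q - z q) * g q q + ∑ l ∈ Finset.univ.erase q, (z' l - z l) * g q l = 0 := by
    have hadd := Finset.add_sum_erase Finset.univ (fun l => (z' l - z l) * g q l)
      (Finset.mem_univ q)
    exact hadd.trans hsum
  have hrest : ∑ l ∈ Finset.univ.erase q, (z' l - z l) * g q l ≤ 0 :=
    Finset.sum_nonpos fun l hl => (hterm l (Finset.ne_of_mem_erase hl)).1
  have hfirst : v q * (z' q - z q) = (z' q - z q) * g q q := by rw [hgq]; ring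
  refine ⟨by rw [hfirst]; linarith, fun h0 x hx => ?_⟩
  rw [hfirst] at h0
  rw [h0, zero_add] at hsplit
  have hxq : x ≠ q := by
    rintro rfl
    exact hzq hx.1
  have hall := (Finset.sum_eq_zero_iff_of_nonpos
    (fun l hl => (hterm l (Finset.ne_of_mem_erase hl)).1)).mp hsplit
  exact (hterm x hxq).2 hx (hall x (Finset.mem_erase.mpr ⟨hxq, Finset.mem_univ _⟩))

/-- one side of the step: the vectors agree -/
theorem cm_vec {L : Submodule ℝ (Fin m → ℝ)} {a : Fin m → ℝ} (ha : Gen L a)
    {ω ω' : Fin m → ZMod 3} {v z z' : Fin m → ℝ} {g g' : Fin m → Fin m → ℝ}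
    (h : Sol L a (sb ω) v z g) (h' : Sol L a (sb ω') v z' g') (q : Fin m)
    (hq : q ∈ Qs (sb ω) v z g) (hq' : q ∈ Qs (sb ω') v z' g')
    (hind : ∀ p : Fin m, p < q → p ∈ Qs (sb ω) v z g →
      ∀ x, PX (sb ω) v z g x p → PX (sb ω') v z' g' x p)
    (hx : ∀ x, PX (sb ω) v z g x q → z' x = 0) : g q = g' q := by
  obtain ⟨hsq, x0, hx0⟩ := (Finset.mem_filter.mp hq).2
  obtain ⟨hsq', x0', hx0'⟩ := (Finset.mem_filter.mp hq').2
  have hzq : z q ≠ 0 := hx0.2.2.1
  have hzq' : z' q ≠ 0 := hx0'.2.2.1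
  have hvq : |v q| = 1 := h.v1 q hzq
  have hvne : v q ≠ 0 := by
    intro h0
    rw [h0] at hvq
    simp at hvq
  have hsub : g q - g' q = 0 := by
    refine ha z' h'.orth _ (L.sub_mem (h.gL q hzq) (h'.gL q hzq')) ?_
    intro l hl
    rw [Pi.sub_apply]
    by_cases hlq : l = q
    · subst hlq
      have e1 := h.gl l hzq
      have e2 := h'.gl l hzq'
      have : v l * (g l l - g' l l) = 0 := by rw [mul_sub, e1, e2, sub_self]
      rcases mul_eq_zero.mp this with h1 | h1
      · exact absurd h1 hvne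
      · exact h1
    · have e2 : g' q l = 0 := h'.gz q l hzq' hl hlq
      rw [e2, sub_zero]
      by_cases hzl : z l = 0
      · by_contra hgl
        obtain ⟨p, hsp, hpq, hP⟩ := supp_pivot h hzl (h'.v1 l hl) hzq hsq hgl
        have hpQ : p ∈ Qs (sb ω) v z g :=
          Finset.mem_filter.mpr ⟨Finset.mem_univ _, hsp, l, hP⟩
        rcases lt_or_eq_of_le hpq with hlt | heq
        · exact hl (hind p hlt hpQ l hP).1
        · have hpe : p = q := Fin.ext heq
          subst hpe
          exact hl (hx l hP)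
      · exact h.gz q l hzq hzl hlq
  exact sub_eq_zero.mp hsub

/-- one side of the step: transport of the pivots -/
theorem cm_px {L : Submodule ℝ (Fin m → ℝ)} {a : Fin m → ℝ}
    {ω ω' : Fin m → ZMod 3} {v z z' : Fin m → ℝ} {g g' : Fin m → Fin m → ℝ}
    (h' : Sol L a (sb ω') v z' g') (q : Fin m)
    (hq' : q ∈ Qs (sb ω') v z' g')
    (hind : ∀ p : Fin m, p < q → p ∈ Qs (sb ω') v z' g' →
      ∀ x, PX (sb ω') v z' g' x p → PX (sb ω) v z g x p)
    (hx : ∀ x, PX (sb ω) v z g x q → z' x = 0) (hg : g q = g' q) (x : Fin m)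
    (hP : PX (sb ω) v z g x q) : PX (sb ω') v z' g' x q := by
  obtain ⟨hsq', x0', hx0'⟩ := (Finset.mem_filter.mp hq').2
  have hzq' : z' q ≠ 0 := hx0'.2.2.1
  have hne : g' q x ≠ 0 := by
    rw [← hg]
    intro h0
    have := hP.2.2.2.1
    rw [h0, mul_zero] at this
    exact lt_irrefl _ this
  obtain ⟨p, hsp, hpq, hP'⟩ := supp_pivot h' (hx x hP) hP.2.1 hzq' hsq' hne
  rcases lt_or_eq_of_le hpq with hlt | heq
  · have hpQ : p ∈ Qs (sb ω') v z' g' :=
      Finset.mem_filter.mpr ⟨Finset.mem_univ _, hsp, x, hP'⟩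
    have h1 := hind p hlt hpQ x hP'
    have := isP_unique h1.2.2 hP.2.2
    rw [this] at hlt
    exact absurd hlt (lt_irrefl _)
  · have hpe : p = q := Fin.ext heq
    subst hpe
    exact hP'

theorem common {L : Submodule ℝ (Fin m → ℝ)} {a : Fin m → ℝ} (ha : Gen L a)
    {ω ω' : Fin m → ZMod 3} {v z z' : Fin m → ℝ} {g g' : Fin m → Fin m → ℝ}
    (h : Sol L a (sb ω) v z g) (h' : Sol L a (sb ω') v z' g')
    (hZ : Zs ω v z g = Zs ω' v z' g') (N : ℕ)
    (hQ : ∀ q : Fin m, (q : ℕ) < N → (q ∈ Qs (sb ω) v z g ↔ q ∈ Qs (sb ω') v z' g')) :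
    ∀ q : Fin m, (q : ℕ) < N → q ∈ Qs (sb ω) v z g →
      z q = z' q ∧ g q = g' q ∧ ∀ x, PX (sb ω) v z g x q ↔ PX (sb ω') v z' g' x q := by
  intro q
  induction q using WellFoundedLT.induction with
  | ind q ih =>
    intro hqN hq
    have hq' := (hQ q hqN).mp hq
    have ind1 : ∀ p : Fin m, p < q → p ∈ Qs (sb ω) v z g →
        ∀ x, PX (sb ω) v z g x p → PX (sb ω') v z' g' x p := by
      intro p hp hpQ x hPx
      exact ((ih p hp (lt_trans hp hqN) hpQ).2.2 x).mp hPx
    have ind2 : ∀ p : Fin m, p < q → p ∈ Qs (sb ω') v z' g' →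
        ∀ x, PX (sb ω') v z' g' x p → PX (sb ω) v z g x p := by
      intro p hp hpQ x hPx
      exact ((ih p hp (lt_trans hp hqN) ((hQ p (lt_trans hp hqN)).mpr hpQ)).2.2 x).mpr hPx
    obtain ⟨a1, b1⟩ := cm_half h h' hZ q hq ind1
    obtain ⟨a2, b2⟩ := cm_half h' h hZ.symm q hq' ind2
    have e0 : v q * (z' q - z q) = 0 := by
      have : v q * (z q - z' q) = -(v q * (z' q - z q)) := by ring
      rw [this] at a2
      linarith
    have e0' : v q * (z q - z' q) = 0 := by
      have : v q * (z q - z' q) = -(v q * (z' q - z q)) := by ring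
      rw [this, e0, neg_zero]
    have c1 := b1 e0
    have c2 := b2 e0'
    have hg : g q = g' q := cm_vec ha h h' q hq hq' ind1 c1
    have hvq : |v q| = 1 := by
      obtain ⟨_, x0, hx0⟩ := (Finset.mem_filter.mp hq).2
      exact h.v1 q hx0.2.2.1
    have hzz : z q = z' q := by
      rcases mul_eq_zero.mp e0 with h1 | h1
      · rw [h1] at hvq
        simp at hvq
      · linarith
    refine ⟨hzz, hg, fun x => ⟨fun hP => ?_, fun hP => ?_⟩⟩
    · exact cm_px h' q hq' ind2 c1 hg x hP
    · exact cm_px h q hq ind1 c2 hg.symm x hP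

end Pool.Agent.LVE
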