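import Pool.Agent.LVE.Defs
import Pool.Agent.LVE.C1
import Pool.Agent.LVE.CM

set_option autoImplicit false

open scoped BigOperators Classical

namespace Pool.Agent.LVE

open Pool.Agent.GRD

variable {m : ℕ}

/-- row CD: the first different pivot -/
theorem first_diff {L : Submodule ℝ (Fin m → ℝ)} {a : Fin m → ℝ} (ha : Gen L a)
    {ω ω' : Fin m → ZMod 3} {v z z' : Fin m → ℝ} {g g' : Fin m → Fin m → ℝ}
    (h : Sol L a (sb ω) v z g) (h' : Sol L a (sb ω') v z' g')
    (hZ : Zs ω v z g = Zs ω' v z' g') (q : Fin m)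
    (hQ : ∀ p : Fin m, p < q → (p ∈ Qs (sb ω) v z g ↔ p ∈ Qs (sb ω') v z' g'))
    (h1 : q ∈ Qs (sb ω) v z g) (h2 : q ∉ Qs (sb ω') v z' g') :
    q ∈ Ys (sb ω') v z' g' ∧ sb ω' q = false := by
  have hcom := common ha h h' hZ (q : ℕ) (fun p hp => hQ p hp)
  have hQs' : ∀ {x p : Fin m}, sb ω' p = true → PX (sb ω') v z' g' x p →
      p ∈ Qs (sb ω') v z' g' := by
    intro x p hp hx
    unfold Qs
    rw [Finset.mem_filter]
    exact ⟨Finset.mem_univ _, hp, x, hx⟩
  -- transfer of a pivot below `q`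
  have htr : ∀ {x p : Fin m}, sb ω' p = true → (p : ℕ) < q → PX (sb ω') v z' g' x p →
      PX (sb ω) v z g x p := by
    intro x p hp hpq hx
    have hp' : p ∈ Qs (sb ω) v z g := (hQ p hpq).2 (hQs' hp hx)
    exact ((hcom p hpq hp').2.2 x).2 hx
  obtain ⟨hsq, x0, hx0, hvx0, hP0⟩ : sb ω q = true ∧ ∃ x, z x = 0 ∧ |v x| = 1 ∧
      IsP (sb ω) v z g x q := by
    unfold Qs at h1
    rw [Finset.mem_filter] at h1
    obtain ⟨_, h3, x, h4⟩ := h1
    exact ⟨h3, x, h4.1, h4.2.1, h4.2.2⟩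
  have hzq : z q ≠ 0 := hP0.1
  have hvq : |v q| = 1 := h.v1 q hzq
  have hvq0 : v q ≠ 0 := by
    intro h3
    rw [h3, abs_zero] at hvq
    exact zero_ne_one hvq
  have hqY : q ∈ Ys (sb ω') v z' g' := by
    by_contra hY
    have hqZ : q ∈ Zs ω' v z' g' := by
      rw [← hZ]
      unfold Zs
      rw [Finset.mem_filter]
      exact ⟨Finset.mem_univ _, hvq, Or.inr (Or.inl h1)⟩
    have hω : ω' q = 0 := by
      unfold Zs at hqZ
      rw [Finset.mem_filter] at hqZ
      rcases hqZ.2.2 with h3 | h3 | h3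
      · exact h3
      · exact absurd h3 h2
      · exact absurd h3 hY
    have hs' : sb ω' q = true := by
      unfold sb
      rw [hω]
      decide
    have hz'q : z' q ≠ 0 := by
      intro h3
      obtain ⟨p, hp1, hp2, hp3⟩ := neg_zero_mem h' h3 hvq hs'
      apply hY
      unfold Ys
      rw [Finset.mem_filter]
      exact ⟨Finset.mem_univ _, p, hp1, hp3⟩
    have hsup : ∀ x : Fin m, z' x = 0 → |v x| = 1 → g' q x ≠ 0 →
        ∃ p, sb ω' p = true ∧ (p : ℕ) < q ∧ PX (sb ω') v z' g' x p := by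
      intro x hx hvx hg
      obtain ⟨p, hp1, hp2, hp3⟩ := supp_pivot h' hx hvx hz'q hs' hg
      refine ⟨p, hp1, lt_of_le_of_ne hp2 (fun h3 => ?_), hp3⟩
      have h4 : p = q := Fin.ext h3
      rw [h4] at hp1 hp3
      exact h2 (hQs' hp1 hp3)
    have hgg : g' q - g q = 0 := by
      refine ha z h.orth _ (L.sub_mem (h'.gL q hz'q) (h.gL q hzq)) (fun l hl => ?_)
      show g' q l - g q l = 0
      by_cases hlq : l = q
      · rw [hlq]
        have e1 := h.gl q hzq
        have e2 := h'.gl q hz'q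
        have e3 : v q * (g' q q - g q q) = 0 := by rw [mul_sub, e1, e2, sub_self]
        rcases mul_eq_zero.1 e3 with e4 | e4
        · exact absurd e4 hvq0
        · exact e4
      · rw [h.gz q l hzq hl hlq, sub_zero]
        by_cases hz'l : z' l = 0
        · by_contra hg
          obtain ⟨p, hp1, hp2, hp3⟩ := hsup l hz'l (h.v1 l hl) hg
          exact hl (htr hp1 hp2 hp3).1
        · exact h'.gz q l hz'q hz'l hlq
    have hg0 : g q x0 ≠ 0 := by
      intro h3
      have h4 := hP0.2.1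
      rw [h3, mul_zero] at h4
      exact lt_irrefl _ h4
    have hg' : g' q x0 ≠ 0 := by
      have h3 : g' q x0 - g q x0 = 0 := congrFun hgg x0
      rw [sub_eq_zero.1 h3]
      exact hg0
    have hx0q : x0 ≠ q := by
      rintro rfl
      exact hzq hx0
    have hz'x : z' x0 = 0 := by
      by_contra h3
      exact hg' (h'.gz q x0 hz'q h3 hx0q)
    obtain ⟨p, hp1, hp2, hp3⟩ := hsup x0 hz'x hvx0 hg'
    have h3 := htr hp1 hp2 hp3
    have h4 := isP_unique h3.2.2 hP0
    rw [h4] at hp2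
    exact lt_irrefl _ hp2
  refine ⟨hqY, ?_⟩
  by_contra hs
  have hs' : sb ω' q = true := by
    rcases Bool.eq_false_or_eq_true (sb ω' q) with h3 | h3
    · exact h3
    · exact absurd h3 hs
  unfold Ys at hqY
  rw [Finset.mem_filter] at hqY
  obtain ⟨_, p, hp1, hp2⟩ := hqY
  have hpq : (p : ℕ) < q := by
    have h3 := hp2.2.2.2.2.1
    unfold ord at h3
    rw [if_pos hp1, if_pos hs'] at h3
    exact h3
  exact hzq (htr hp1 hpq hp2).1

end Pool.Agent.LVE
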