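import Pool.Agent.LVE.C1
import Pool.Agent.LVE.CM

/-!
Row CE of the board LVE: the queried coordinates determine the word.
-/

set_option autoImplicit false

open scoped BigOperators Classical

namespace Pool.Agent.LVE

open Pool.Agent.GRD

variable {m : ℕ}

private theorem ce_ys_sub {L : Submodule ℝ (Fin m → ℝ)} {a : Fin m → ℝ} (ha : Gen L a)
    {ω ω' : Fin m → ZMod 3} {v z z' : Fin m → ℝ} {g g' : Fin m → Fin m → ℝ}
    (h : Sol L a (sb ω) v z g) (h' : Sol L a (sb ω') v z' g')
    (hZ : Zs ω v z g = Zs ω' v z' g')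
    (hQ : Qs (sb ω) v z g = Qs (sb ω') v z' g') :
    Ys (sb ω) v z g = Ys (sb ω') v z' g' := by
  have hc := common ha h h' hZ m (fun q _ => by rw [hQ])
  have hs : ∀ q, q ∈ Qs (sb ω) v z g → sb ω' q = true := fun q hq => by
    rw [hQ] at hq
    exact (Finset.mem_filter.mp hq).2.1
  ext x
  constructor
  · intro hx
    obtain ⟨q, hq, hP⟩ := (Finset.mem_filter.mp hx).2
    have hqQ : q ∈ Qs (sb ω) v z g :=
      Finset.mem_filter.mpr ⟨Finset.mem_univ _, hq, x, hP⟩
    exact Finset.mem_filter.mpr ⟨Finset.mem_univ _, q, hs q hqQ,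
      ((hc q q.2 hqQ).2.2 x).mp hP⟩
  · intro hx
    obtain ⟨q, hq, hP⟩ := (Finset.mem_filter.mp hx).2
    have hqQ : q ∈ Qs (sb ω) v z g := by
      rw [hQ]
      exact Finset.mem_filter.mpr ⟨Finset.mem_univ _, hq, x, hP⟩
    exact Finset.mem_filter.mpr ⟨Finset.mem_univ _, q, (Finset.mem_filter.mp hqQ).2.1,
      ((hc q q.2 hqQ).2.2 x).mpr hP⟩

/-- one side: a negative coordinate outside `Ys` is negative for the other solution -/
private theorem ce_side {L : Submodule ℝ (Fin m → ℝ)} {a : Fin m → ℝ}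
    {ω ω' : Fin m → ZMod 3} {v z z' : Fin m → ℝ} {g g' : Fin m → Fin m → ℝ}
    (h : Sol L a (sb ω) v z g) (h' : Sol L a (sb ω') v z' g')
    (hY : Ys (sb ω) v z g = Ys (sb ω') v z' g') (l : Fin m) (hl : |v l| = 1)
    (hlY : l ∉ Ys (sb ω) v z g) (hs : sb ω l = true) : sb ω' l = true := by
  have hzl : z l ≠ 0 := by
    intro h0
    obtain ⟨q, hq, -, hP⟩ := neg_zero_mem h h0 hl hs
    exact hlY (Finset.mem_filter.mpr ⟨Finset.mem_univ _, q, hq, hP⟩)
  have hgl := h.gL l hzl
  have h1 : ∑ x, (z x + a x) * g l x = 0 := h.orth (g l) hgl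
  have h2 : ∑ x, (z' x + a x) * g l x = 0 := h'.orth (g l) hgl
  have h3 : ∑ x, (z' x - z x) * g l x = 0 := by
    have : ∑ x, (z' x - z x) * g l x
        = ∑ x, (z' x + a x) * g l x - ∑ x, (z x + a x) * g l x := by
      rw [← Finset.sum_sub_distrib]
      exact Finset.sum_congr rfl fun x _ => by ring
    rw [this, h1, h2, sub_zero]
  have h4 : ∀ x, x ≠ l → (z' x - z x) * g l x = 0 := by
    intro x hx
    by_cases hgx : g l x = 0
    · rw [hgx, mul_zero]
    · have hzx : z x = 0 := by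
        by_contra hzx
        exact hgx (h.gz l x hzl hzx hx)
      have hz'x : z' x = 0 := by
        by_contra hz'x
        have hvx : |v x| = 1 := h'.v1 x hz'x
        obtain ⟨q, hq, -, hP⟩ := supp_pivot h hzx hvx hzl hs hgx
        have hxY : x ∈ Ys (sb ω') v z' g' := by
          rw [← hY]
          exact Finset.mem_filter.mpr ⟨Finset.mem_univ _, q, hq, hP⟩
        obtain ⟨q', -, hP'⟩ := (Finset.mem_filter.mp hxY).2
        exact hz'x hP'.1
      rw [hzx, hz'x, sub_zero, zero_mul]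
  have h5 : (z' l - z l) * g l l = 0 := by
    rw [← h3]
    exact (Finset.sum_eq_single l (fun x _ hx => h4 x hx)
      (fun hx => absurd (Finset.mem_univ l) hx)).symm
  have hgll : g l l ≠ 0 := by
    intro h0
    have := h.gl l hzl
    rw [h0, mul_zero] at this
    exact zero_ne_one this
  have hzz : z' l = z l := by
    rcases mul_eq_zero.mp h5 with h6 | h6
    · linarith
    · exact absurd h6 hgll
  have e1 := h.vz l
  have e2 := h'.vz l
  rw [hzz, e1] at e2
  have habs : |z l| ≠ 0 := abs_ne_zero.mpr hzl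
  have e3 : ev (sb ω) l = ev (sb ω') l := mul_right_cancel₀ habs e2
  unfold ev at e3
  rw [if_pos hs] at e3
  by_contra hn
  rw [if_neg hn] at e3
  norm_num at e3

private theorem ce_zmod : ∀ x y : ZMod 3, x ≠ 0 → y ≠ 0 →
    (decide (x ≠ 1) = true ↔ decide (y ≠ 1) = true) → x = y := by
  decide

theorem word_eq {L : Submodule ℝ (Fin m → ℝ)} {a : Fin m → ℝ} (ha : Gen L a)
    {ω ω' : Fin m → ZMod 3} {v z z' : Fin m → ℝ} {g g' : Fin m → Fin m → ℝ}
    (h : Sol L a (sb ω) v z g) (h' : Sol L a (sb ω') v z' g')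
    (hZ : Zs ω v z g = Zs ω' v z' g')
    (hQ : Qs (sb ω) v z g = Qs (sb ω') v z' g') :
    As ω v z g = As ω' v z' g' ∧ ((∀ l ∈ As ω v z g, ω l = ω' l) → ω = ω') := by
  have hY := ce_ys_sub ha h h' hZ hQ
  refine ⟨by unfold As; rw [hY, hQ], fun hA => ?_⟩
  funext l
  by_cases hl : l ∈ As ω v z g
  · exact hA l hl
  · have hlY : l ∉ Ys (sb ω) v z g := fun hx =>
      hl (Finset.mem_union_left _ (Finset.mem_union_left _ hx))
    have hlQ : l ∉ Qs (sb ω) v z g := fun hx =>
      hl (Finset.mem_union_left _ (Finset.mem_union_right _ hx))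
    have hlT : |v l| = 1 := by
      by_contra hn
      refine hl (Finset.mem_union_right _ (Finset.mem_compl.mpr fun hx => hn ?_))
      exact (Finset.mem_filter.mp hx).2
    have hlY' : l ∉ Ys (sb ω') v z' g' := hY ▸ hlY
    have hlQ' : l ∉ Qs (sb ω') v z' g' := hQ ▸ hlQ
    by_cases hlZ : l ∈ Zs ω v z g
    · have hlZ' : l ∈ Zs ω' v z' g' := hZ ▸ hlZ
      have e1 : ω l = 0 := by
        rcases (Finset.mem_filter.mp hlZ).2.2 with h1 | h1 | h1
        · exact h1
        · exact absurd h1 hlQ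
        · exact absurd h1 hlY
      have e2 : ω' l = 0 := by
        rcases (Finset.mem_filter.mp hlZ').2.2 with h1 | h1 | h1
        · exact h1
        · exact absurd h1 hlQ'
        · exact absurd h1 hlY'
      rw [e1, e2]
    · have hlZ' : l ∉ Zs ω' v z' g' := hZ ▸ hlZ
      have e1 : ω l ≠ 0 := fun h0 =>
        hlZ (Finset.mem_filter.mpr ⟨Finset.mem_univ _, hlT, Or.inl h0⟩)
      have e2 : ω' l ≠ 0 := fun h0 =>
        hlZ' (Finset.mem_filter.mpr ⟨Finset.mem_univ _, hlT, Or.inl h0⟩)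
      have hiff : sb ω l = true ↔ sb ω' l = true :=
        ⟨fun hs => ce_side h h' hY l hlT hlY hs, fun hs => ce_side h' h hY.symm l hlT hlY' hs⟩
      unfold sb at hiff
      refine ce_zmod (ω l) (ω' l) e1 e2 ?_
      simpa using hiff

end Pool.Agent.LVE
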