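import Pool.Agent.LVE.C1

/-!
# The word gives a face
-/

set_option autoImplicit false

open scoped BigOperators Classical

namespace Pool.Agent.LVE

open Pool.Agent.GRD

variable {m : ℕ}

private theorem cf_pos (U : Finset (Fin m)) (c : Fin m → ℝ) (q : Fin m) (hq : q ∈ U)
    (hc : 0 < c q) (hl : ∀ l ∈ U, c l ≠ 0 → (q : ℕ) ≤ l) :
    ∀ᶠ t : ℝ in nhdsWithin 0 (Set.Ioi 0), 0 < ∑ l ∈ U, t ^ ((l : ℕ) + 1) * c l := by
  have hcont : Continuous fun t : ℝ => ∑ l ∈ U, t ^ ((l : ℕ) - (q : ℕ)) * c l := by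
    fun_prop
  have h0 : ∑ l ∈ U, (0 : ℝ) ^ ((l : ℕ) - (q : ℕ)) * c l = c q := by
    rw [Finset.sum_eq_single_of_mem q hq]
    · simp
    · intro l hl' hne
      by_cases h : c l = 0
      · simp [h]
      · have h1 := hl l hl' h
        have h2 : (l : ℕ) ≠ q := fun h => hne (Fin.ext h)
        have h3 : (l : ℕ) - (q : ℕ) ≠ 0 := by omega
        rw [zero_pow h3, zero_mul]
  have hev : ∀ᶠ t : ℝ in nhds 0, 0 < ∑ l ∈ U, t ^ ((l : ℕ) - (q : ℕ)) * c l := by
    have h1 := hcont.tendsto 0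
    have h2 : (0 : ℝ) < ∑ l ∈ U, (0 : ℝ) ^ ((l : ℕ) - (q : ℕ)) * c l := by rw [h0]; exact hc
    exact h1.eventually_const_lt h2
  have hev' : ∀ᶠ t : ℝ in nhdsWithin 0 (Set.Ioi 0),
      0 < ∑ l ∈ U, t ^ ((l : ℕ) - (q : ℕ)) * c l := nhdsWithin_le_nhds hev
  filter_upwards [hev', self_mem_nhdsWithin] with t h1 h2
  have h2' : 0 < t := h2
  have h3 : ∑ l ∈ U, t ^ ((l : ℕ) + 1) * c l =
      t ^ ((q : ℕ) + 1) * ∑ l ∈ U, t ^ ((l : ℕ) - (q : ℕ)) * c l := by
    rw [Finset.mul_sum]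
    apply Finset.sum_congr rfl
    intro l hl'
    by_cases h : c l = 0
    · simp [h]
    · have h4 := hl l hl' h
      have h5 : t ^ ((l : ℕ) + 1) = t ^ ((q : ℕ) + 1) * t ^ ((l : ℕ) - (q : ℕ)) := by
        rw [← pow_add]
        exact congrArg _ (by omega)
      rw [h5, mul_assoc]
  rw [h3]
  positivity

private theorem cf_kappa (a w : ℝ) (ha : |a| ≤ 1) (h : |a| = 1 → 0 < a * w) :
    ∀ᶠ κ : ℝ in nhdsWithin 0 (Set.Ioi 0), |a - κ * w| < 1 := by
  by_cases h1 : |a| = 1
  · have h2 := h h1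
    have hcont : Continuous fun κ : ℝ => |κ * w| := by fun_prop
    have hev : ∀ᶠ κ : ℝ in nhds 0, |κ * w| < 1 := by
      have h3 := hcont.tendsto 0
      have h4 : |(0 : ℝ) * w| < 1 := by simp
      exact h3.eventually_lt_const h4
    have hev' : ∀ᶠ κ : ℝ in nhdsWithin 0 (Set.Ioi 0), |κ * w| < 1 := nhdsWithin_le_nhds hev
    filter_upwards [hev', self_mem_nhdsWithin] with κ h3 h4
    have h4' : 0 < κ := h4
    rw [abs_lt] at h3 ⊢
    rcases (abs_eq zero_le_one).mp h1 with h5 | h5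
    · rw [h5] at h2 ⊢
      have h6 : 0 < κ * w := mul_pos h4' (by linarith)
      constructor <;> linarith
    · rw [h5] at h2 ⊢
      have h6 : 0 < κ * (-w) := mul_pos h4' (by linarith)
      constructor <;> linarith
  · have h2 : |a| < 1 := lt_of_le_of_ne ha h1
    have hcont : Continuous fun κ : ℝ => |a - κ * w| := by fun_prop
    have h3 := hcont.tendsto 0
    have h4 : |a - (0 : ℝ) * w| < 1 := by simpa using h2
    exact nhdsWithin_le_nhds (h3.eventually_lt_const h4)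

/-- the word gives a face -/
theorem psi_cell {L : Submodule ℝ (Fin m → ℝ)} {a : Fin m → ℝ} {ω : Fin m → ZMod 3}
    {v z : Fin m → ℝ} {g : Fin m → Fin m → ℝ} (h : Sol L a (sb ω) v z g) :
    ∃ y ∈ L, Cell (Psi ω v z g) y := by
  have hYz : ∀ x ∈ Ys (sb ω) v z g, z x = 0 ∧ |v x| = 1 := by
    intro x hx
    simp only [Ys, Finset.mem_filter, Finset.mem_univ, true_and] at hx
    obtain ⟨q, -, h1, h2, -⟩ := hx
    exact ⟨h1, h2⟩
  have hYZ : ∀ x ∈ Ys (sb ω) v z g, x ∈ Zs ω v z g := by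
    intro x hx
    simp only [Zs, Finset.mem_filter, Finset.mem_univ, true_and]
    exact ⟨(hYz x hx).2, Or.inr (Or.inr hx)⟩
  set U : Finset (Fin m) := (Zs ω v z g).filter fun l => l ∉ Ys (sb ω) v z g with hU
  have hU1 : ∀ l ∈ U, sb ω l = true ∧ v l * z l < 0 := by
    intro l hl
    rw [hU, Finset.mem_filter] at hl
    exact zs_neg h hl.1 hl.2
  have hUz : ∀ l ∈ U, z l ≠ 0 := by
    intro l hl h0
    have := (hU1 l hl).2
    rw [h0, mul_zero] at this
    exact lt_irrefl _ this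
  -- small t
  have ht : ∀ᶠ t : ℝ in nhdsWithin 0 (Set.Ioi 0), ∀ x ∈ Ys (sb ω) v z g,
      0 < ∑ l ∈ U, t ^ ((l : ℕ) + 1) * (v x * g l x) := by
    rw [Filter.eventually_all_finset]
    intro x hx
    have hx' := hx
    simp only [Ys, Finset.mem_filter, Finset.mem_univ, true_and] at hx'
    obtain ⟨q, hsq, h1, h2, h3⟩ := hx'
    obtain ⟨h31, h32, h33, h34⟩ := h3
    have hqY : q ∉ Ys (sb ω) v z g := fun hq => h31 (hYz q hq).1
    have hqQ : q ∈ Qs (sb ω) v z g := by
      simp only [Qs, Finset.mem_filter, Finset.mem_univ, true_and]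
      exact ⟨hsq, x, h1, h2, h31, h32, h33, h34⟩
    have hqU : q ∈ U := by
      rw [hU, Finset.mem_filter]
      refine ⟨?_, hqY⟩
      simp only [Zs, Finset.mem_filter, Finset.mem_univ, true_and]
      exact ⟨h.v1 q h31, Or.inr (Or.inl hqQ)⟩
    apply cf_pos U (fun l => v x * g l x) q hqU h32
    intro l hl hne
    have h4 : g l x ≠ 0 := by
      intro h0
      apply hne
      show v x * g l x = 0
      rw [h0, mul_zero]
    have h5 := h34 l (hUz l hl) h4
    simpa [ord, hsq, (hU1 l hl).1] using h5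
  obtain ⟨t, ht1, ht0⟩ := (ht.and (self_mem_nhdsWithin)).exists
  have ht0' : 0 < t := ht0
  set w : Fin m → ℝ := ∑ l ∈ U, t ^ ((l : ℕ) + 1) • g l with hw
  have hwx : ∀ x, w x = ∑ l ∈ U, t ^ ((l : ℕ) + 1) * g l x := by
    intro x
    rw [hw, Finset.sum_apply]
    rfl
  have hwL : w ∈ L := L.sum_mem fun l hl => L.smul_mem _ (h.gL l (hUz l hl))
  have hpos : ∀ x ∈ Zs ω v z g, 0 < v x * w x := by
    intro x hx
    by_cases hxY : x ∈ Ys (sb ω) v z g
    · have h1 := ht1 x hxY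
      rw [hwx, Finset.mul_sum]
      refine lt_of_lt_of_eq h1 (Finset.sum_congr rfl fun l _ => by ring)
    · have hxU : x ∈ U := by
        rw [hU, Finset.mem_filter]
        exact ⟨hx, hxY⟩
      rw [hwx, Finset.sum_eq_single_of_mem x hxU]
      · have h1 := h.gl x (hUz x hxU)
        have h2 : v x * (t ^ ((x : ℕ) + 1) * g x x) = t ^ ((x : ℕ) + 1) * (v x * g x x) := by ring
        rw [h2, h1]
        positivity
      · intro l hl hne
        rw [h.gz l x (hUz l hl) (hUz x hxU) (Ne.symm hne), mul_zero]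
  have hzero : ∀ x, |v x| = 1 → x ∉ Zs ω v z g → w x = 0 := by
    intro x hx1 hx2
    rw [hwx]
    apply Finset.sum_eq_zero
    intro l hl
    by_cases hzx : z x = 0
    · by_cases hg : g l x = 0
      · rw [hg, mul_zero]
      · exfalso
        obtain ⟨q, hq1, -, hq2⟩ := supp_pivot h hzx hx1 (hUz l hl) (hU1 l hl).1 hg
        apply hx2
        apply hYZ
        simp only [Ys, Finset.mem_filter, Finset.mem_univ, true_and]
        exact ⟨q, hq1, hq2⟩
    · have hne : x ≠ l := by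
        rintro rfl
        rw [hU, Finset.mem_filter] at hl
        exact hx2 hl.1
      rw [h.gz l x (hUz l hl) hzx hne, mul_zero]
  have hκ : ∀ᶠ κ : ℝ in nhdsWithin 0 (Set.Ioi 0), ∀ x : Fin m,
      (|v x| = 1 → x ∈ Zs ω v z g) → |v x - κ * w x| < 1 := by
    rw [Filter.eventually_all]
    intro x
    by_cases hx : |v x| = 1 → x ∈ Zs ω v z g
    · filter_upwards [cf_kappa (v x) (w x) (h.vle x) fun h1 => hpos x (hx h1)] with κ h2 _
      exact h2
    · exact Filter.Eventually.of_forall fun κ h2 => absurd h2 hx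
  obtain ⟨κ, hκ1⟩ := hκ.exists
  refine ⟨v - κ • w, L.sub_mem h.vL (L.smul_mem _ hwL), ?_⟩
  intro x
  have hyx : (v - κ • w) x = v x - κ * w x := rfl
  rw [hyx]
  constructor
  · intro h0
    apply hκ1 x
    intro h1
    by_contra h2
    have h3 : Psi ω v z g x = if v x = 1 then 1 else 2 := by
      unfold Psi
      rw [if_pos ⟨h1, h2⟩]
    rw [h3] at h0
    split_ifs at h0
    · exact absurd h0 (by decide)
    · exact absurd h0 (by decide)
  · intro h0
    have h1 : |v x| = 1 ∧ x ∉ Zs ω v z g := by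
      by_contra h2
      apply h0
      unfold Psi
      rw [if_neg h2]
    rw [hzero x h1.1 h1.2]
    have h3 : Psi ω v z g x = if v x = 1 then 1 else 2 := by
      unfold Psi
      rw [if_pos h1]
    rw [h3]
    rcases (abs_eq zero_le_one).mp h1.1 with h5 | h5
    · rw [if_pos h5, sg_one, h5]
      ring
    · rw [if_neg (by rw [h5]; norm_num), sg_two, h5]
      ring

end Pool.Agent.LVE
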