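import Pool.Agent.LVE.C1

/-!
# The face determines the vertex and the slack set
-/

set_option autoImplicit false

open scoped BigOperators Classical

namespace Pool.Agent.LVE

open Pool.Agent.GRD

variable {m : ℕ}

theorem CV_z1 {L : Submodule ℝ (Fin m → ℝ)} {a : Fin m → ℝ} {ω : Fin m → ZMod 3}
    {v z : Fin m → ℝ} {g : Fin m → Fin m → ℝ} (h : Sol L a (sb ω) v z g) :
    ∃ z1 : Fin m → ℝ, Orth L (fun l => z1 l + a l) ∧ (∀ l, |v l| ≠ 1 → z1 l = 0) ∧
      ∀ l ∈ Zs ω v z g, v l * z1 l < 0 := by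
  obtain ⟨w, hw, hwx⟩ := h.surj (fun x => if x ∈ Ys (sb ω) v z g then -v x else 0)
  have hev : ∀ᶠ t in nhdsWithin (0 : ℝ) (Set.Ioi 0), ∀ l : Fin m, v l * z l < 0 →
      v l * (z l + t * w l) < 0 := by
    rw [Filter.eventually_all]
    intro l
    by_cases hl : v l * z l < 0
    · have hc : Continuous (fun t : ℝ => v l * (z l + t * w l)) := by fun_prop
      have h0 : (fun t : ℝ => v l * (z l + t * w l)) 0 < 0 := by
        simpa using hl
      have := (hc.tendsto 0).eventually (gt_mem_nhds h0)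
      exact (Filter.Eventually.filter_mono nhdsWithin_le_nhds this).mono (fun t ht _ => ht)
    · exact Filter.Eventually.of_forall (fun t h' => absurd h' hl)
  obtain ⟨t, ht, htpos⟩ := (hev.and self_mem_nhdsWithin).exists
  have htpos' : (0 : ℝ) < t := htpos
  refine ⟨fun l => z l + t * w l, ?_, ?_, ?_⟩
  · intro y hy
    have e1 := h.orth y hy
    have e2 := hw y hy
    have : ∑ l, (z l + t * w l + a l) * y l = ∑ l, (z l + a l) * y l + t * ∑ l, w l * y l := by
      rw [Finset.mul_sum, ← Finset.sum_add_distrib]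
      exact Finset.sum_congr rfl (fun l _ => by ring)
    rw [this]
    simp only at e1
    rw [e1, e2]
    ring
  · intro l hl
    have hz : z l = 0 := by
      by_contra hne
      exact hl (h.v1 l hne)
    have hY : l ∉ Ys (sb ω) v z g := by
      intro hm
      simp only [Ys, Finset.mem_filter] at hm
      obtain ⟨_, q, _, hp⟩ := hm
      exact hl hp.2.1
    have := hwx l hz
    rw [if_neg hY] at this
    simp [hz, this]
  · intro l hl
    by_cases hY : l ∈ Ys (sb ω) v z g
    · have hY' := hY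
      simp only [Ys, Finset.mem_filter] at hY'
      obtain ⟨_, q, _, hp⟩ := hY'
      have hz : z l = 0 := hp.1
      have hv : |v l| = 1 := hp.2.1
      have hv2 : v l * v l = 1 := by
        rw [← abs_mul_abs_self, hv]; ring
      have := hwx l hz
      rw [if_pos hY] at this
      show v l * (z l + t * w l) < 0
      rw [hz, this]
      have : v l * (0 + t * -v l) = -t * (v l * v l) := by ring
      rw [this, hv2]
      linarith
    · exact ht l (zs_neg h hl hY).2

theorem CV_one {L : Submodule ℝ (Fin m → ℝ)} {a : Fin m → ℝ} {ω : Fin m → ZMod 3}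
    {v z v' : Fin m → ℝ} {g : Fin m → Fin m → ℝ} (h : Sol L a (sb ω) v z g)
    (hv' : v' ∈ L) (hle : ∀ l, |v' l| ≤ 1)
    (hN : ∀ l, |v l| = 1 → l ∉ Zs ω v z g → v' l = v l) :
    ∑ l, a l * (v' l - v l) ≤ 0 ∧
      (0 ≤ ∑ l, a l * (v' l - v l) → ∀ l, |v l| = 1 → v' l = v l) := by
  obtain ⟨z1, ho, h0, hneg⟩ := CV_z1 h
  have key := ho (v' - v) (L.sub_mem hv' h.vL)
  have hterm : ∀ l, 0 ≤ z1 l * (v' l - v l) := by
    intro l
    by_cases h1 : |v l| = 1
    · by_cases h2 : l ∈ Zs ω v z g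
      · have h3 := hneg l h2
        have h4 := abs_le.mp (hle l)
        rcases (abs_eq (by norm_num : (0 : ℝ) ≤ 1)).mp h1 with h5 | h5
        · rw [h5] at h3 ⊢
          nlinarith
        · rw [h5] at h3 ⊢
          nlinarith
      · rw [hN l h1 h2]; simp
    · rw [h0 l h1]; simp
  have hsum : ∑ l, a l * (v' l - v l) = - ∑ l, z1 l * (v' l - v l) := by
    have : ∑ l, (z1 l + a l) * (v' - v) l
        = ∑ l, z1 l * (v' l - v l) + ∑ l, a l * (v' l - v l) := by
      rw [← Finset.sum_add_distrib]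
      exact Finset.sum_congr rfl (fun l _ => by simp only [Pi.sub_apply]; ring)
    have key' : ∑ l, (z1 l + a l) * (v' - v) l = 0 := key
    linarith
  have hnn : 0 ≤ ∑ l, z1 l * (v' l - v l) := Finset.sum_nonneg (fun l _ => hterm l)
  refine ⟨by linarith, ?_⟩
  intro hge l h1
  have hz : ∑ l, z1 l * (v' l - v l) = 0 := by linarith
  have hzl := (Finset.sum_eq_zero_iff_of_nonneg (fun l _ => hterm l)).mp hz l (Finset.mem_univ l)
  by_cases h2 : l ∈ Zs ω v z g
  · have h3 := hneg l h2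
    rcases mul_eq_zero.mp hzl with h4 | h4
    · rw [h4] at h3
      simp at h3
    · linarith
  · exact hN l h1 h2

theorem CV_psi_ne {ω : Fin m → ZMod 3} {v z : Fin m → ℝ} {g : Fin m → Fin m → ℝ} {l : Fin m}
    (h1 : |v l| = 1) (h2 : l ∉ Zs ω v z g) :
    Psi ω v z g l = (if v l = 1 then 1 else 2) := by
  unfold Psi
  rw [if_pos ⟨h1, h2⟩]

theorem CV_psi_zero {ω : Fin m → ZMod 3} {v z : Fin m → ℝ} {g : Fin m → Fin m → ℝ} {l : Fin m}
    (h : ¬ (|v l| = 1 ∧ l ∉ Zs ω v z g)) : Psi ω v z g l = 0 := by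
  unfold Psi
  rw [if_neg h]

theorem CV_N {ω ω' : Fin m → ZMod 3} {v z v' z' : Fin m → ℝ} {g g' : Fin m → Fin m → ℝ}
    (hP : Psi ω v z g = Psi ω' v' z' g') (l : Fin m) (h1 : |v l| = 1)
    (h2 : l ∉ Zs ω v z g) : v' l = v l ∧ l ∉ Zs ω' v' z' g' := by
  have e := congrFun hP l
  rw [CV_psi_ne h1 h2] at e
  have h10 : (1 : ZMod 3) ≠ 0 := by decide
  have h20 : (2 : ZMod 3) ≠ 0 := by decide
  have h12 : (1 : ZMod 3) ≠ 2 := by decide
  by_cases hc : |v' l| = 1 ∧ l ∉ Zs ω' v' z' g'
  · rw [CV_psi_ne hc.1 hc.2] at e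
    refine ⟨?_, hc.2⟩
    have h5 := (abs_eq (by norm_num : (0 : ℝ) ≤ 1)).mp h1
    have h6 := (abs_eq (by norm_num : (0 : ℝ) ≤ 1)).mp hc.1
    by_cases ha : v l = 1
    · by_cases hb : v' l = 1
      · rw [ha, hb]
      · rw [if_pos ha, if_neg hb] at e
        exact absurd e h12
    · by_cases hb : v' l = 1
      · rw [if_neg ha, if_pos hb] at e
        exact absurd e.symm h12
      · rw [h5.resolve_left ha, h6.resolve_left hb]
  · rw [CV_psi_zero hc] at e
    split_ifs at e with ha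
    · exact absurd e h10
    · exact absurd e h20

theorem psi_vertex {L : Submodule ℝ (Fin m → ℝ)} {a : Fin m → ℝ} (ha : Gen L a)
    {ω ω' : Fin m → ZMod 3} {v z v' z' : Fin m → ℝ} {g g' : Fin m → Fin m → ℝ}
    (h : Sol L a (sb ω) v z g) (h' : Sol L a (sb ω') v' z' g')
    (hP : Psi ω v z g = Psi ω' v' z' g') : v = v' ∧ Zs ω v z g = Zs ω' v' z' g' := by
  have o1 := CV_one h h'.vL h'.vle (fun l h1 h2 => (CV_N hP l h1 h2).1)
  have o2 := CV_one h' h.vL h.vle (fun l h1 h2 => (CV_N hP.symm l h1 h2).1)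
  have hneg : ∑ l, a l * (v l - v' l) = - ∑ l, a l * (v' l - v l) := by
    rw [← Finset.sum_neg_distrib]
    exact Finset.sum_congr rfl (fun l _ => by ring)
  have hT : ∀ l, |v l| = 1 → v' l = v l := o1.2 (by linarith [o2.1])
  have hd : v' - v = 0 := by
    refine ha z h.orth (v' - v) (L.sub_mem h'.vL h.vL) ?_
    intro l hl
    have := hT l (h.v1 l hl)
    simp [this]
  have hv : v = v' := by
    have := sub_eq_zero.mp hd
    exact this.symm
  refine ⟨hv, ?_⟩
  ext l
  constructor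
  · intro hl
    by_contra hl'
    have h1 : |v l| = 1 := by
      simp only [Zs, Finset.mem_filter] at hl
      exact hl.2.1
    have h1' : |v' l| = 1 := by rw [← hv]; exact h1
    exact (CV_N hP.symm l h1' hl').2 hl
  · intro hl
    by_contra hl'
    have h1 : |v' l| = 1 := by
      simp only [Zs, Finset.mem_filter] at hl
      exact hl.2.1
    have h1' : |v l| = 1 := by rw [hv]; exact h1
    exact (CV_N hP l h1' hl').2 hl

end Pool.Agent.LVE
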