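import Pool.Agent.LVE.Defs

/-!
# Ternary decision trees
-/

set_option autoImplicit false

open scoped BigOperators Classical

namespace Pool.Agent.LVE

theorem dt {m : ℕ} (N : ℕ) (C : Finset (Fin m → ZMod 3))
    (A : (Fin m → ZMod 3) → Finset (Fin m)) (hA : ∀ ω ∈ C, (A ω).card ≤ N)
    (h : ∀ C' ⊆ C, ∀ B : Finset (Fin m), (∀ ω ∈ C', B ⊆ A ω) →
      (∀ ω ∈ C', ∀ ω' ∈ C', ∀ l ∈ B, ω l = ω' l) → 2 ≤ C'.card →
        ∃ l, l ∉ B ∧ ∀ ω ∈ C', l ∈ A ω) : C.card ≤ 3 ^ N := by
  have key : ∀ k : ℕ, ∀ C' ⊆ C, ∀ B : Finset (Fin m), (∀ ω ∈ C', B ⊆ A ω) →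
      (∀ ω ∈ C', ∀ ω' ∈ C', ∀ l ∈ B, ω l = ω' l) → N ≤ B.card + k → C'.card ≤ 3 ^ k := by
    intro k
    induction k with
    | zero =>
      intro C' hC' B hB hag hN
      by_contra hcon
      have h2 : 2 ≤ C'.card := by
        simp only [pow_zero, not_le] at hcon
        omega
      obtain ⟨l, hl, hl'⟩ := h C' hC' B hB hag h2
      obtain ⟨ω, hω⟩ : C'.Nonempty := Finset.card_pos.mp (by omega)
      have h3 : (insert l B).card ≤ (A ω).card :=
        Finset.card_le_card (Finset.insert_subset (hl' ω hω) (hB ω hω))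
      rw [Finset.card_insert_of_notMem hl] at h3
      have := hA ω (hC' hω)
      omega
    | succ k ih =>
      intro C' hC' B hB hag hN
      by_cases h2 : 2 ≤ C'.card
      · obtain ⟨l, hl, hl'⟩ := h C' hC' B hB hag h2
        have h4 : C'.card = ∑ c : ZMod 3, (C'.filter (fun ω => ω l = c)).card :=
          Finset.card_eq_sum_card_fiberwise (fun ω _ => Finset.mem_univ _)
        have h5 : ∀ c : ZMod 3, (C'.filter (fun ω => ω l = c)).card ≤ 3 ^ k := by
          intro c
          apply ih _ ((Finset.filter_subset _ _).trans hC') (insert l B)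
          · intro ω hω
            rw [Finset.mem_filter] at hω
            exact Finset.insert_subset (hl' ω hω.1) (hB ω hω.1)
          · intro ω hω ω' hω' x hx
            rw [Finset.mem_filter] at hω hω'
            rw [Finset.mem_insert] at hx
            rcases hx with rfl | hx
            · rw [hω.2, hω'.2]
            · exact hag ω hω.1 ω' hω'.1 x hx
          · rw [Finset.card_insert_of_notMem hl]; omega
        rw [h4]
        calc ∑ c : ZMod 3, (C'.filter (fun ω => ω l = c)).card
            ≤ ∑ c : ZMod 3, 3 ^ k := Finset.sum_le_sum (fun c _ => h5 c)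
          _ = 3 ^ (k + 1) := by
            rw [Finset.sum_const, Finset.card_univ, ZMod.card, smul_eq_mul, pow_succ, mul_comm]
      · have : 1 ≤ 3 ^ (k + 1) := Nat.one_le_pow _ _ (by norm_num)
        omega
  exact key N C (Finset.Subset.refl _) ∅ (by simp) (by simp) (by simp)

end Pool.Agent.LVE
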