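import Pool.Agent.LVE.Defs

/-!
# Restrictions of a subspace and of its orthogonal complement to a set of coordinates (row LA)
-/

set_option autoImplicit false

open scoped BigOperators Classical

namespace Pool.Agent.LVE

open Pool.Agent.GRD

variable {m : ℕ}

private theorem LA_apply (f : (Fin m → ℝ) →ₗ[ℝ] ℝ) (y : Fin m → ℝ) :
    ∑ l, f (Pi.single l 1) * y l = f y := by
  have h : y = ∑ l, y l • (Pi.single l (1 : ℝ) : Fin m → ℝ) := by
    funext j
    rw [Finset.sum_apply]
    rw [Finset.sum_eq_single j]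
    · simp
    · intro b _ hb
      simp [Pi.single_eq_of_ne (Ne.symm hb)]
    · intro hj
      exact absurd (Finset.mem_univ j) hj
  conv_rhs => rw [h]
  rw [map_sum]
  refine Finset.sum_congr rfl fun l _ => ?_
  rw [map_smul, smul_eq_mul, mul_comm]

private theorem LA_top (W : Submodule ℝ (Fin m → ℝ))
    (h : ∀ f : (Fin m → ℝ) →ₗ[ℝ] ℝ, (∀ y ∈ W, f y = 0) → (fun l => f (Pi.single l 1)) = (0 : Fin m → ℝ)) :
    W = ⊤ := by
  by_contra hne
  obtain ⟨f, hf0, hf⟩ := Submodule.exists_le_ker_of_lt_top W (lt_top_iff_ne_top.mpr hne)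
  have h0 := h f (fun y hy => LinearMap.mem_ker.mp (hf hy))
  apply hf0
  apply LinearMap.ext
  intro y
  rw [← LA_apply f y]
  simp only [LinearMap.zero_apply]
  refine Finset.sum_eq_zero fun l _ => ?_
  have := congrFun h0 l
  simp only [Pi.zero_apply] at this
  rw [this, zero_mul]

/-- the vectors vanishing where `Q` holds -/
private def LA_van (Q : Fin m → Prop) : Submodule ℝ (Fin m → ℝ) where
  carrier := {y | ∀ l, Q l → y l = 0}
  add_mem' := by
    intro a b ha hb l hl
    simp [ha l hl, hb l hl]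
  zero_mem' := by
    intro l _
    rfl
  smul_mem' := by
    intro c a ha l hl
    simp [ha l hl]

/-- the orthogonal complement -/
private def LA_perp (L : Submodule ℝ (Fin m → ℝ)) : Submodule ℝ (Fin m → ℝ) where
  carrier := {w | Orth L w}
  add_mem' := by
    intro a b ha hb y hy
    have h1 := ha y hy
    have h2 := hb y hy
    simp only [Pi.add_apply, add_mul, Finset.sum_add_distrib]
    rw [h1, h2, add_zero]
  zero_mem' := by
    intro y _
    simp
  smul_mem' := by
    intro c a ha y hy
    have h1 := ha y hy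
    simp only [Pi.smul_apply, smul_eq_mul, mul_assoc]
    rw [← Finset.mul_sum, h1, mul_zero]

private theorem LA_double (L : Submodule ℝ (Fin m → ℝ)) (y : Fin m → ℝ)
    (h : ∀ w : Fin m → ℝ, Orth L w → ∑ l, y l * w l = 0) : y ∈ L := by
  by_contra hy
  obtain ⟨f, hf0, hf⟩ := Submodule.exists_le_ker_of_notMem hy
  apply hf0
  rw [← LA_apply f y]
  have h1 := h (fun l => f (Pi.single l 1)) (by
    intro x hx
    rw [LA_apply f x]
    exact LinearMap.mem_ker.mp (hf hx))
  rw [← h1]
  exact Finset.sum_congr rfl fun l _ => mul_comm _ _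

theorem restr_L (L : Submodule ℝ (Fin m → ℝ)) (P : Fin m → Prop)
    (h : ∀ w : Fin m → ℝ, Orth L w → (∀ l, P l → w l = 0) → w = 0) (c : Fin m → ℝ) :
    ∃ y ∈ L, ∀ l, ¬ P l → y l = c l := by
  have htop : L ⊔ LA_van (fun l => ¬ P l) = ⊤ := by
    apply LA_top
    intro f hf
    apply h
    · intro y hy
      rw [LA_apply f y]
      exact hf y (Submodule.mem_sup_left hy)
    · intro l hl
      apply hf
      apply Submodule.mem_sup_right
      intro j hj
      have : j ≠ l := by
        rintro rfl
        exact hj hl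
      simp [Pi.single_eq_of_ne this]
  have hc : c ∈ L ⊔ LA_van (fun l => ¬ P l) := by
    rw [htop]
    trivial
  obtain ⟨y, hy, z, hz, hyz⟩ := Submodule.mem_sup.mp hc
  refine ⟨y, hy, fun l hl => ?_⟩
  have h1 : z l = 0 := hz l hl
  have h2 := congrFun hyz l
  simp only [Pi.add_apply] at h2
  rw [← h2, h1, add_zero]

theorem restr_M (L : Submodule ℝ (Fin m → ℝ)) (P : Fin m → Prop)
    (h : ∀ y ∈ L, (∀ l, ¬ P l → y l = 0) → y = 0) (c : Fin m → ℝ) :
    ∃ w : Fin m → ℝ, Orth L w ∧ ∀ l, P l → w l = c l := by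
  have htop : LA_perp L ⊔ LA_van P = ⊤ := by
    apply LA_top
    intro f hf
    apply h
    · apply LA_double
      intro w hw
      rw [LA_apply f w]
      exact hf w (Submodule.mem_sup_left hw)
    · intro l hl
      apply hf
      apply Submodule.mem_sup_right
      intro j hj
      have : j ≠ l := by
        rintro rfl
        exact hl hj
      simp [Pi.single_eq_of_ne this]
  have hc : c ∈ LA_perp L ⊔ LA_van P := by
    rw [htop]
    trivial
  obtain ⟨w, hw, z, hz, hwz⟩ := Submodule.mem_sup.mp hc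
  refine ⟨w, hw, fun l hl => ?_⟩
  have h1 : z l = 0 := hz l hl
  have h2 := congrFun hwz l
  simp only [Pi.add_apply] at h2
  rw [← h2, h1, add_zero]

end Pool.Agent.LVE
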