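import Pool.Agent.LVE.EV
import Pool.Agent.LVE.LA
import Pool.Agent.LVE.AS

/-!
# LVE, row PV: solutions with pivots
-/

set_option autoImplicit false

open scoped BigOperators Classical

namespace Pool.Agent.LVE

open Pool.Agent.GRD

variable {m : ℕ}

private theorem pv_ord_inj (s : Fin m → Bool) : Function.Injective (ord s) := by
  intro l l' h
  unfold ord at h
  have h1 := l.2
  have h2 := l'.2
  apply Fin.ext
  by_cases hs : s l = true <;> by_cases hs' : s l' = true <;> simp [hs, hs'] at h <;> omega

private theorem pv_ev (s : Fin m → Bool) (l : Fin m) : ev s l * ev s l = 1 := by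
  unfold ev
  split_ifs <;> norm_num

private theorem pv_abs_ev (s : Fin m → Bool) (l : Fin m) : |ev s l| = 1 := by
  unfold ev
  split_ifs <;> norm_num

theorem exists_sol (L : Submodule ℝ (Fin m → ℝ)) (a : Fin m → ℝ) (ha : Gen L a)
    (s : Fin m → Bool) : ∃ v z g, Sol L a s v z g := by
  -- the parameters
  set t : ℕ → ℝ := fun n => 1 / ((n : ℝ) + 2) with ht
  have ht0 : ∀ n, 0 < t n := fun n => by
    simp only [ht]
    positivity
  have ht1 : ∀ n, t n ≤ 1 := fun n => by
    simp only [ht]
    rw [div_le_one (by positivity)]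
    have : (0 : ℝ) ≤ (n : ℝ) := by positivity
    linarith
  set ρ : ℕ → Fin m → ℝ := fun n l => ev s l * (1 - t n ^ (ord s l + 1)) with hρ
  have hV := fun n => exists_vertex L a (ρ n)
  choose y hyL z hzO hzS hzV using hV
  obtain ⟨σ, hσ⟩ := Finite.exists_infinite_fiber
    (fun n : ℕ => (fun l : Fin m => SignType.sign (z n l)))
  have hσ' : ((fun n : ℕ => (fun l : Fin m => SignType.sign (z n l))) ⁻¹' {σ}).Infinite :=
    Set.infinite_coe_iff.1 hσ
  obtain ⟨n0, hn0, -⟩ := hσ'.exists_gt 0
  have hsg : ∀ n, n ∈ ((fun n : ℕ => (fun l : Fin m => SignType.sign (z n l))) ⁻¹' {σ}) →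
      ∀ l, SignType.sign (z n l) = SignType.sign (z n0 l) := by
    intro n hn l
    have h1 : (fun l : Fin m => SignType.sign (z n l)) = σ := hn
    have h2 : (fun l : Fin m => SignType.sign (z n0 l)) = σ := hn0
    exact (congrFun h1 l).trans (congrFun h2 l).symm
  -- arbitrarily small parameters in the fibre
  have hsmall : ∀ t₀ : ℝ, 0 < t₀ → ∃ n,
      n ∈ ((fun n : ℕ => (fun l : Fin m => SignType.sign (z n l))) ⁻¹' {σ}) ∧ t n < t₀ := by
    intro t₀ ht₀
    obtain ⟨K, hK⟩ := exists_nat_gt (1 / t₀)
    obtain ⟨n, hn, hKn⟩ := hσ'.exists_gt K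
    refine ⟨n, hn, ?_⟩
    simp only [ht]
    have h1 : (K : ℝ) < (n : ℝ) := by exact_mod_cast hKn
    have h2 : 1 / t₀ < (n : ℝ) + 2 := by linarith
    rw [div_lt_iff₀ ht₀] at h2
    rw [div_lt_iff₀ (by positivity)]
    linarith
  set z0 : Fin m → ℝ := z n0 with hz0
  -- the vectors
  have hL := restr_L L (fun l => z0 l = 0) (fun w hw h => hzV n0 w hw h)
  obtain ⟨v, hvL, hv⟩ := hL (fun l => if 0 < z0 l then ev s l else -ev s l)
  have hg := fun l : Fin m => hL (fun l' => if l' = l then v l else 0)
  choose g hgL hg using hg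
  have huniq : ∀ w ∈ L, (∀ l, z0 l ≠ 0 → w l = 0) → w = 0 := fun w hw h =>
    ha z0 (hzO n0) w hw h
  have hvv : ∀ l, z0 l ≠ 0 → v l * v l = 1 := by
    intro l hl
    rw [hv l hl]
    split_ifs
    · exact pv_ev s l
    · rw [neg_mul_neg]; exact pv_ev s l
  have hvabs : ∀ l, z0 l ≠ 0 → |v l| = 1 := by
    intro l hl
    rw [hv l hl]
    split_ifs
    · exact pv_abs_ev s l
    · rw [abs_neg]; exact pv_abs_ev s l
  -- the expansion of the solutions
  have hexp : ∀ n, n ∈ ((fun n : ℕ => (fun l : Fin m => SignType.sign (z n l))) ⁻¹' {σ}) →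
      ∀ x, y n x = v x - ∑ l ∈ Finset.univ.filter (fun l => z0 l ≠ 0),
        t n ^ (ord s l + 1) * g l x := by
    intro n hn x
    have h1 : y n - (v - ∑ l ∈ Finset.univ.filter (fun l => z0 l ≠ 0),
        t n ^ (ord s l + 1) • g l) = 0 := by
      apply huniq
      · exact L.sub_mem (hyL n) (L.sub_mem hvL (L.sum_mem fun l _ => L.smul_mem _ (hgL l)))
      · intro l hl
        have hsl := hsg n hn l
        have h2 : y n l = v l - t n ^ (ord s l + 1) * v l := by
          rcases lt_or_gt_of_ne hl with h | h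
          · have h3 : z n l < 0 := by
              rw [sign_neg h] at hsl
              exact sign_eq_neg_one_iff.1 hsl
            rw [(hzS n l).2.1 h3, hv l hl, if_neg (not_lt.2 h.le)]
            simp only [hρ]
            ring
          · have h3 : 0 < z n l := by
              rw [sign_pos h] at hsl
              exact sign_eq_one_iff.1 hsl
            rw [(hzS n l).1 h3, hv l hl, if_pos h]
            simp only [hρ]
            ring
        have h4 : (∑ l' ∈ Finset.univ.filter (fun l => z0 l ≠ 0),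
            t n ^ (ord s l' + 1) • g l') l = t n ^ (ord s l + 1) * v l := by
          rw [Finset.sum_apply, Finset.sum_eq_single l]
          · rw [Pi.smul_apply, smul_eq_mul, hg l l hl, if_pos rfl]
          · intro l' _ hl'
            rw [Pi.smul_apply, smul_eq_mul, hg l' l hl, if_neg (fun h => hl' h.symm), mul_zero]
          · intro h
            exact (h (Finset.mem_filter.2 ⟨Finset.mem_univ l, hl⟩)).elim
        rw [Pi.sub_apply, Pi.sub_apply, h4, h2, sub_self]
    have h5 := congrFun h1 x
    rw [Pi.sub_apply, Pi.sub_apply, Finset.sum_apply, Pi.zero_apply, sub_eq_zero] at h5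
    rw [h5]
    congr 1
  -- the bound on the zero coordinates
  have hbd : ∀ n x, |y n x| ≤ 1 - t n ^ (ord s x + 1) := by
    intro n x
    have h1 := (hzS n x).2.2
    have h2 : |ρ n x| = 1 - t n ^ (ord s x + 1) := by
      simp only [hρ]
      rw [abs_mul, pv_abs_ev, one_mul, abs_of_nonneg]
      have := pow_le_one₀ (n := ord s x + 1) (ht0 n).le (ht1 n)
      linarith
    rw [h2] at h1
    exact h1
  have hvle : ∀ x, |v x| ≤ 1 := by
    intro x
    set G : ℝ := ∑ l ∈ Finset.univ.filter (fun l => z0 l ≠ 0), |g l x| with hG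
    have hG0 : 0 ≤ G := Finset.sum_nonneg fun l _ => abs_nonneg _
    have h1 : ∀ n, n ∈ ((fun n : ℕ => (fun l : Fin m => SignType.sign (z n l))) ⁻¹' {σ}) →
        |v x| ≤ 1 + t n * G := by
      intro n hn
      have h2 := hexp n hn x
      have h3 : v x = y n x + ∑ l ∈ Finset.univ.filter (fun l => z0 l ≠ 0),
        t n ^ (ord s l + 1) * g l x := by rw [h2]; ring
      rw [h3]
      refine (abs_add_le _ _).trans (add_le_add ?_ ?_)
      · have := hbd n x
        have h4 : 0 < t n ^ (ord s x + 1) := pow_pos (ht0 n) _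
        linarith
      · refine (Finset.abs_sum_le_sum_abs _ _).trans ?_
        rw [hG, Finset.mul_sum]
        refine Finset.sum_le_sum fun l _ => ?_
        rw [abs_mul, abs_of_nonneg (pow_nonneg (ht0 n).le _)]
        refine mul_le_mul_of_nonneg_right ?_ (abs_nonneg _)
        rw [pow_succ]
        have := pow_le_one₀ (n := ord s l) (ht0 n).le (ht1 n)
        have h5 := ht0 n
        nlinarith
    by_contra hlt
    push Not at hlt
    obtain ⟨n, hn, hnt⟩ := hsmall ((|v x| - 1) / (G + 1)) (div_pos (by linarith) (by linarith))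
    have h2 := h1 n hn
    rw [lt_div_iff₀ (by linarith)] at hnt
    have h3 := ht0 n
    nlinarith
  refine ⟨v, z0, g, ⟨hzO n0, hvL, hvle, hvabs, ?_, fun l _ => hgL l, ?_, ?_, ?_, ?_⟩⟩
  · intro l
    by_cases hl : z0 l = 0
    · rw [hl, abs_zero, mul_zero, mul_zero]
    · rw [hv l hl]
      rcases lt_or_gt_of_ne hl with h | h
      · rw [if_neg (not_lt.2 h.le), abs_of_neg h]
        ring
      · rw [if_pos h, abs_of_pos h]
  · intro l hl
    rw [hg l l hl, if_pos rfl, hvv l hl]
  · intro l l' _ hl' hne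
    rw [hg l l' hl', if_neg hne]
  · intro c
    exact restr_M L (fun l => z0 l = 0) (fun w hw h => huniq w hw h) c
  · intro x hx hvx
    have hvx2 : v x * v x = 1 := by
      have := sq_abs (v x)
      rw [hvx] at this
      nlinarith
    have hvx0 : v x ≠ 0 := by
      intro h
      rw [h] at hvx2
      simp at hvx2
    have hA := asym (ord s) (pv_ord_inj s) (Finset.univ.filter (fun l => z0 l ≠ 0)) x
      (by simp [hx]) (fun l => v x * g l x) (by
        intro t₀ ht₀
        obtain ⟨n, hn, hnt⟩ := hsmall t₀ ht₀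
        refine ⟨t n, ht0 n, hnt, ?_⟩
        have h1 := hexp n hn x
        have h2 : v x * y n x ≤ 1 - t n ^ (ord s x + 1) := by
          calc v x * y n x ≤ |v x * y n x| := le_abs_self _
            _ = |y n x| := by rw [abs_mul, hvx, one_mul]
            _ ≤ _ := hbd n x
        rw [h1, mul_sub, hvx2, Finset.mul_sum] at h2
        have h3 : ∑ l ∈ Finset.univ.filter (fun l => z0 l ≠ 0),
            t n ^ (ord s l + 1) * (v x * g l x) =
            ∑ l ∈ Finset.univ.filter (fun l => z0 l ≠ 0),
              v x * (t n ^ (ord s l + 1) * g l x) := by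
          refine Finset.sum_congr rfl fun l _ => ?_
          ring
        rw [h3]
        linarith)
    obtain ⟨l, hlA, hpos, hlt, hmin⟩ := hA
    refine ⟨l, (Finset.mem_filter.1 hlA).2, hpos, hlt, fun l' hl' hgl' => ?_⟩
    exact hmin l' (Finset.mem_filter.2 ⟨Finset.mem_univ _, hl'⟩) (mul_ne_zero hvx0 hgl')

end Pool.Agent.LVE
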