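import Pool.Agent.LVE.GA
import Pool.Agent.LVE.PV
import Pool.Agent.LVE.CF
import Pool.Agent.LVE.CV
import Pool.Agent.LVE.CD
import Pool.Agent.LVE.CE
import Pool.Agent.LVE.CC
import Pool.Agent.LVE.DT

/-!
# The count
-/

set_option autoImplicit false

open scoped BigOperators Classical

namespace Pool.Agent.LVE

open Pool.Agent.GRD Pool.Agent.VNP

variable {m : ℕ}

theorem cn_fibre (L : Submodule ℝ (Fin m → ℝ)) (a : Fin m → ℝ) (ha : Gen L a)
    (V Z : (Fin m → Bool) → Fin m → ℝ) (G : (Fin m → Bool) → Fin m → Fin m → ℝ)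
    (hS : ∀ s, Sol L a s (V s) (Z s) (G s)) (C' : Finset (Fin m → ZMod 3))
    (t : Fin m → ZMod 3)
    (hC : ∀ ω ∈ C', Psi ω (V (sb ω)) (Z (sb ω)) (G (sb ω)) = t)
    (B : Finset (Fin m))
    (hB : ∀ ω ∈ C', ∀ ω' ∈ C', ∀ l ∈ B, ω l = ω' l) (h2 : 2 ≤ C'.card) :
    ∃ l, l ∉ B ∧ ∀ ω ∈ C', l ∈ As ω (V (sb ω)) (Z (sb ω)) (G (sb ω)) := by
  obtain ⟨ω1, hω1, ω2, hω2, hne⟩ := Finset.one_lt_card.1 (show 1 < C'.card by omega)
  have hvz : ∀ ω ∈ C', V (sb ω) = V (sb ω1) ∧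
      Zs ω (V (sb ω)) (Z (sb ω)) (G (sb ω)) = Zs ω1 (V (sb ω1)) (Z (sb ω1)) (G (sb ω1)) :=
    fun ω hω => psi_vertex ha (hS (sb ω)) (hS (sb ω1)) ((hC ω hω).trans (hC ω1 hω1).symm)
  obtain ⟨v, hv⟩ : ∃ v, v = V (sb ω1) := ⟨_, rfl⟩
  have hV : ∀ ω ∈ C', V (sb ω) = v := fun ω hω => by rw [hv]; exact (hvz ω hω).1
  have hS' : ∀ ω ∈ C', Sol L a (sb ω) v (Z (sb ω)) (G (sb ω)) := by
    intro ω hω
    have := hS (sb ω)
    rwa [hV ω hω] at this
  have hZ : ∀ ω ∈ C', ∀ ω' ∈ C', Zs ω v (Z (sb ω)) (G (sb ω)) =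
      Zs ω' v (Z (sb ω')) (G (sb ω')) := by
    intro ω hω ω' hω'
    have h1 := (hvz ω hω).2
    have h1' := (hvz ω' hω').2
    rw [hV ω hω] at h1
    rw [hV ω' hω'] at h1'
    rw [h1, h1']
  have key : ∃ l, l ∉ B ∧ ∀ ω ∈ C', l ∈ As ω v (Z (sb ω)) (G (sb ω)) := by
    by_cases hQ : ∃ n : ℕ, ∃ ω ∈ C', ∃ ω' ∈ C', ∃ q : Fin m, (q : ℕ) = n ∧
        q ∈ Qs (sb ω) v (Z (sb ω)) (G (sb ω)) ∧ q ∉ Qs (sb ω') v (Z (sb ω')) (G (sb ω'))
    · obtain ⟨ω, hω, ω', hω', q, hq, hq1, hq2⟩ := Nat.find_spec hQ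
      have hmin : ∀ p : Fin m, p < q → ∀ α ∈ C', ∀ β ∈ C',
          (p ∈ Qs (sb α) v (Z (sb α)) (G (sb α)) ↔ p ∈ Qs (sb β) v (Z (sb β)) (G (sb β))) := by
        have hone : ∀ p : Fin m, p < q → ∀ α ∈ C', ∀ β ∈ C',
            p ∈ Qs (sb α) v (Z (sb α)) (G (sb α)) → p ∈ Qs (sb β) v (Z (sb β)) (G (sb β)) := by
          intro p hp α hα β hβ hpα
          by_contra hcon
          have hlt : (p : ℕ) < Nat.find hQ := by rw [← hq]; exact hp
          exact Nat.find_min hQ hlt ⟨α, hα, β, hβ, p, rfl, hpα, hcon⟩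
        intro p hp α hα β hβ
        exact ⟨hone p hp α hα β hβ, hone p hp β hβ α hα⟩
      refine ⟨q, ?_, ?_⟩
      · intro hqB
        have h3 := (first_diff ha (hS' ω hω) (hS' ω' hω') (hZ ω hω ω' hω') q
          (fun p hp => hmin p hp ω hω ω' hω') hq1 hq2).2
        have h4 : sb ω q = true := by
          unfold Qs at hq1
          exact (Finset.mem_filter.1 hq1).2.1
        have h5 := hB ω hω ω' hω' q hqB
        unfold sb at h3 h4
        rw [h5] at h4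
        rw [h4] at h3
        exact absurd h3 (by decide)
      · intro α hα
        unfold As
        by_cases hqα : q ∈ Qs (sb α) v (Z (sb α)) (G (sb α))
        · exact Finset.mem_union_left _ (Finset.mem_union_right _ hqα)
        · exact Finset.mem_union_left _ (Finset.mem_union_left _
            (first_diff ha (hS' ω hω) (hS' α hα) (hZ ω hω α hα) q
              (fun p hp => hmin p hp ω hω α hα) hq1 hqα).1)
    · have hQeq : ∀ α ∈ C', ∀ β ∈ C', Qs (sb α) v (Z (sb α)) (G (sb α)) =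
          Qs (sb β) v (Z (sb β)) (G (sb β)) := by
        have hone : ∀ α ∈ C', ∀ β ∈ C', Qs (sb α) v (Z (sb α)) (G (sb α)) ⊆
          Qs (sb β) v (Z (sb β)) (G (sb β)) := by
          intro α hα β hβ q hq
          by_contra hcon
          exact hQ ⟨q, α, hα, β, hβ, q, rfl, hq, hcon⟩
        intro α hα β hβ
        exact Finset.Subset.antisymm (hone α hα β hβ) (hone β hβ α hα)
      have hw := word_eq ha (hS' ω1 hω1) (hS' ω2 hω2) (hZ ω1 hω1 ω2 hω2) (hQeq ω1 hω1 ω2 hω2)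
      obtain ⟨l, hl, hl2⟩ : ∃ l ∈ As ω1 v (Z (sb ω1)) (G (sb ω1)), ω1 l ≠ ω2 l := by
        by_contra hcon
        push Not at hcon
        exact hne (hw.2 hcon)
      refine ⟨l, fun hlB => hl2 (hB ω1 hω1 ω2 hω2 l hlB), fun α hα => ?_⟩
      have h6 := (word_eq ha (hS' ω1 hω1) (hS' α hα) (hZ ω1 hω1 α hα) (hQeq ω1 hω1 α hα)).1
      rw [← h6]
      exact hl
  obtain ⟨l, hl, hl2⟩ := key
  refine ⟨l, hl, fun ω hω => ?_⟩
  rw [hV ω hω]
  exact hl2 ω hω

theorem count (L : Submodule ℝ (Fin m → ℝ)) (e : ℕ)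
    (he : ∀ y ∈ L, (∀ l, |y l| ≤ 1) → (Tt y).card ≤ Module.finrank ℝ L + e) :
    3 ^ Module.finrank ℝ L ≤ 3 ^ e * NL L := by
  obtain ⟨a, ha⟩ := exists_gen L
  choose V Z G hS using fun s => exists_sol L a ha s
  obtain ⟨r, hr⟩ : ∃ r, r = Module.finrank ℝ L := ⟨_, rfl⟩
  have hrm : r ≤ m := by
    have h1 := Submodule.finrank_le L
    rw [Module.finrank_fin_fun] at h1
    omega
  have hfib : ∀ t ∈ (Finset.univ.filter fun s : Fin m → ZMod 3 => ∃ y ∈ L, Cell s y),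
      (Finset.univ.filter fun ω : Fin m → ZMod 3 =>
        Psi ω (V (sb ω)) (Z (sb ω)) (G (sb ω)) = t).card ≤ 3 ^ (m + e - r) := by
    intro t _
    apply dt (m + e - r) _ (fun ω => As ω (V (sb ω)) (Z (sb ω)) (G (sb ω)))
    · intro ω _
      have h1 := card_As ha (hS (sb ω)) e (he _ (hS (sb ω)).vL (hS (sb ω)).vle)
      have h2 : (As ω (V (sb ω)) (Z (sb ω)) (G (sb ω))).card + r ≤ m + e := by rw [hr]; exact h1
      show (As ω (V (sb ω)) (Z (sb ω)) (G (sb ω))).card ≤ m + e - r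
      omega
    · intro C' hC' B _ hB h2
      exact cn_fibre L a ha V Z G hS C' t (fun ω hω => (Finset.mem_filter.1 (hC' hω)).2) B hB h2
  have hmain : (Finset.univ : Finset (Fin m → ZMod 3)).card ≤ 3 ^ (m + e - r) *
      (Finset.univ.filter fun s : Fin m → ZMod 3 => ∃ y ∈ L, Cell s y).card := by
    apply Finset.card_le_mul_card_image_of_maps_to
      (f := fun ω : Fin m → ZMod 3 => Psi ω (V (sb ω)) (Z (sb ω)) (G (sb ω)))
    · intro ω _
      exact Finset.mem_filter.2 ⟨Finset.mem_univ _, psi_cell (hS (sb ω))⟩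
    · intro t ht
      exact hfib t ht
  have hcard : (Finset.univ : Finset (Fin m → ZMod 3)).card = 3 ^ m := by
    rw [Finset.card_univ, Fintype.card_fun, ZMod.card, Fintype.card_fin]
  rw [hcard] at hmain
  have hNL : NL L = (Finset.univ.filter fun s : Fin m → ZMod 3 => ∃ y ∈ L, Cell s y).card := by
    unfold NL
    refine congrArg Finset.card ?_
    ext s
    simp only [Finset.mem_filter, Finset.mem_univ, true_and]
  rw [← hNL] at hmain
  rw [← hr]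
  have e1 : 3 ^ m = 3 ^ (m - r) * 3 ^ r := by
    rw [← pow_add]; congr 1; omega
  have e2 : 3 ^ (m + e - r) = 3 ^ (m - r) * 3 ^ e := by
    rw [← pow_add]; congr 1; omega
  rw [e1, e2, mul_assoc] at hmain
  exact Nat.le_of_mul_le_mul_left hmain (by positivity)

end Pool.Agent.LVE
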