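import Pool.Agent.LVE.CN
import Pool.Agent.LVE.GA2

/-!
# The weighted count with a direction
-/

set_option autoImplicit false

open scoped BigOperators Classical Topology

namespace Pool.Agent.LVE

open Pool.Agent.GRD Pool.Agent.VNP

variable {m : ℕ}

/-- the points of the closed face `t` -/
def InF (L : Submodule ℝ (Fin m → ℝ)) (t : Fin m → ZMod 3) (y : Fin m → ℝ) : Prop :=
  y ∈ L ∧ (∀ l, |y l| ≤ 1) ∧ ∀ l, t l ≠ 0 → y l = sg (t l)

private theorem cnc_sg_one : sg (1 : ZMod 3) = 1 := by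
  unfold sg
  rw [if_neg (by decide), if_pos rfl]

private theorem cnc_sg_two : sg (2 : ZMod 3) = -1 := by
  unfold sg
  rw [if_neg (by decide), if_neg (by decide)]

private theorem cnc_psi {ω : Fin m → ZMod 3} {v z : Fin m → ℝ} {g : Fin m → Fin m → ℝ}
    {l : Fin m} (h : Psi ω v z g l ≠ 0) : v l = sg (Psi ω v z g l) := by
  unfold Psi at h ⊢
  by_cases h1 : |v l| = 1 ∧ l ∉ Zs ω v z g
  · rw [if_pos h1]
    by_cases h2 : v l = 1
    · rw [if_pos h2, cnc_sg_one, h2]
    · rw [if_neg h2, cnc_sg_two]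
      rcases (abs_eq (zero_le_one : (0 : ℝ) ≤ 1)).1 h1.1 with h3 | h3
      · exact absurd h3 h2
      · exact h3
  · rw [if_neg h1] at h
    exact absurd rfl h

/-- the weighted count for a generic direction: only the top points matter -/
theorem count_gen (L : Submodule ℝ (Fin m → ℝ)) (a : Fin m → ℝ) (ha : Gen L a)
    (w : (Fin m → ZMod 3) → ℕ)
    (hw : ∀ t : Fin m → ZMod 3, (∃ y ∈ L, Cell t y) → ∀ v, InF L t v →
      (∀ y, InF L t y → ∑ l, a l * y l ≤ ∑ l, a l * v l) →
      (Tt v).card ≤ Module.finrank ℝ L + w t) :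
    3 ^ Module.finrank ℝ L ≤
      ∑ t ∈ Finset.univ.filter (fun s : Fin m → ZMod 3 => ∃ y ∈ L, Cell s y), 3 ^ w t := by
  choose V Z G hS using fun s => exists_sol L a ha s
  obtain ⟨r, hr⟩ : ∃ r, r = Module.finrank ℝ L := ⟨_, rfl⟩
  have hrm : r ≤ m := by
    have h1 := Submodule.finrank_le L
    rw [Module.finrank_fin_fun] at h1
    omega
  have hfib : ∀ t ∈ (Finset.univ.filter fun s : Fin m → ZMod 3 => ∃ y ∈ L, Cell s y),
      (Finset.univ.filter fun ω : Fin m → ZMod 3 =>
        Psi ω (V (sb ω)) (Z (sb ω)) (G (sb ω)) = t).card ≤ 3 ^ (m - r) * 3 ^ w t := by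
    intro t ht
    have h0 : (Finset.univ.filter fun ω : Fin m → ZMod 3 =>
        Psi ω (V (sb ω)) (Z (sb ω)) (G (sb ω)) = t).card ≤ 3 ^ (m + w t - r) := by
      apply dt (m + w t - r) _ (fun ω => As ω (V (sb ω)) (Z (sb ω)) (G (sb ω)))
      · intro ω hω
        have hωt : Psi ω (V (sb ω)) (Z (sb ω)) (G (sb ω)) = t := (Finset.mem_filter.1 hω).2
        have hin : InF L t (V (sb ω)) := by
          refine ⟨(hS (sb ω)).vL, (hS (sb ω)).vle, fun l hl => ?_⟩
          rw [← hωt] at hl ⊢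
          exact cnc_psi hl
        have h1 := card_As ha (hS (sb ω)) (w t) (hw t (Finset.mem_filter.1 ht).2 _ hin (by
            intro y hy
            have h3 := (CV_one (hS (sb ω)) hy.1 hy.2.1 (fun l h1 h2 => by
              have h4 : Psi ω (V (sb ω)) (Z (sb ω)) (G (sb ω)) l ≠ 0 := by
                rw [CV_psi_ne h1 h2]
                split_ifs <;> decide
              have h5 : t l ≠ 0 := by rw [← hωt]; exact h4
              rw [hy.2.2 l h5, hin.2.2 l h5])).1
            have h6 : ∑ l, a l * (y l - V (sb ω) l) =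
                ∑ l, a l * y l - ∑ l, a l * V (sb ω) l := by
              rw [← Finset.sum_sub_distrib]
              exact Finset.sum_congr rfl (fun l _ => by ring)
            linarith))
        have h2 : (As ω (V (sb ω)) (Z (sb ω)) (G (sb ω))).card + r ≤ m + w t := by
          rw [hr]; exact h1
        show (As ω (V (sb ω)) (Z (sb ω)) (G (sb ω))).card ≤ m + w t - r
        omega
      · intro C' hC' B _ hB h2
        exact cn_fibre L a ha V Z G hS C' t (fun ω hω => (Finset.mem_filter.1 (hC' hω)).2) B hB h2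
    have e2 : 3 ^ (m + w t - r) = 3 ^ (m - r) * 3 ^ w t := by
      rw [← pow_add]; congr 1; omega
    rw [← e2]
    exact h0
  have hmain : (Finset.univ : Finset (Fin m → ZMod 3)).card ≤
      ∑ t ∈ Finset.univ.filter (fun s : Fin m → ZMod 3 => ∃ y ∈ L, Cell s y),
        3 ^ (m - r) * 3 ^ w t := by
    rw [Finset.card_eq_sum_card_fiberwise
      (f := fun ω : Fin m → ZMod 3 => Psi ω (V (sb ω)) (Z (sb ω)) (G (sb ω)))
      (t := Finset.univ.filter (fun s : Fin m → ZMod 3 => ∃ y ∈ L, Cell s y))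
      (fun ω _ => Finset.mem_coe.2 (Finset.mem_filter.2 ⟨Finset.mem_univ _, psi_cell (hS (sb ω))⟩))]
    exact Finset.sum_le_sum hfib
  have hcard : (Finset.univ : Finset (Fin m → ZMod 3)).card = 3 ^ m := by
    rw [Finset.card_univ, Fintype.card_fun, ZMod.card, Fintype.card_fin]
  rw [hcard, ← Finset.mul_sum] at hmain
  have e1 : 3 ^ m = 3 ^ (m - r) * 3 ^ r := by
    rw [← pow_add]; congr 1; omega
  rw [e1] at hmain
  rw [← hr]
  exact Nat.le_of_mul_le_mul_left hmain (by positivity)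

/-- the weighted count for an arbitrary direction `a0`: only the points of the face `t` at which `a0` is
maximal matter -/
theorem count_dir (L : Submodule ℝ (Fin m → ℝ)) (a0 : Fin m → ℝ)
    (w : (Fin m → ZMod 3) → ℕ)
    (hw : ∀ t : Fin m → ZMod 3, (∃ y ∈ L, Cell t y) → ∀ v, InF L t v →
      (∀ y, InF L t y → ∑ l, a0 l * y l ≤ ∑ l, a0 l * v l) →
      (Tt v).card ≤ Module.finrank ℝ L + w t) :
    3 ^ Module.finrank ℝ L ≤
      ∑ t ∈ Finset.univ.filter (fun s : Fin m → ZMod 3 => ∃ y ∈ L, Cell s y), 3 ^ w t := by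
  by_contra hlt
  have hj : ∀ j : ℕ, ∃ (a : Fin m → ℝ) (t : Fin m → ZMod 3) (v : Fin m → ℝ),
      (∀ l, |a l - a0 l| < 1 / ((j : ℝ) + 1)) ∧ (∃ y ∈ L, Cell t y) ∧ InF L t v ∧
      (∀ y, InF L t y → ∑ l, a l * y l ≤ ∑ l, a l * v l) ∧
      Module.finrank ℝ L + w t < (Tt v).card := by
    intro j
    obtain ⟨a, h1, h2⟩ := exists_gen_near L a0 (1 / ((j : ℝ) + 1)) (by positivity)
    by_contra hcon
    apply hlt
    refine count_gen L a h2 w ?_
    intro t ht v hv htop
    by_contra h3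
    exact hcon ⟨a, t, v, h1, ht, hv, htop, not_le.1 h3⟩
  choose A T V hA hT hV htop hbig using hj
  obtain ⟨U, hU⟩ : ∃ U : Ultrafilter ℕ, (U : Filter ℕ) ≤ Filter.atTop :=
    ⟨Filter.hyperfilter ℕ, Nat.hyperfilter_le_atTop⟩
  -- the finite data are constant
  obtain ⟨p, hp⟩ := Ultrafilter.eq_pure_of_finite (U.map fun j => (T j, Tt (V j)))
  have hpe : ∀ᶠ j in (U : Filter ℕ), (T j, Tt (V j)) = p := by
    have h1 : ∀ᶠ q in ((U.map fun j => (T j, Tt (V j)) : Ultrafilter _) : Filter _), q = p := by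
      rw [hp, Ultrafilter.coe_pure]
      exact Filter.eventually_pure.2 rfl
    exact h1
  -- the limit of the points
  have hK : IsCompact (Set.pi Set.univ fun _ : Fin m => Set.Icc (-1 : ℝ) 1) :=
    isCompact_univ_pi fun _ => isCompact_Icc
  obtain ⟨v, hvK, hv⟩ := hK.ultrafilter_le_nhds (U.map V) (by
    rw [Filter.le_principal_iff, Ultrafilter.coe_map, Filter.mem_map]
    exact Filter.Eventually.of_forall fun j => by
      intro l _
      exact abs_le.1 ((hV j).2.1 l))
  have hvt : Filter.Tendsto V (U : Filter ℕ) (𝓝 v) := hv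
  have hvl : ∀ l, Filter.Tendsto (fun j => V j l) (U : Filter ℕ) (𝓝 (v l)) :=
    fun l => (tendsto_pi_nhds.1 hvt) l
  have hAt : ∀ l, Filter.Tendsto (fun j => A j l) (U : Filter ℕ) (𝓝 (a0 l)) := by
    intro l
    refine Filter.Tendsto.mono_left ?_ hU
    rw [tendsto_iff_dist_tendsto_zero]
    refine squeeze_zero (fun _ => dist_nonneg) (fun j => ?_) tendsto_one_div_add_atTop_nhds_zero_nat
    rw [Real.dist_eq]
    exact (hA j l).le
  have hLc : IsClosed (L : Set (Fin m → ℝ)) := Submodule.closed_of_finiteDimensional L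
  have hvL : v ∈ L := hLc.mem_of_tendsto hvt (Filter.Eventually.of_forall fun j => (hV j).1)
  have hTp : ∀ᶠ j in (U : Filter ℕ), T j = p.1 := hpe.mono fun j h => by rw [← h]
  have hTtp : ∀ᶠ j in (U : Filter ℕ), Tt (V j) = p.2 := hpe.mono fun j h => by rw [← h]
  obtain ⟨j0, hj0⟩ := hpe.exists
  have hj1 : T j0 = p.1 := by rw [← hj0]
  have hj2 : Tt (V j0) = p.2 := by rw [← hj0]
  have hin : InF L p.1 v := by
    refine ⟨hvL, fun l => ?_, fun l hl => ?_⟩
    · exact abs_le.2 (hvK l (Set.mem_univ l))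
    · refine tendsto_nhds_unique (hvl l) ?_
      refine Filter.Tendsto.congr' ?_ tendsto_const_nhds
      filter_upwards [hTp] with j hj
      have := (hV j).2.2 l (by rw [hj]; exact hl)
      rw [this, hj]
  have h4 := hw p.1 (by rw [← hj1]; exact hT j0) v hin (by
    intro y hy
    have e1 : Filter.Tendsto (fun j => ∑ l, A j l * y l) (U : Filter ℕ) (𝓝 (∑ l, a0 l * y l)) :=
      tendsto_finsetSum _ fun l _ => (hAt l).mul_const _
    have e2 : Filter.Tendsto (fun j => ∑ l, A j l * V j l) (U : Filter ℕ)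
        (𝓝 (∑ l, a0 l * v l)) :=
      tendsto_finsetSum _ fun l _ => (hAt l).mul (hvl l)
    refine le_of_tendsto_of_tendsto e1 e2 ?_
    filter_upwards [hTp] with j hj
    exact htop j y (by rw [hj]; exact hy))
  have h5 : p.2 ⊆ Tt v := by
    intro l hl
    refine Finset.mem_filter.2 ⟨Finset.mem_univ l, ?_⟩
    refine tendsto_nhds_unique ((hvl l).abs) ?_
    refine Filter.Tendsto.congr' ?_ tendsto_const_nhds
    filter_upwards [hTtp] with j hj
    have : l ∈ Tt (V j) := by rw [hj]; exact hl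
    exact (Finset.mem_filter.1 this).2.symm
  have h6 := Finset.card_le_card h5
  have h7 := hbig j0
  rw [hj1, hj2] at h7
  omega

end Pool.Agent.LVE
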