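import Pool.Agent.LVE.Defs3
import Pool.Agent.LVE.C1

/-!
# The pivots give a chain of faces
-/

set_option autoImplicit false

open scoped BigOperators Classical Topology

namespace Pool.Agent.LVE

open Pool.Agent.GRD Module

variable {m : ℕ}

private theorem cq_sg_one : sg (1 : ZMod 3) = 1 := by
  unfold sg
  rw [if_neg (by decide), if_pos rfl]

private theorem cq_sg_two : sg (2 : ZMod 3) = -1 := by
  unfold sg
  rw [if_neg (by decide), if_neg (by decide)]

private theorem cq_psi {ω : Fin m → ZMod 3} {v z : Fin m → ℝ} {g : Fin m → Fin m → ℝ}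
    {l : Fin m} (h : Psi ω v z g l ≠ 0) :
    |v l| = 1 ∧ l ∉ Zs ω v z g ∧ v l = sg (Psi ω v z g l) := by
  unfold Psi at h ⊢
  by_cases h1 : |v l| = 1 ∧ l ∉ Zs ω v z g
  · rw [if_pos h1]
    refine ⟨h1.1, h1.2, ?_⟩
    by_cases h2 : v l = 1
    · rw [if_pos h2, cq_sg_one, h2]
    · rw [if_neg h2, cq_sg_two]
      rcases (abs_eq (zero_le_one : (0 : ℝ) ≤ 1)).1 h1.1 with h3 | h3
      · exact absurd h3 h2
      · exact h3
  · rw [if_neg h1] at h
    exact absurd rfl h

private theorem cq_ord_inj (s : Fin m → Bool) {l l' : Fin m} (h : ord s l = ord s l') : l = l' := by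
  unfold ord at h
  have h1 := l.2
  have h2 := l'.2
  apply Fin.ext
  split_ifs at h <;> omega

/-- the pivots before `j` -/
private noncomputable def Qb (s : Fin m → Bool) (v z : Fin m → ℝ) (g : Fin m → Fin m → ℝ) (j : ℕ) :
    Finset (Fin m) :=
  (Qs s v z g).filter fun q => ord s q < j

/-- the points of the chain -/
private noncomputable def Yp (s : Fin m → Bool) (v z : Fin m → ℝ) (g : Fin m → Fin m → ℝ) (ε : ℝ) (j : ℕ) :
    Fin m → ℝ :=
  v - ∑ q ∈ Qb s v z g j, ε ^ (ord s q + 1) • g q

private theorem yp_apply (s : Fin m → Bool) (v z : Fin m → ℝ) (g : Fin m → Fin m → ℝ) (ε : ℝ) (j : ℕ)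
    (l : Fin m) :
    Yp s v z g ε j l = v l - ∑ q ∈ Qb s v z g j, ε ^ (ord s q + 1) * g q l := by
  unfold Yp
  rw [Pi.sub_apply, Finset.sum_apply]
  rfl

private theorem mem_qb {s : Fin m → Bool} {v z : Fin m → ℝ} {g : Fin m → Fin m → ℝ} {j : ℕ}
    {q : Fin m} (h : q ∈ Qb s v z g j) :
    s q = true ∧ z q ≠ 0 ∧ ord s q < j ∧ q ∈ Qs s v z g := by
  unfold Qb at h
  rw [Finset.mem_filter] at h
  obtain ⟨h1, h2⟩ := h
  have h3 := h1
  unfold Qs at h3
  rw [Finset.mem_filter] at h3
  obtain ⟨_, hs, x, hx⟩ := h3
  exact ⟨hs, hx.2.2.1, h2, h1⟩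

/-- the least element moves inside -/
private theorem cq_pos {L : Submodule ℝ (Fin m → ℝ)} {a : Fin m → ℝ} {s : Fin m → Bool}
    {v z : Fin m → ℝ} {g : Fin m → Fin m → ℝ} (h : Sol L a s v z g) {j : ℕ} {l q : Fin m}
    (hl : |v l| = 1) (hq : q ∈ Qb s v z g j) (hg : g q l ≠ 0)
    (hmin : ∀ q' ∈ Qb s v z g j, g q' l ≠ 0 → ord s q ≤ ord s q') : 0 < v l * g q l := by
  obtain ⟨hs, hz, hj, hQ⟩ := mem_qb hq
  by_cases hzl : z l = 0
  · obtain ⟨p, hp⟩ := h.piv l hzl hl
    have h1 : ord s p ≤ ord s q := hp.2.2.2 q hz hg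
    have h2 : s p = true := by
      by_contra hcon
      have h3 : ord s p = m + p := by
        unfold ord
        rw [if_neg hcon]
      have h4 : ord s q = q := by
        unfold ord
        rw [if_pos hs]
      have := q.2
      omega
    have h3 : p ∈ Qb s v z g j := by
      unfold Qb Qs
      rw [Finset.mem_filter, Finset.mem_filter]
      exact ⟨⟨Finset.mem_univ _, h2, l, hzl, hl, hp⟩, lt_of_le_of_lt h1 hj⟩
    have h4 : g p l ≠ 0 := by
      intro e
      have := hp.2.1
      rw [e, mul_zero] at this
      exact lt_irrefl _ this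
    have h5 : p = q := cq_ord_inj s (le_antisymm h1 (hmin p h3 h4))
    rw [← h5]
    exact hp.2.1
  · have h1 : l = q := by
      by_contra hcon
      exact hg (h.gz q l hz hzl hcon)
    rw [h1, h.gl q hz]
    exact one_pos

/-- for small `ε` the coordinates which move are not tight -/
private theorem cq_small {L : Submodule ℝ (Fin m → ℝ)} {a : Fin m → ℝ} {s : Fin m → Bool}
    {v z : Fin m → ℝ} {g : Fin m → Fin m → ℝ} (h : Sol L a s v z g) (j : ℕ) (l : Fin m)
    (hl : |v l| ≠ 1 ∨ ∃ q ∈ Qb s v z g j, g q l ≠ 0) :
    ∀ᶠ ε in 𝓝[>] (0 : ℝ), |Yp s v z g ε j l| < 1 := by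
  have hcont : Continuous fun ε : ℝ => Yp s v z g ε j l := by
    have : (fun ε : ℝ => Yp s v z g ε j l) =
        fun ε => v l - ∑ q ∈ Qb s v z g j, ε ^ (ord s q + 1) * g q l := by
      funext ε
      exact yp_apply s v z g ε j l
    rw [this]
    fun_prop
  have h0 : Yp s v z g 0 j l = v l := by
    rw [yp_apply]
    simp
  by_cases h1 : |v l| = 1
  · have hex : ∃ q ∈ Qb s v z g j, g q l ≠ 0 := by
      rcases hl with hl | hl
      · exact absurd h1 hl
      · exact hl
    obtain ⟨q, hq, hqmin⟩ := Finset.exists_min_image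
      ((Qb s v z g j).filter fun q => g q l ≠ 0) (fun q => ord s q) (by
        obtain ⟨q, hq, hg⟩ := hex
        exact ⟨q, Finset.mem_filter.2 ⟨hq, hg⟩⟩)
    rw [Finset.mem_filter] at hq
    obtain ⟨hqb, hg⟩ := hq
    have hmin : ∀ q' ∈ Qb s v z g j, g q' l ≠ 0 → ord s q ≤ ord s q' :=
      fun q' h1 h2 => hqmin q' (Finset.mem_filter.2 ⟨h1, h2⟩)
    have hpos := cq_pos h h1 hqb hg hmin
    have hvv : v l * v l = 1 := by
      rcases (abs_eq (zero_le_one : (0 : ℝ) ≤ 1)).1 h1 with e | e <;> rw [e] <;> norm_num
    obtain ⟨f, hf⟩ : ∃ f : ℝ → ℝ, f = fun ε => ∑ q' ∈ Qb s v z g j,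
      ε ^ (ord s q' - ord s q) * (v l * g q' l) := ⟨_, rfl⟩
    have hfc : Continuous f := by
      rw [hf]; fun_prop
    have hf0 : f 0 = v l * g q l := by
      rw [hf]
      show ∑ q' ∈ Qb s v z g j, (0 : ℝ) ^ (ord s q' - ord s q) * (v l * g q' l) = _
      rw [Finset.sum_eq_single q]
      · rw [Nat.sub_self, pow_zero, one_mul]
      · intro q' hq' hne
        by_cases h2 : g q' l = 0
        · rw [h2, mul_zero, mul_zero]
        · have h3 := hmin q' hq' h2
          have h4 : ord s q ≠ ord s q' := fun e => hne (cq_ord_inj s e.symm)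
          rw [zero_pow (by omega), zero_mul]
      · intro h2
        exact absurd hqb h2
    have hid : ∀ ε : ℝ, v l * Yp s v z g ε j l = 1 - ε ^ (ord s q + 1) * f ε := by
      intro ε
      rw [yp_apply, mul_sub, hvv, hf, Finset.mul_sum, Finset.mul_sum]
      congr 1
      refine Finset.sum_congr rfl fun q' hq' => ?_
      by_cases h2 : g q' l = 0
      · rw [h2]; ring
      · have h3 := hmin q' hq' h2
        have h4 : ε ^ (ord s q' + 1) = ε ^ (ord s q + 1) * ε ^ (ord s q' - ord s q) := by
          rw [← pow_add]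
          congr 1
          omega
        rw [h4]
        ring
    have e1 : ∀ᶠ ε in 𝓝[>] (0 : ℝ), 0 < f ε := by
      apply Filter.Eventually.filter_mono nhdsWithin_le_nhds
      apply hfc.continuousAt.eventually (p := fun y => 0 < y)
      rw [hf0]
      exact lt_mem_nhds hpos
    have e2 : ∀ᶠ ε in 𝓝[>] (0 : ℝ), -1 < v l * Yp s v z g ε j l := by
      apply Filter.Eventually.filter_mono nhdsWithin_le_nhds
      have hc2 : Continuous fun ε : ℝ => v l * Yp s v z g ε j l := continuous_const.mul hcont
      apply hc2.continuousAt.eventually (p := fun y => -1 < y)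
      show ∀ᶠ y in 𝓝 (v l * Yp s v z g 0 j l), -1 < y
      rw [h0, hvv]
      exact lt_mem_nhds (by norm_num)
    filter_upwards [e1, e2, self_mem_nhdsWithin] with ε h2 h3 h4
    have h5 : v l * Yp s v z g ε j l < 1 := by
      rw [hid]
      have : 0 < ε ^ (ord s q + 1) * f ε := mul_pos (pow_pos h4 _) h2
      linarith
    have h6 : |v l * Yp s v z g ε j l| < 1 := abs_lt.2 ⟨h3, h5⟩
    rwa [abs_mul, h1, one_mul] at h6
  · have h2 : |v l| < 1 := lt_of_le_of_ne (h.vle l) h1
    apply Filter.Eventually.filter_mono nhdsWithin_le_nhds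
    have hc2 : Continuous fun ε : ℝ => |Yp s v z g ε j l| := hcont.abs
    apply hc2.continuousAt.eventually (p := fun y => y < 1)
    show ∀ᶠ y in 𝓝 |Yp s v z g 0 j l|, y < 1
    rw [h0]
    exact gt_mem_nhds h2

private theorem cq_tight {s : Fin m → Bool} {v z : Fin m → ℝ} {g : Fin m → Fin m → ℝ} {j : ℕ}
    {l : Fin m} (hl : ∀ q ∈ Qb s v z g j, g q l = 0) (ε : ℝ) : Yp s v z g ε j l = v l := by
  rw [yp_apply, Finset.sum_eq_zero, sub_zero]
  intro q hq
  rw [hl q hq, mul_zero]

/-- the pivots do not move the coordinates of the face -/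
private theorem cq_face {L : Submodule ℝ (Fin m → ℝ)} {a : Fin m → ℝ}
    {ω : Fin m → ZMod 3} {v z : Fin m → ℝ} {g : Fin m → Fin m → ℝ}
    (h : Sol L a (sb ω) v z g) {j : ℕ} {l : Fin m} (hl : Psi ω v z g l ≠ 0) :
    ∀ q ∈ Qb (sb ω) v z g j, g q l = 0 := by
  intro q hq
  obtain ⟨h1, h2, _⟩ := cq_psi hl
  obtain ⟨hs, hz, hj, hQ⟩ := mem_qb hq
  by_contra hg
  apply h2
  unfold Zs
  rw [Finset.mem_filter]
  refine ⟨Finset.mem_univ _, h1, ?_⟩
  by_cases hzl : z l = 0
  · obtain ⟨p, hp⟩ := h.piv l hzl h1
    have h3 : ord (sb ω) p ≤ ord (sb ω) q := hp.2.2.2 q hz hg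
    have h4 : sb ω p = true := by
      by_contra hcon
      have h5 : ord (sb ω) p = m + p := by
        unfold ord
        rw [if_neg hcon]
      have h6 : ord (sb ω) q = q := by
        unfold ord
        rw [if_pos hs]
      have := q.2
      omega
    right; right
    unfold Ys
    rw [Finset.mem_filter]
    exact ⟨Finset.mem_univ _, p, h4, hzl, h1, hp⟩
  · have h3 : l = q := by
      by_contra hcon
      exact hg (h.gz q l hz hzl hcon)
    right; left
    rw [h3]
    exact hQ

/-- the pivots give a chain of faces inside the face `Psi` -/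
theorem exists_chn {L : Submodule ℝ (Fin m → ℝ)} {a : Fin m → ℝ} (ha : Gen L a)
    {ω : Fin m → ZMod 3} {v z : Fin m → ℝ} {g : Fin m → Fin m → ℝ}
    (h : Sol L a (sb ω) v z g) :
    ∃ y, Chn L (Psi ω v z g) v (Qs (sb ω) v z g).card y := by
  obtain ⟨s, hs⟩ : ∃ s, s = sb ω := ⟨_, rfl⟩
  obtain ⟨t, ht⟩ : ∃ t, t = Psi ω v z g := ⟨_, rfl⟩
  have hface : ∀ j l, t l ≠ 0 → (∀ q ∈ Qb s v z g j, g q l = 0) ∧ v l = sg (t l) := by
    intro j l hl
    rw [ht] at hl ⊢
    rw [hs]
    exact ⟨cq_face h hl, (cq_psi hl).2.2⟩
  rw [← hs] at h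
  rw [← hs, ← ht]
  have hev : ∀ᶠ ε in 𝓝[>] (0 : ℝ), ∀ j : Fin (2 * m + 1), ∀ l : Fin m,
      (|v l| ≠ 1 ∨ ∃ q ∈ Qb s v z g j, g q l ≠ 0) → |Yp s v z g ε j l| < 1 := by
    rw [Filter.eventually_all]
    intro j
    rw [Filter.eventually_all]
    intro l
    by_cases hl : |v l| ≠ 1 ∨ ∃ q ∈ Qb s v z g j, g q l ≠ 0
    · filter_upwards [cq_small h j l hl] with ε hε _
      exact hε
    · exact Filter.Eventually.of_forall fun ε hc => absurd hc hl
  obtain ⟨ε, hε⟩ := hev.exists
  -- tight coordinates
  have hT : ∀ j, j ≤ 2 * m → ∀ l, |Yp s v z g ε j l| = 1 ↔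
      (|v l| = 1 ∧ ∀ q ∈ Qb s v z g j, g q l = 0) := by
    intro j hj l
    constructor
    · intro h1
      by_contra hcon
      have h2 : |v l| ≠ 1 ∨ ∃ q ∈ Qb s v z g j, g q l ≠ 0 := by
        by_contra hc
        push Not at hc
        exact hcon hc
      have h3 := hε ⟨j, by omega⟩ l h2
      exact absurd h1 (ne_of_lt h3)
    · rintro ⟨h1, h2⟩
      rw [cq_tight h2, h1]
  have hmem : ∀ j, j ≤ 2 * m → InFc L t (Yp s v z g ε j) := by
    intro j hj
    refine ⟨?_, ?_, ?_⟩
    · unfold Yp
      refine L.sub_mem h.vL (L.sum_mem fun q hq => L.smul_mem _ (h.gL q (mem_qb hq).2.1))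
    · intro l
      by_cases h1 : |v l| ≠ 1 ∨ ∃ q ∈ Qb s v z g j, g q l ≠ 0
      · exact (hε ⟨j, by omega⟩ l h1).le
      · push Not at h1
        rw [cq_tight h1.2, h1.1]
    · intro l hl
      obtain ⟨h1, h2⟩ := hface j l hl
      rw [cq_tight h1, h2]
  -- dimension of the face
  have hdim : ∀ j, j ≤ 2 * m →
      finrank ℝ (Lz L (Tt (Yp s v z g ε j))) = (Qb s v z g j).card := by
    intro j hj
    apply le_antisymm
    · let χ : Lz L (Tt (Yp s v z g ε j)) →ₗ[ℝ] ({q : Fin m // q ∈ Qb s v z g j} → ℝ) :=
        { toFun := fun w q => (w : Fin m → ℝ) q.1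
          map_add' := fun _ _ => rfl
          map_smul' := fun _ _ => rfl }
      have hχ : Function.Injective χ := by
        rw [← LinearMap.ker_eq_bot, LinearMap.ker_eq_bot']
        rintro ⟨w, hw, hw'⟩ hy
        apply Subtype.ext
        apply ha z h.orth w hw
        intro l hl
        by_cases hq : l ∈ Qb s v z g j
        · exact congrFun hy ⟨l, hq⟩
        · apply hw' l
          unfold Tt
          rw [Finset.mem_filter]
          refine ⟨Finset.mem_univ _, ?_⟩
          rw [hT j hj]
          refine ⟨h.v1 l hl, fun q hq' => h.gz q l (mem_qb hq').2.1 hl ?_⟩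
          rintro rfl
          exact hq hq'
      have h1 := LinearMap.finrank_le_finrank_of_injective hχ
      rw [Module.finrank_fintype_fun_eq_card, Fintype.card_coe] at h1
      exact h1
    · let ψ : ({q : Fin m // q ∈ Qb s v z g j} → ℝ) →ₗ[ℝ] Lz L (Tt (Yp s v z g ε j)) :=
        { toFun := fun c => ⟨∑ q : {q : Fin m // q ∈ Qb s v z g j}, c q • g q.1, by
            refine ⟨L.sum_mem fun q _ => L.smul_mem _ (h.gL q.1 (mem_qb q.2).2.1), ?_⟩
            intro l hl
            unfold Tt at hl
            rw [Finset.mem_filter] at hl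
            rw [Finset.sum_apply]
            apply Finset.sum_eq_zero
            intro q _
            rw [Pi.smul_apply, ((hT j hj l).1 hl.2).2 q.1 q.2, smul_zero]⟩
          map_add' := by
            intro c c'
            apply Subtype.ext
            simp only [Pi.add_apply, add_smul, Finset.sum_add_distrib]
            rfl
          map_smul' := by
            intro r c
            apply Subtype.ext
            simp only [Pi.smul_apply, smul_eq_mul, mul_smul, RingHom.id_apply]
            rw [← Finset.smul_sum]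
            rfl }
      have hψ : Function.Injective ψ := by
        rw [← LinearMap.ker_eq_bot, LinearMap.ker_eq_bot']
        intro c hc
        funext q
        have h1 : (∑ q' : {q : Fin m // q ∈ Qb s v z g j}, c q' • g q'.1) = 0 :=
          congrArg Subtype.val hc
        have h2 := congrFun h1 q.1
        rw [Finset.sum_apply, Finset.sum_eq_single q] at h2
        · rw [Pi.smul_apply, smul_eq_mul, Pi.zero_apply] at h2
          rcases mul_eq_zero.1 h2 with h3 | h3
          · exact h3
          · have h4 := h.gl q.1 (mem_qb q.2).2.1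
            rw [h3, mul_zero] at h4
            exact absurd h4.symm one_ne_zero
        · intro q' _ hne
          rw [Pi.smul_apply, h.gz q'.1 q.1 (mem_qb q'.2).2.1 (mem_qb q.2).2.1, smul_zero]
          intro e
          exact hne (Subtype.ext e.symm)
        · intro h3
          exact absurd (Finset.mem_univ _) h3
      have h1 := LinearMap.finrank_le_finrank_of_injective hψ
      rw [Module.finrank_fintype_fun_eq_card, Fintype.card_coe] at h1
      exact h1
  -- the chain, from the end
  have hch : ∀ k, k ≤ 2 * m → ∃ y : ℕ → Fin m → ℝ, y 0 = Yp s v z g ε (2 * m - k) ∧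
      (∀ i ≤ (Qs s v z g).card - (Qb s v z g (2 * m - k)).card, InFc L t (y i) ∧
        finrank ℝ (Lz L (Tt (y i))) = (Qb s v z g (2 * m - k)).card + i) ∧
      ∀ i < (Qs s v z g).card - (Qb s v z g (2 * m - k)).card,
        (∀ l ∈ Tt (y (i + 1)), y i l = y (i + 1) l) ∧ 2 ≤ (Tt (y i) \ Tt (y (i + 1))).card := by
    intro k
    induction k with
    | zero =>
      intro _
      have h1 : Qb s v z g (2 * m - 0) = Qs s v z g := by
        unfold Qb
        rw [Finset.filter_true_of_mem]
        intro q _
        unfold ord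
        have := q.2
        split_ifs <;> omega
      refine ⟨fun _ => Yp s v z g ε (2 * m - 0), rfl, ?_, ?_⟩
      · intro i hi
        rw [h1, Nat.sub_self, Nat.le_zero] at hi
        rw [hi]
        exact ⟨hmem _ (by omega), hdim _ (by omega)⟩
      · intro i hi
        rw [h1, Nat.sub_self] at hi
        exact absurd hi (Nat.not_lt_zero i)
    | succ k ih =>
      intro hk
      have ih' := ih (by omega)
      obtain ⟨j, hj⟩ : ∃ j, j = 2 * m - (k + 1) := ⟨_, rfl⟩
      have hj1 : 2 * m - k = j + 1 := by omega
      rw [hj1] at ih'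
      rw [← hj]
      by_cases hq : ∃ q ∈ Qs s v z g, ord s q = j
      · obtain ⟨q, hqQ, hqj⟩ := hq
        have hins : Qb s v z g (j + 1) = insert q (Qb s v z g j) := by
          ext p
          unfold Qb
          rw [Finset.mem_insert, Finset.mem_filter, Finset.mem_filter]
          constructor
          · rintro ⟨h1, h2⟩
            by_cases h3 : ord s p = j
            · left
              exact cq_ord_inj s (h3.trans hqj.symm)
            · right
              exact ⟨h1, by omega⟩
          · rintro (rfl | ⟨h1, h2⟩)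
            · exact ⟨hqQ, by omega⟩
            · exact ⟨h1, by omega⟩
        have hqn : q ∉ Qb s v z g j := by
          unfold Qb
          rw [Finset.mem_filter]
          rintro ⟨_, h2⟩
          omega
        have hcard : (Qb s v z g (j + 1)).card = (Qb s v z g j).card + 1 := by
          rw [hins, Finset.card_insert_of_notMem hqn]
        have hcle : (Qb s v z g (j + 1)).card ≤ (Qs s v z g).card :=
          Finset.card_le_card (Finset.filter_subset _ _)
        have hr : (Qs s v z g).card - (Qb s v z g j).card =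
            ((Qs s v z g).card - (Qb s v z g (j + 1)).card) + 1 := by omega
        -- the step
        have hqQ' := hqQ
        unfold Qs at hqQ'
        rw [Finset.mem_filter] at hqQ'
        obtain ⟨_, _, x, hx⟩ := hqQ'
        have hzq : z q ≠ 0 := hx.2.2.1
        have hgq : g q q ≠ 0 := by
          intro e
          have := h.gl q hzq
          rw [e, mul_zero] at this
          exact one_ne_zero this.symm
        have hgx : g q x ≠ 0 := by
          intro e
          have := hx.2.2.2.1
          rw [e, mul_zero] at this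
          exact lt_irrefl _ this
        have hxq : x ≠ q := by
          rintro rfl
          exact hzq hx.1
        have hq1 : q ∈ Qb s v z g (j + 1) := by
          rw [hins]
          exact Finset.mem_insert_self _ _
        have hstep : (∀ l ∈ Tt (Yp s v z g ε (j + 1)), Yp s v z g ε j l = Yp s v z g ε (j + 1) l) ∧
            2 ≤ (Tt (Yp s v z g ε j) \ Tt (Yp s v z g ε (j + 1))).card := by
          constructor
          · intro l hl
            unfold Tt at hl
            rw [Finset.mem_filter] at hl
            have hl' := (hT (j + 1) (by omega) l).1 hl.2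
            rw [cq_tight hl'.2 ε]
            apply cq_tight
            intro p hp
            apply hl'.2 p
            rw [hins]
            exact Finset.mem_insert_of_mem hp
          · have hsub : ({q, x} : Finset (Fin m)) ⊆
                Tt (Yp s v z g ε j) \ Tt (Yp s v z g ε (j + 1)) := by
              intro l hl
              rw [Finset.mem_sdiff]
              unfold Tt
              rw [Finset.mem_filter, Finset.mem_filter]
              rw [Finset.mem_insert, Finset.mem_singleton] at hl
              rcases hl with hl | hl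
              · refine ⟨⟨Finset.mem_univ _, (hT j (by omega) l).2 ⟨?_, fun p hp => ?_⟩⟩, ?_⟩
                · rw [hl]
                  exact h.v1 q hzq
                · rw [hl]
                  apply h.gz p q (mem_qb hp).2.1 hzq
                  rintro rfl
                  exact hqn hp
                · rintro ⟨_, h3⟩
                  have h4 := ((hT (j + 1) (by omega) l).1 h3).2 q hq1
                  rw [hl] at h4
                  exact hgq h4
              · refine ⟨⟨Finset.mem_univ _, (hT j (by omega) l).2 ⟨?_, fun p hp => ?_⟩⟩, ?_⟩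
                · rw [hl]
                  exact hx.2.1
                · rw [hl]
                  by_contra hcon
                  have h1 := hx.2.2.2.2.2 p (mem_qb hp).2.1 hcon
                  have h2 := (mem_qb hp).2.2.1
                  omega
                · rintro ⟨_, h3⟩
                  have h4 := ((hT (j + 1) (by omega) l).1 h3).2 q hq1
                  rw [hl] at h4
                  exact hgx h4
            have h1 := Finset.card_le_card hsub
            rw [Finset.card_pair (Ne.symm hxq)] at h1
            exact h1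
        obtain ⟨f, hf0, hf1, hf2⟩ := ih'
        refine ⟨fun i => Nat.casesOn i (Yp s v z g ε j) f, rfl, ?_, ?_⟩
        · intro i hi
          cases i with
          | zero => exact ⟨hmem j (by omega), hdim j (by omega)⟩
          | succ i =>
            obtain ⟨h1, h2⟩ := hf1 i (by omega)
            refine ⟨h1, ?_⟩
            show finrank ℝ (Lz L (Tt (f i))) = (Qb s v z g j).card + (i + 1)
            rw [h2, hcard]
            omega
        · intro i hi
          cases i with
          | zero =>
            show (∀ l ∈ Tt (f 0), Yp s v z g ε j l = f 0 l) ∧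
              2 ≤ (Tt (Yp s v z g ε j) \ Tt (f 0)).card
            rw [hf0]
            exact hstep
          | succ i => exact hf2 i (by omega)
      · have heq : Qb s v z g (j + 1) = Qb s v z g j := by
          ext p
          unfold Qb
          rw [Finset.mem_filter, Finset.mem_filter]
          constructor
          · rintro ⟨h1, h2⟩
            refine ⟨h1, ?_⟩
            by_contra h3
            exact hq ⟨p, h1, by omega⟩
          · rintro ⟨h1, h2⟩
            exact ⟨h1, by omega⟩
        have heqY : Yp s v z g ε (j + 1) = Yp s v z g ε j := by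
          unfold Yp
          rw [heq]
        rw [heq, heqY] at ih'
        exact ih'
  obtain ⟨y, hy0, hy1, hy2⟩ := hch (2 * m) le_rfl
  have h0 : Qb s v z g (2 * m - 2 * m) = ∅ := by
    unfold Qb
    rw [Nat.sub_self, Finset.filter_eq_empty_iff]
    intro q _
    exact Nat.not_lt_zero _
  have h0Y : Yp s v z g ε (2 * m - 2 * m) = v := by
    unfold Yp
    rw [h0, Finset.sum_empty, sub_zero]
  rw [h0Y] at hy0
  rw [h0, Finset.card_empty, Nat.sub_zero] at hy1 hy2
  refine ⟨y, hy0, fun i hi => ?_, hy2⟩
  have h1 := hy1 i hi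
  rw [Nat.zero_add] at h1
  exact h1

end Pool.Agent.LVE
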