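import Pool.Agent.LVE.CN
import Pool.Agent.LVE.GA2
import Pool.Agent.LVE.CQ
import Pool.Agent.LVE.AS3

/-!
# The weighted count with chains of faces
-/

set_option autoImplicit false

open scoped BigOperators Classical Topology

namespace Pool.Agent.LVE

open Pool.Agent.GRD Pool.Agent.VNP

variable {m : ℕ}

private theorem cnd_sg_one : sg (1 : ZMod 3) = 1 := by
  unfold sg
  rw [if_neg (by decide), if_pos rfl]

private theorem cnd_sg_two : sg (2 : ZMod 3) = -1 := by
  unfold sg
  rw [if_neg (by decide), if_neg (by decide)]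

private theorem cnd_psi {ω : Fin m → ZMod 3} {v z : Fin m → ℝ} {g : Fin m → Fin m → ℝ}
    {l : Fin m} (h : Psi ω v z g l ≠ 0) : v l = sg (Psi ω v z g l) := by
  unfold Psi at h ⊢
  by_cases h1 : |v l| = 1 ∧ l ∉ Zs ω v z g
  · rw [if_pos h1]
    by_cases h2 : v l = 1
    · rw [if_pos h2, cnd_sg_one, h2]
    · rw [if_neg h2, cnd_sg_two]
      rcases (abs_eq (zero_le_one : (0 : ℝ) ≤ 1)).1 h1.1 with h3 | h3
      · exact absurd h3 h2
      · exact h3
  · rw [if_neg h1] at h
    exact absurd rfl h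

/-- the weighted count for a generic direction -/
theorem count_gen3 (L : Submodule ℝ (Fin m → ℝ)) (a : Fin m → ℝ) (ha : Gen L a)
    (q e : (Fin m → ZMod 3) → ℕ)
    (hq : ∀ t : Fin m → ZMod 3, (∃ y ∈ L, Cell t y) → ∀ v, InFc L t v →
      (∀ y, InFc L t y → ∑ l, a l * y l ≤ ∑ l, a l * v l) →
      ∀ (r : ℕ) (y : ℕ → Fin m → ℝ), Chn L t v r y → r ≤ q t)
    (he : ∀ t : Fin m → ZMod 3, (∃ y ∈ L, Cell t y) →
      Module.finrank ℝ L + e t ≤ (Sp t).card + Module.finrank ℝ (Lz L (Sp t))) :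
    (3 : ℝ) ^ Module.finrank ℝ L ≤
      ∑ t ∈ Finset.univ.filter (fun s : Fin m → ZMod 3 => ∃ y ∈ L, Cell s y),
        (3 : ℝ) ^ q t / 3 ^ e t := by
  choose V Z G hS using fun s => exists_sol L a ha s
  obtain ⟨r, hr⟩ : ∃ r, r = Module.finrank ℝ L := ⟨_, rfl⟩
  have hrm : r ≤ m := by
    have h1 := Submodule.finrank_le L
    rw [Module.finrank_fin_fun] at h1
    omega
  have hfib : ∀ t ∈ (Finset.univ.filter fun s : Fin m → ZMod 3 => ∃ y ∈ L, Cell s y),
      ((Finset.univ.filter fun ω : Fin m → ZMod 3 =>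
        Psi ω (V (sb ω)) (Z (sb ω)) (G (sb ω)) = t).card : ℝ) ≤
        3 ^ (m - r) * ((3 : ℝ) ^ q t / 3 ^ e t) := by
    intro t ht
    obtain ⟨C, hC⟩ : ∃ C, C = Finset.univ.filter fun ω : Fin m → ZMod 3 =>
        Psi ω (V (sb ω)) (Z (sb ω)) (G (sb ω)) = t := ⟨_, rfl⟩
    have hAs : ∀ ω ∈ C,
        (As ω (V (sb ω)) (Z (sb ω)) (G (sb ω))).card + r + e t ≤ m + q t := by
      intro ω hω
      rw [hC] at hω
      have hωt : Psi ω (V (sb ω)) (Z (sb ω)) (G (sb ω)) = t := (Finset.mem_filter.1 hω).2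
      have hin : InFc L t (V (sb ω)) := by
        refine ⟨(hS (sb ω)).vL, (hS (sb ω)).vle, fun l hl => ?_⟩
        rw [← hωt] at hl ⊢
        exact cnd_psi hl
      have htop : ∀ y, InFc L t y → ∑ l, a l * y l ≤ ∑ l, a l * V (sb ω) l := by
        intro y hy
        have h3 := (CV_one (hS (sb ω)) hy.1 hy.2.1 (fun l h1 h2 => by
          have h4 : Psi ω (V (sb ω)) (Z (sb ω)) (G (sb ω)) l ≠ 0 := by
            rw [CV_psi_ne h1 h2]
            split_ifs <;> decide
          have h5 : t l ≠ 0 := by rw [← hωt]; exact h4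
          rw [hy.2.2 l h5, hin.2.2 l h5])).1
        have h6 : ∑ l, a l * (y l - V (sb ω) l) =
            ∑ l, a l * y l - ∑ l, a l * V (sb ω) l := by
          rw [← Finset.sum_sub_distrib]
          exact Finset.sum_congr rfl (fun l _ => by ring)
        linarith
      obtain ⟨y, hy⟩ := exists_chn ha (hS (sb ω))
      rw [hωt] at hy
      have h1 := hq t (Finset.mem_filter.1 ht).2 _ hin htop _ y hy
      have h2 := card_As3 ha (hS (sb ω)) (e t) (by
        rw [hωt]
        exact he t (Finset.mem_filter.1 ht).2)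
      rw [hr]
      omega
    rw [← hC]
    rcases C.eq_empty_or_nonempty with h0 | ⟨ω0, hω0⟩
    · rw [h0, Finset.card_empty]
      simp only [Nat.cast_zero]
      positivity
    · have hle : r + e t ≤ m + q t := by
        have := hAs ω0 hω0
        omega
      have h0 : C.card ≤ 3 ^ (m + q t - r - e t) := by
        apply dt (m + q t - r - e t) _ (fun ω => As ω (V (sb ω)) (Z (sb ω)) (G (sb ω)))
        · intro ω hω
          have h2 := hAs ω hω
          show (As ω (V (sb ω)) (Z (sb ω)) (G (sb ω))).card ≤ m + q t - r - e t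
          omega
        · intro C' hC' B _ hB h2
          exact cn_fibre L a ha V Z G hS C' t (fun ω hω => by
            have := hC' hω
            rw [hC] at this
            exact (Finset.mem_filter.1 this).2) B hB h2
      have e2 : (3 : ℝ) ^ (m + q t - r - e t) * 3 ^ e t = 3 ^ (m - r) * 3 ^ q t := by
        rw [← pow_add, ← pow_add]; congr 1; omega
      have h1 : (C.card : ℝ) ≤ 3 ^ (m + q t - r - e t) := by exact_mod_cast h0
      rw [← mul_div_assoc, le_div_iff₀ (by positivity), ← e2]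
      gcongr
  have hmain : ((Finset.univ : Finset (Fin m → ZMod 3)).card : ℝ) ≤
      ∑ t ∈ Finset.univ.filter (fun s : Fin m → ZMod 3 => ∃ y ∈ L, Cell s y),
        3 ^ (m - r) * ((3 : ℝ) ^ q t / 3 ^ e t) := by
    rw [Finset.card_eq_sum_card_fiberwise
      (f := fun ω : Fin m → ZMod 3 => Psi ω (V (sb ω)) (Z (sb ω)) (G (sb ω)))
      (t := Finset.univ.filter (fun s : Fin m → ZMod 3 => ∃ y ∈ L, Cell s y))
      (fun ω _ => Finset.mem_coe.2 (Finset.mem_filter.2 ⟨Finset.mem_univ _, psi_cell (hS (sb ω))⟩)),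
      Nat.cast_sum]
    exact Finset.sum_le_sum hfib
  have hcard : (Finset.univ : Finset (Fin m → ZMod 3)).card = 3 ^ m := by
    rw [Finset.card_univ, Fintype.card_fun, ZMod.card, Fintype.card_fin]
  rw [hcard, ← Finset.mul_sum] at hmain
  have e1 : ((3 ^ m : ℕ) : ℝ) = 3 ^ (m - r) * 3 ^ r := by
    rw [← pow_add, Nat.cast_pow]; congr 1; omega
  rw [e1] at hmain
  rw [← hr]
  exact le_of_mul_le_mul_left hmain (by positivity)

/-- the weighted count for an arbitrary direction `a0` -/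
theorem count_dir3 (L : Submodule ℝ (Fin m → ℝ)) (a0 : Fin m → ℝ)
    (q e : (Fin m → ZMod 3) → ℕ)
    (hq : ∀ t : Fin m → ZMod 3, (∃ y ∈ L, Cell t y) → ∀ v, InFc L t v →
      (∀ y, InFc L t y → ∑ l, a0 l * y l ≤ ∑ l, a0 l * v l) →
      ∀ (r : ℕ) (y : ℕ → Fin m → ℝ), Chn L t v r y → r ≤ q t)
    (he : ∀ t : Fin m → ZMod 3, (∃ y ∈ L, Cell t y) →
      Module.finrank ℝ L + e t ≤ (Sp t).card + Module.finrank ℝ (Lz L (Sp t))) :
    (3 : ℝ) ^ Module.finrank ℝ L ≤
      ∑ t ∈ Finset.univ.filter (fun s : Fin m → ZMod 3 => ∃ y ∈ L, Cell s y),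
        (3 : ℝ) ^ q t / 3 ^ e t := by
  by_contra hlt
  have hj : ∀ j : ℕ, ∃ (a : Fin m → ℝ) (t : Fin m → ZMod 3) (v : Fin m → ℝ) (r : ℕ)
      (y : ℕ → Fin m → ℝ),
      (∀ l, |a l - a0 l| < 1 / ((j : ℝ) + 1)) ∧ (∃ y ∈ L, Cell t y) ∧ InFc L t v ∧
      (∀ y, InFc L t y → ∑ l, a l * y l ≤ ∑ l, a l * v l) ∧ Chn L t v r y ∧ q t < r := by
    intro j
    obtain ⟨a, h1, h2⟩ := exists_gen_near L a0 (1 / ((j : ℝ) + 1)) (by positivity)
    by_contra hcon
    apply hlt
    refine count_gen3 L a h2 q e ?_ he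
    intro t ht v hv htop r y hy
    by_contra h3
    exact hcon ⟨a, t, v, r, y, h1, ht, hv, htop, hy, not_le.1 h3⟩
  choose A T V R Y hA hT hV htop hY hbig using hj
  obtain ⟨U, hU⟩ : ∃ U : Ultrafilter ℕ, (U : Filter ℕ) ≤ Filter.atTop :=
    ⟨Filter.hyperfilter ℕ, Nat.hyperfilter_le_atTop⟩
  -- the finite data are constant
  obtain ⟨pat, hpat⟩ : ∃ pat : (Fin m → ℝ) → Fin m → ZMod 3, pat = fun v l =>
      if v l = 1 then 1 else if v l = -1 then 2 else 0 := ⟨_, rfl⟩
  obtain ⟨p, hp⟩ := Ultrafilter.eq_pure_of_finite (U.map fun j => (T j, pat (V j)))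
  have hpe : ∀ᶠ j in (U : Filter ℕ), (T j, pat (V j)) = p := by
    have h1 : ∀ᶠ q in ((U.map fun j => (T j, pat (V j)) : Ultrafilter _) : Filter _), q = p := by
      rw [hp, Ultrafilter.coe_pure]
      exact Filter.eventually_pure.2 rfl
    exact h1
  obtain ⟨j0, hj0⟩ := hpe.exists
  -- the vertices are constant
  have hVc : ∀ j, (T j, pat (V j)) = p → V j = V j0 := by
    intro j hj
    have h1 : pat (V j) = pat (V j0) := by
      have e1 : pat (V j) = p.2 := by rw [← hj]
      have e2 : pat (V j0) = p.2 := by rw [← hj0]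
      rw [e1, e2]
    have h2 : Module.finrank ℝ (Lz L (Tt (V j0))) = 0 := by
      have := ((hY j0).2.1 0 (Nat.zero_le _)).2
      rw [(hY j0).1] at this
      exact this
    have h3 : V j - V j0 ∈ Lz L (Tt (V j0)) := by
      refine ⟨L.sub_mem (hV j).1 (hV j0).1, fun l hl => ?_⟩
      have hl' : |V j0 l| = 1 := (Finset.mem_filter.1 hl).2
      have h4 := congrFun h1 l
      rw [hpat] at h4
      have h10 : (1 : ZMod 3) ≠ 0 := by decide
      have h20 : (2 : ZMod 3) ≠ 0 := by decide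
      have h12 : (1 : ZMod 3) ≠ 2 := by decide
      rw [Pi.sub_apply, sub_eq_zero]
      rcases (abs_eq (zero_le_one : (0 : ℝ) ≤ 1)).1 hl' with h5 | h5
      · simp only [h5, if_true] at h4
        by_cases h6 : V j l = 1
        · rw [h6, h5]
        · rw [if_neg h6] at h4
          split_ifs at h4 with h7
          · exact absurd h4.symm h12
          · exact absurd h4.symm h10
      · have h8 : ¬ ((-1 : ℝ) = 1) := by norm_num
        simp only [h5, if_true] at h4
        rw [if_neg h8] at h4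
        by_cases h6 : V j l = 1
        · rw [if_pos h6] at h4
          exact absurd h4 h12
        · rw [if_neg h6] at h4
          by_cases h7 : V j l = -1
          · rw [h7, h5]
          · rw [if_neg h7] at h4
            exact absurd h4.symm h20
    have h4 : Lz L (Tt (V j0)) = ⊥ := Submodule.finrank_eq_zero.1 h2
    rw [h4, Submodule.mem_bot] at h3
    exact sub_eq_zero.1 h3
  have hAt : ∀ l, Filter.Tendsto (fun j => A j l) (U : Filter ℕ) (𝓝 (a0 l)) := by
    intro l
    refine Filter.Tendsto.mono_left ?_ hU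
    rw [tendsto_iff_dist_tendsto_zero]
    refine squeeze_zero (fun _ => dist_nonneg) (fun j => ?_) tendsto_one_div_add_atTop_nhds_zero_nat
    rw [Real.dist_eq]
    exact (hA j l).le
  have h4 := hq (T j0) (hT j0) (V j0) (hV j0) (by
    intro y hy
    have e1 : Filter.Tendsto (fun j => ∑ l, A j l * y l) (U : Filter ℕ) (𝓝 (∑ l, a0 l * y l)) :=
      tendsto_finsetSum _ fun l _ => (hAt l).mul_const _
    have e2 : Filter.Tendsto (fun j => ∑ l, A j l * V j0 l) (U : Filter ℕ)
        (𝓝 (∑ l, a0 l * V j0 l)) :=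
      tendsto_finsetSum _ fun l _ => (hAt l).mul_const _
    refine le_of_tendsto_of_tendsto e1 e2 ?_
    filter_upwards [hpe] with j hj
    have h5 := hVc j hj
    have h6 : T j = T j0 := by
      have e1 : T j = p.1 := by rw [← hj]
      have e2 : T j0 = p.1 := by rw [← hj0]
      rw [e1, e2]
    have h7 := htop j y (by rw [h6]; exact hy)
    rw [h5] at h7
    exact h7) (R j0) (Y j0) (hY j0)
  have h5 := hbig j0
  omega

end Pool.Agent.LVE
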