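import Pool.Agent.LVE.CN

/-!
# The weighted count
-/

set_option autoImplicit false

open scoped BigOperators Classical

namespace Pool.Agent.LVE

open Pool.Agent.GRD Pool.Agent.VNP

variable {m : ℕ}

private theorem cnw_sg_one : sg (1 : ZMod 3) = 1 := by
  unfold sg
  rw [if_neg (by decide), if_pos rfl]

private theorem cnw_sg_two : sg (2 : ZMod 3) = -1 := by
  unfold sg
  rw [if_neg (by decide), if_neg (by decide)]

private theorem cnw_psi {ω : Fin m → ZMod 3} {v z : Fin m → ℝ} {g : Fin m → Fin m → ℝ}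
    {l : Fin m} (h : Psi ω v z g l ≠ 0) : v l = sg (Psi ω v z g l) := by
  unfold Psi at h ⊢
  by_cases h1 : |v l| = 1 ∧ l ∉ Zs ω v z g
  · rw [if_pos h1]
    by_cases h2 : v l = 1
    · rw [if_pos h2, cnw_sg_one, h2]
    · rw [if_neg h2, cnw_sg_two]
      rcases (abs_eq (zero_le_one : (0 : ℝ) ≤ 1)).1 h1.1 with h3 | h3
      · exact absurd h3 h2
      · exact h3
  · rw [if_neg h1] at h
    exact absurd rfl h

/-- the weighted count: the sum over the faces `t` of `3 ^ w t` is at least `3 ^ dim L` if `w t` bounds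
the excess of the points of the face `t` -/
theorem count_w (L : Submodule ℝ (Fin m → ℝ)) (w : (Fin m → ZMod 3) → ℕ)
    (hw : ∀ t : Fin m → ZMod 3, (∃ y ∈ L, Cell t y) → ∀ y ∈ L, (∀ l, |y l| ≤ 1) →
      (∀ l, t l ≠ 0 → y l = sg (t l)) → (Tt y).card ≤ Module.finrank ℝ L + w t) :
    3 ^ Module.finrank ℝ L ≤
      ∑ t ∈ Finset.univ.filter (fun s : Fin m → ZMod 3 => ∃ y ∈ L, Cell s y), 3 ^ w t := by
  obtain ⟨a, ha⟩ := exists_gen L
  choose V Z G hS using fun s => exists_sol L a ha s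
  obtain ⟨r, hr⟩ : ∃ r, r = Module.finrank ℝ L := ⟨_, rfl⟩
  have hrm : r ≤ m := by
    have h1 := Submodule.finrank_le L
    rw [Module.finrank_fin_fun] at h1
    omega
  have hfib : ∀ t ∈ (Finset.univ.filter fun s : Fin m → ZMod 3 => ∃ y ∈ L, Cell s y),
      (Finset.univ.filter fun ω : Fin m → ZMod 3 =>
        Psi ω (V (sb ω)) (Z (sb ω)) (G (sb ω)) = t).card ≤ 3 ^ (m - r) * 3 ^ w t := by
    intro t ht
    have h0 : (Finset.univ.filter fun ω : Fin m → ZMod 3 =>
        Psi ω (V (sb ω)) (Z (sb ω)) (G (sb ω)) = t).card ≤ 3 ^ (m + w t - r) := by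
      apply dt (m + w t - r) _ (fun ω => As ω (V (sb ω)) (Z (sb ω)) (G (sb ω)))
      · intro ω hω
        have hωt : Psi ω (V (sb ω)) (Z (sb ω)) (G (sb ω)) = t := (Finset.mem_filter.1 hω).2
        have h1 := card_As ha (hS (sb ω)) (w t) (hw t (Finset.mem_filter.1 ht).2 _
          (hS (sb ω)).vL (hS (sb ω)).vle (fun l hl => by
            rw [← hωt] at hl ⊢
            exact cnw_psi hl))
        have h2 : (As ω (V (sb ω)) (Z (sb ω)) (G (sb ω))).card + r ≤ m + w t := by
          rw [hr]; exact h1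
        show (As ω (V (sb ω)) (Z (sb ω)) (G (sb ω))).card ≤ m + w t - r
        omega
      · intro C' hC' B _ hB h2
        exact cn_fibre L a ha V Z G hS C' t (fun ω hω => (Finset.mem_filter.1 (hC' hω)).2) B hB h2
    have e2 : 3 ^ (m + w t - r) = 3 ^ (m - r) * 3 ^ w t := by
      rw [← pow_add]; congr 1; omega
    rw [← e2]
    exact h0
  have hmain : (Finset.univ : Finset (Fin m → ZMod 3)).card ≤
      ∑ t ∈ Finset.univ.filter (fun s : Fin m → ZMod 3 => ∃ y ∈ L, Cell s y),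
        3 ^ (m - r) * 3 ^ w t := by
    rw [Finset.card_eq_sum_card_fiberwise
      (f := fun ω : Fin m → ZMod 3 => Psi ω (V (sb ω)) (Z (sb ω)) (G (sb ω)))
      (t := Finset.univ.filter (fun s : Fin m → ZMod 3 => ∃ y ∈ L, Cell s y))
      (fun ω _ => Finset.mem_coe.2 (Finset.mem_filter.2 ⟨Finset.mem_univ _, psi_cell (hS (sb ω))⟩))]
    exact Finset.sum_le_sum hfib
  have hcard : (Finset.univ : Finset (Fin m → ZMod 3)).card = 3 ^ m := by
    rw [Finset.card_univ, Fintype.card_fun, ZMod.card, Fintype.card_fin]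
  rw [hcard, ← Finset.mul_sum] at hmain
  have e1 : 3 ^ m = 3 ^ (m - r) * 3 ^ r := by
    rw [← pow_add]; congr 1; omega
  rw [e1] at hmain
  rw [← hr]
  exact Nat.le_of_mul_le_mul_left hmain (by positivity)

end Pool.Agent.LVE
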