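import Pool.Agent.GRD.Geom

/-!
# Faces of centrally symmetric polytopes with bounded vertex excess: definitions

`L` is a subspace of `ℝ^m`, the polytope is `L ∩ [-1,1]^m`, `a` is a generic functional.
-/

set_option autoImplicit false

open scoped BigOperators Classical

namespace Pool.Agent.LVE

noncomputable section

open Pool.Agent.GRD

variable {m : ℕ}

/-- `z` is orthogonal to `L` -/
def Orth (L : Submodule ℝ (Fin m → ℝ)) (z : Fin m → ℝ) : Prop :=
  ∀ y ∈ L, ∑ l, z l * y l = 0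

/-- `y l` belongs to `ρ l • Sgn (z l)` -/
def InSgn (ρ z y : Fin m → ℝ) : Prop :=
  ∀ l, (0 < z l → y l = ρ l) ∧ (z l < 0 → y l = -ρ l) ∧ |y l| ≤ |ρ l|

/-- `a` is generic for `L`: on the affine space `L^⊥ - a` the zero coordinates are independent -/
def Gen (L : Submodule ℝ (Fin m → ℝ)) (a : Fin m → ℝ) : Prop :=
  ∀ z : Fin m → ℝ, Orth L (fun l => z l + a l) → ∀ y ∈ L, (∀ l, z l ≠ 0 → y l = 0) → y = 0

/-- no solution at infinity -/
def NonInf (L : Submodule ℝ (Fin m → ℝ)) (ρ : Fin m → ℝ) : Prop :=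
  ∀ w : Fin m → ℝ, Orth L w → w ≠ 0 → ¬ ∃ y ∈ L, ∀ l, (0 < w l → y l = ρ l) ∧ (w l < 0 → y l = -ρ l)

/-- the sign: `-1` if `s l` -/
def ev (s : Fin m → Bool) (l : Fin m) : ℝ := if s l then -1 else 1

/-- the order: first the `l` with `s l`, then the others -/
def ord (s : Fin m → Bool) (l : Fin m) : ℕ := if s l then (l : ℕ) else m + l

/-- `l` is the pivot of `x` -/
def IsP (s : Fin m → Bool) (v z : Fin m → ℝ) (g : Fin m → Fin m → ℝ) (x l : Fin m) : Prop :=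
  z l ≠ 0 ∧ 0 < v x * g l x ∧ ord s l < ord s x ∧
    ∀ l', z l' ≠ 0 → g l' x ≠ 0 → ord s l ≤ ord s l'

/-- combinatorial solution for the sign vector `s` -/
structure Sol (L : Submodule ℝ (Fin m → ℝ)) (a : Fin m → ℝ) (s : Fin m → Bool)
    (v z : Fin m → ℝ) (g : Fin m → Fin m → ℝ) : Prop where
  orth : Orth L (fun l => z l + a l)
  vL : v ∈ L
  vle : ∀ l, |v l| ≤ 1
  v1 : ∀ l, z l ≠ 0 → |v l| = 1
  vz : ∀ l, v l * z l = ev s l * |z l|
  gL : ∀ l, z l ≠ 0 → g l ∈ L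
  gl : ∀ l, z l ≠ 0 → v l * g l l = 1
  gz : ∀ l l', z l ≠ 0 → z l' ≠ 0 → l' ≠ l → g l l' = 0
  surj : ∀ c : Fin m → ℝ, ∃ w, Orth L w ∧ ∀ x, z x = 0 → w x = c x
  piv : ∀ x, z x = 0 → |v x| = 1 → ∃ l, IsP s v z g x l

/-- `x` is tight, zero for `z`, and has the pivot `q` -/
def PX (s : Fin m → Bool) (v z : Fin m → ℝ) (g : Fin m → Fin m → ℝ) (x q : Fin m) : Prop :=
  z x = 0 ∧ |v x| = 1 ∧ IsP s v z g x q

/-- elements with a pivot in the negative part -/
def Ys (s : Fin m → Bool) (v z : Fin m → ℝ) (g : Fin m → Fin m → ℝ) : Finset (Fin m) :=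
  Finset.univ.filter fun x => ∃ q, s q = true ∧ PX s v z g x q

/-- pivots in the negative part -/
def Qs (s : Fin m → Bool) (v z : Fin m → ℝ) (g : Fin m → Fin m → ℝ) : Finset (Fin m) :=
  Finset.univ.filter fun q => s q = true ∧ ∃ x, PX s v z g x q

/-- sign vector of a ternary word: `1` is plus, `0` and `2` are minus -/
def sb (ω : Fin m → ZMod 3) (l : Fin m) : Bool := decide (ω l ≠ 1)

/-- tight coordinates -/
def Tt (v : Fin m → ℝ) : Finset (Fin m) := Finset.univ.filter fun l => |v l| = 1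

/-- slack set (tight coordinates that become free) -/
def Zs (ω : Fin m → ZMod 3) (v z : Fin m → ℝ) (g : Fin m → Fin m → ℝ) : Finset (Fin m) :=
  Finset.univ.filter fun l => |v l| = 1 ∧
    (ω l = 0 ∨ l ∈ Qs (sb ω) v z g ∨ l ∈ Ys (sb ω) v z g)

/-- the face of the word `ω` -/
def Psi (ω : Fin m → ZMod 3) (v z : Fin m → ℝ) (g : Fin m → Fin m → ℝ) (l : Fin m) : ZMod 3 :=
  if |v l| = 1 ∧ l ∉ Zs ω v z g then (if v l = 1 then 1 else 2) else 0

/-- the queried coordinates of the word `ω` -/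
def As (ω : Fin m → ZMod 3) (v z : Fin m → ℝ) (g : Fin m → Fin m → ℝ) : Finset (Fin m) :=
  (Ys (sb ω) v z g ∪ Qs (sb ω) v z g) ∪ (Tt v)ᶜ

end

end Pool.Agent.LVE
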