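import Pool.Agent.LVE.Defs

/-!
# Chains of faces: definitions
-/

set_option autoImplicit false

open scoped BigOperators Classical

namespace Pool.Agent.LVE

noncomputable section

open Pool.Agent.GRD

variable {m : ℕ}

/-- the points of the closed face `t` -/
def InFc (L : Submodule ℝ (Fin m → ℝ)) (t : Fin m → ZMod 3) (y : Fin m → ℝ) : Prop :=
  y ∈ L ∧ (∀ l, |y l| ≤ 1) ∧ ∀ l, t l ≠ 0 → y l = sg (t l)

/-- the vectors of `L` that vanish on `S` -/
def Lz (L : Submodule ℝ (Fin m → ℝ)) (S : Finset (Fin m)) : Submodule ℝ (Fin m → ℝ) where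
  carrier := {w | w ∈ L ∧ ∀ l ∈ S, w l = 0}
  add_mem' := fun ha hb => ⟨L.add_mem ha.1 hb.1, fun l hl => by
    rw [Pi.add_apply, ha.2 l hl, hb.2 l hl, add_zero]⟩
  zero_mem' := ⟨L.zero_mem, fun _ _ => rfl⟩
  smul_mem' := fun c _ ha => ⟨L.smul_mem c ha.1, fun l hl => by
    rw [Pi.smul_apply, ha.2 l hl, smul_zero]⟩

/-- the support of a sign vector -/
def Sp (t : Fin m → ZMod 3) : Finset (Fin m) := Finset.univ.filter fun l => t l ≠ 0

/-- `y 0 = v, y 1, …, y r` are points of the face `t`, the dimension of the face of `y i` is `i`, `y i` lies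
in the face of `y (i + 1)`, and at least two coordinates that are tight at `y i` are not tight at
`y (i + 1)` -/
def Chn (L : Submodule ℝ (Fin m → ℝ)) (t : Fin m → ZMod 3) (v : Fin m → ℝ) (r : ℕ)
    (y : ℕ → Fin m → ℝ) : Prop :=
  y 0 = v ∧ (∀ i ≤ r, InFc L t (y i) ∧ Module.finrank ℝ (Lz L (Tt (y i))) = i) ∧
    ∀ i < r, (∀ l ∈ Tt (y (i + 1)), y i l = y (i + 1) l) ∧ 2 ≤ (Tt (y i) \ Tt (y (i + 1))).card

end

end Pool.Agent.LVE
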