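import Pool.Agent.LVE.EY

/-!
# LVE: a solution with `z + L^⊥` minimal
-/

set_option autoImplicit false

open scoped BigOperators Classical

namespace Pool.Agent.LVE

open Pool.Agent.GRD

variable {m : ℕ}

/-- number of zeros -/
noncomputable def EV_nz (z : Fin m → ℝ) : ℕ := (Finset.univ.filter fun l => z l = 0).card

theorem EV_orth_add (L : Submodule ℝ (Fin m → ℝ)) (a z w : Fin m → ℝ) (t : ℝ)
    (h : Orth L (fun l => z l + a l)) (hw : Orth L w) :
    Orth L (fun l => (z l + t * w l) + a l) := by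
  intro y hy
  have h1 := h y hy
  have h2 := hw y hy
  have h3 : ∑ l, ((z l + t * w l) + a l) * y l =
      ∑ l, (z l + a l) * y l + t * ∑ l, w l * y l := by
    rw [Finset.mul_sum, ← Finset.sum_add_distrib]
    exact Finset.sum_congr rfl fun l _ => by ring
  rw [h3, h1, h2]; ring

/-- moving along `w` until the first zero keeps the signs -/
theorem EV_step (z w : Fin m → ℝ) (hw : w ≠ 0) (hz : ∀ l, z l = 0 → w l = 0) :
    ∃ t : ℝ, (∀ l, 0 < z l + t * w l → 0 < z l) ∧ (∀ l, z l + t * w l < 0 → z l < 0) ∧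
      ∃ l, z l ≠ 0 ∧ z l + t * w l = 0 := by
  have hne : (Finset.univ.filter fun l => w l ≠ 0).Nonempty := by
    by_contra hcon
    rw [Finset.not_nonempty_iff_eq_empty] at hcon
    apply hw
    funext l
    by_contra hl
    have hl' : w l ≠ 0 := hl
    have : l ∈ (Finset.univ.filter fun l => w l ≠ 0) := by simp [hl']
    rw [hcon] at this
    simp at this
  obtain ⟨l0, hl0, hmin⟩ := Finset.exists_min_image _ (fun l => |z l / w l|) hne
  simp only [Finset.mem_filter, Finset.mem_univ, true_and] at hl0 hmin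
  have key : ∀ l, |(z l0 / w l0) * w l| ≤ |z l| := by
    intro l
    by_cases hl : w l = 0
    · simp [hl]
    · have h1 := hmin l hl
      have h2 : 0 < |w l| := abs_pos.mpr hl
      rw [abs_mul]
      calc |z l0 / w l0| * |w l| ≤ |z l / w l| * |w l| :=
            mul_le_mul_of_nonneg_right h1 h2.le
        _ = |z l| := by rw [← abs_mul, div_mul_cancel₀ _ hl]
  refine ⟨-(z l0 / w l0), ?_, ?_, l0, fun h => hl0 (hz l0 h), ?_⟩
  · intro l hl
    have h1 := key l
    by_contra hcon
    rw [not_lt] at hcon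
    rw [abs_of_nonpos hcon] at h1
    have h2 := neg_abs_le ((z l0 / w l0) * w l)
    linarith
  · intro l hl
    have h1 := key l
    by_contra hcon
    rw [not_lt] at hcon
    rw [abs_of_nonneg hcon] at h1
    have h2 := le_abs_self ((z l0 / w l0) * w l)
    linarith
  · have : z l0 / w l0 * w l0 = z l0 := div_mul_cancel₀ _ hl0
    linarith

theorem exists_vertex (L : Submodule ℝ (Fin m → ℝ)) (a ρ : Fin m → ℝ) :
    ∃ y ∈ L, ∃ z : Fin m → ℝ, Orth L (fun l => z l + a l) ∧ InSgn ρ z y ∧
      ∀ w : Fin m → ℝ, Orth L w → (∀ l, z l = 0 → w l = 0) → w = 0 := by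
  obtain ⟨y, hy, z0, hz0, hs0⟩ := exists_all L a ρ
  have hP : ∃ n, ∃ z : Fin m → ℝ, Orth L (fun l => z l + a l) ∧ InSgn ρ z y ∧
      n = m - EV_nz z := ⟨_, z0, hz0, hs0, rfl⟩
  obtain ⟨z, hz, hs, hn⟩ := Nat.find_spec hP
  refine ⟨y, hy, z, hz, hs, ?_⟩
  intro w hw hwz
  by_contra hw0
  obtain ⟨t, hp, hm, l0, hl0, hl1⟩ := EV_step z w hw0 hwz
  have hle : EV_nz z ≤ m := by
    have := Finset.card_filter_le (Finset.univ : Finset (Fin m)) (fun l => z l = 0)
    simpa [EV_nz] using this
  have hle' : EV_nz (fun l => z l + t * w l) ≤ m := by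
    have := Finset.card_filter_le (Finset.univ : Finset (Fin m)) (fun l => z l + t * w l = 0)
    simpa [EV_nz] using this
  have hlt : EV_nz z < EV_nz (fun l => z l + t * w l) := by
    apply Finset.card_lt_card
    rw [Finset.ssubset_iff_of_subset]
    · refine ⟨l0, ?_, ?_⟩
      · simp [hl1]
      · simp [hl0]
    · intro l hl
      simp only [Finset.mem_filter, Finset.mem_univ, true_and] at hl ⊢
      rw [hl, hwz l hl]; ring
  have hmin : Nat.find hP ≤ m - EV_nz (fun l => z l + t * w l) := by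
    apply Nat.find_min'
    refine ⟨_, EV_orth_add L a z w t hz hw, ?_, rfl⟩
    intro l
    exact ⟨fun h => (hs l).1 (hp l h), fun h => (hs l).2.1 (hm l h), (hs l).2.2⟩
  omega

end Pool.Agent.LVE
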