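import Pool.Agent.LVE.BF

/-! Row EX: a solution without solutions at infinity -/

set_option autoImplicit false

open scoped BigOperators Classical

namespace Pool.Agent.LVE

open Pool.Agent.GRD

variable {m : ℕ}

/-- clamp to `[-1, 1]` -/
private noncomputable def exc (u : ℝ) : ℝ := max (-1) (min 1 u)

private theorem exc_neg (u : ℝ) : exc (-u) = -exc u := by
  unfold exc
  rcases le_total 1 u with h | h
  · rw [min_eq_left h, min_eq_right (by linarith : -u ≤ 1), max_eq_left (by linarith : -u ≤ -1),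
      max_eq_right (by norm_num : (-1 : ℝ) ≤ 1)]
  · rcases le_total u (-1) with h2 | h2
    · rw [min_eq_right h, min_eq_left (by linarith : 1 ≤ -u), max_eq_left h2,
        max_eq_right (by norm_num : (-1 : ℝ) ≤ 1), neg_neg]
    · rw [min_eq_right h, min_eq_right (by linarith : -u ≤ 1), max_eq_right h2,
        max_eq_right (by linarith : -1 ≤ -u)]

private theorem exc_abs (u : ℝ) : |exc u| ≤ 1 := by
  unfold exc
  rw [abs_le]
  exact ⟨le_max_left _ _, max_le (by norm_num) (min_le_left _ _)⟩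

private theorem exc_one {u : ℝ} (h : 1 ≤ u) : exc u = 1 := by
  unfold exc
  rw [min_eq_left h, max_eq_right (by norm_num : (-1 : ℝ) ≤ 1)]

private theorem exc_mone {u : ℝ} (h : u ≤ -1) : exc u = -1 := by
  unfold exc
  rw [min_eq_right (by linarith : u ≤ 1), max_eq_left h]

private theorem exc_cont : Continuous exc := by
  unfold exc
  fun_prop

/-- the scaling factor -/
private noncomputable def exs {k : ℕ} (j : ℕ) (n : Fin k → ℝ) : ℝ :=
  max 0 (min 1 (2 - ‖n‖ / (j + 1)))

private theorem exs_zero {k : ℕ} (j : ℕ) (n : Fin k → ℝ) (h : 2 * ((j : ℝ) + 1) ≤ ‖n‖) :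
    exs j n = 0 := by
  unfold exs
  have h1 : (0 : ℝ) < (j : ℝ) + 1 := by positivity
  have h2 : 2 ≤ ‖n‖ / (j + 1) := by
    rw [le_div_iff₀ h1]
    exact h
  exact max_eq_left ((min_le_right _ _).trans (by linarith))

private theorem exs_one {k : ℕ} (j : ℕ) (n : Fin k → ℝ) (h : ‖n‖ ≤ (j : ℝ) + 1) :
    exs j n = 1 := by
  unfold exs
  have h1 : (0 : ℝ) < (j : ℝ) + 1 := by positivity
  have h2 : ‖n‖ / (j + 1) ≤ 1 := by
    rw [div_le_one h1]
    exact h
  rw [min_eq_left (by linarith), max_eq_right (by norm_num : (0 : ℝ) ≤ 1)]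

private theorem exs_abs {k : ℕ} (j : ℕ) (n : Fin k → ℝ) : |exs j n| ≤ 1 := by
  unfold exs
  rw [abs_le]
  exact ⟨le_trans (by norm_num) (le_max_left _ _), max_le (by norm_num) (min_le_left _ _)⟩

private theorem exs_cont {k : ℕ} (j : ℕ) : Continuous (exs (k := k) j) := by
  unfold exs
  fun_prop

private theorem ex_dorth (L : Submodule ℝ (Fin m → ℝ)) (y : Fin m → ℝ)
    (h : ∀ w, Orth L w → ∑ l, w l * y l = 0) : y ∈ L := by
  by_contra hy
  obtain ⟨f, hf, hL⟩ := Submodule.exists_le_ker_of_notMem hy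
  have hrep : ∀ x : Fin m → ℝ, f x = ∑ l, f (Pi.single l 1) * x l := by
    intro x
    conv_lhs => rw [← LinearMap.sum_single_apply (fun _ : Fin m => ℝ) x]
    rw [map_sum]
    refine Finset.sum_congr rfl fun l _ => ?_
    have h1 : (Pi.single l (x l) : Fin m → ℝ) = x l • Pi.single l (1 : ℝ) := by
      rw [← Pi.single_smul, smul_eq_mul, mul_one]
    rw [h1, map_smul, smul_eq_mul, mul_comm]
  apply hf
  rw [hrep]
  apply h
  intro x hx
  rw [← hrep]
  exact LinearMap.mem_ker.1 (hL hx)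

private def exM (L : Submodule ℝ (Fin m → ℝ)) : Submodule ℝ (Fin m → ℝ) where
  carrier := {w | Orth L w}
  zero_mem' := fun y _ => by simp
  add_mem' := by
    intro w w' h h' y hy
    have h1 := h y hy
    have h2 := h' y hy
    simp only [Pi.add_apply, add_mul, Finset.sum_add_distrib, h1, h2, add_zero]
  smul_mem' := by
    intro c w h y hy
    have h1 := h y hy
    simp only [Pi.smul_apply, smul_eq_mul, mul_assoc, ← Finset.mul_sum, h1, mul_zero]

private theorem ex_param (L : Submodule ℝ (Fin m → ℝ)) :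
    ∃ (k : ℕ) (b : Fin k → Fin m → ℝ), (∀ n : Fin k → ℝ, Orth L (fun l => ∑ i, n i * b i l)) ∧
      (∀ n : Fin k → ℝ, (fun l => ∑ i, n i * b i l) = 0 → n = 0) ∧
      (∀ w, Orth L w → ∃ n : Fin k → ℝ, w = fun l => ∑ i, n i * b i l) := by
  let B := Module.finBasis ℝ (exM L)
  have hcoe : ∀ n : Fin (Module.finrank ℝ (exM L)) → ℝ,
      ((∑ i, n i • B i : exM L) : Fin m → ℝ) = fun l => ∑ i, n i * (B i : Fin m → ℝ) l := by
    intro n
    funext l
    rw [Submodule.coe_sum, Finset.sum_apply]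
    rfl
  refine ⟨Module.finrank ℝ (exM L), fun i => (B i : Fin m → ℝ), ?_, ?_, ?_⟩
  · intro n
    rw [← hcoe]
    exact (∑ i, n i • B i : exM L).2
  · intro n hn
    rw [← hcoe] at hn
    have h1 : (∑ i, n i • B i : exM L) = 0 := Subtype.ext hn
    exact funext fun i => Fintype.linearIndependent_iff.1 B.linearIndependent n h1 i
  · intro w hw
    refine ⟨fun i => B.repr ⟨w, hw⟩ i, ?_⟩
    rw [← hcoe, B.sum_repr]

/-- the approximate solution -/
private noncomputable def exy {k : ℕ} (b : Fin k → Fin m → ℝ) (a ρ : Fin m → ℝ) (j : ℕ)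
    (n : Fin k → ℝ) (l : Fin m) : ℝ :=
  ρ l * exc ((∑ i, n i * b i l - exs j n * a l) * ((j : ℝ) + 1))

private theorem ex_step (L : Submodule ℝ (Fin m → ℝ)) (a ρ : Fin m → ℝ) {k : ℕ}
    (b : Fin k → Fin m → ℝ)
    (hb : ∀ w, Orth L w → ∃ n : Fin k → ℝ, w = fun l => ∑ i, n i * b i l) (j : ℕ) :
    ∃ n : Fin k → ℝ, exy b a ρ j n ∈ L := by
  have hcont : Continuous fun n : Fin k → ℝ => fun i => ∑ l, exy b a ρ j n l * b i l := by
    apply continuous_pi
    intro i
    apply continuous_finsetSum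
    intro l _
    unfold exy
    have h1 : Continuous fun n : Fin k → ℝ => ∑ i, n i * b i l :=
      continuous_finsetSum _ fun i _ => (continuous_apply i).mul continuous_const
    exact (continuous_const.mul (exc_cont.comp ((h1.sub ((exs_cont j).mul
      continuous_const)).mul continuous_const))).mul continuous_const
  obtain ⟨n, hn⟩ := zero_of_odd_far k _ hcont (2 * ((j : ℝ) + 1)) (by
    intro x hx
    funext i
    show ∑ l, exy b a ρ j (-x) l * b i l = -∑ l, exy b a ρ j x l * b i l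
    rw [← Finset.sum_neg_distrib]
    refine Finset.sum_congr rfl fun l _ => ?_
    rw [← neg_mul]
    congr 1
    unfold exy
    rw [exs_zero j x hx, exs_zero j (-x) (by rw [norm_neg]; exact hx), ← mul_neg, ← exc_neg]
    congr 2
    simp only [Pi.neg_apply, neg_mul, Finset.sum_neg_distrib, zero_mul, sub_zero])
  refine ⟨n, ex_dorth L _ fun w hw => ?_⟩
  obtain ⟨c, rfl⟩ := hb w hw
  calc ∑ l, (∑ i, c i * b i l) * exy b a ρ j n l
      = ∑ i, c i * ∑ l, exy b a ρ j n l * b i l := by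
        simp only [Finset.sum_mul, Finset.mul_sum]
        rw [Finset.sum_comm]
        refine Finset.sum_congr rfl fun i _ => Finset.sum_congr rfl fun l _ => by ring
    _ = 0 := by
        refine Finset.sum_eq_zero fun i _ => ?_
        have := congrFun hn i
        rw [this, Pi.zero_apply, mul_zero]

private theorem ex_le {k : ℕ} (b : Fin k → Fin m → ℝ) (a ρ : Fin m → ℝ) (j : ℕ)
    (n : Fin k → ℝ) (l : Fin m) : |exy b a ρ j n l| ≤ |ρ l| := by
  unfold exy
  rw [abs_mul]
  exact mul_le_of_le_one_right (abs_nonneg _) (exc_abs _)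

open Filter Topology in
/-- the limit of the values -/
private theorem ex_lim {k : ℕ} (b : Fin k → Fin m → ℝ) (a ρ : Fin m → ℝ) (n : ℕ → Fin k → ℝ)
    (ψ : ℕ → ℕ) (hψ : StrictMono ψ) (y : Fin m → ℝ)
    (hy : Tendsto (fun j => exy b a ρ (ψ j) (n (ψ j))) atTop (𝓝 y)) (l : Fin m)
    (r : ℕ → ℝ) (hr : ∀ᶠ j in atTop, 1 ≤ r j) (c : ℝ)
    (hc : Tendsto (fun j => (∑ i, n (ψ j) i * b i l - exs (ψ j) (n (ψ j)) * a l) / r j)
      atTop (𝓝 c)) :
    (0 < c → y l = ρ l) ∧ (c < 0 → y l = -ρ l) := by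
  have hyl : Tendsto (fun j => exy b a ρ (ψ j) (n (ψ j)) l) atTop (𝓝 (y l)) :=
    (tendsto_pi_nhds.1 hy) l
  have hbig : Tendsto (fun j => ((ψ j : ℕ) : ℝ) + 1) atTop atTop :=
    tendsto_atTop_add_const_right _ _ (tendsto_natCast_atTop_atTop.comp hψ.tendsto_atTop)
  constructor
  · intro hpos
    have h1 : ∀ᶠ j in atTop, c / 2
        < (∑ i, n (ψ j) i * b i l - exs (ψ j) (n (ψ j)) * a l) / r j :=
      hc.eventually (lt_mem_nhds (by linarith))
    have h2 : ∀ᶠ j in atTop, 2 / c ≤ ((ψ j : ℕ) : ℝ) + 1 := hbig.eventually_ge_atTop _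
    have h3 : ∀ᶠ j in atTop, exy b a ρ (ψ j) (n (ψ j)) l = ρ l := by
      filter_upwards [h1, h2, hr] with j h1 h2 h3
      unfold exy
      rw [exc_one, mul_one]
      have h4 : 0 < r j := by linarith
      rw [lt_div_iff₀ h4] at h1
      have h5 : c / 2 ≤ ∑ i, n (ψ j) i * b i l - exs (ψ j) (n (ψ j)) * a l := by
        have : c / 2 * 1 ≤ c / 2 * r j := mul_le_mul_of_nonneg_left h3 (by linarith)
        linarith
      calc (1 : ℝ) = c / 2 * (2 / c) := by field_simp
        _ ≤ _ := mul_le_mul h5 h2 (by positivity) (by linarith)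
    exact tendsto_nhds_unique hyl (tendsto_const_nhds.congr' (h3.mono fun j hj => hj.symm))
  · intro hneg
    have h1 : ∀ᶠ j in atTop,
        (∑ i, n (ψ j) i * b i l - exs (ψ j) (n (ψ j)) * a l) / r j < c / 2 :=
      hc.eventually (gt_mem_nhds (by linarith))
    have h2 : ∀ᶠ j in atTop, 2 / (-c) ≤ ((ψ j : ℕ) : ℝ) + 1 := hbig.eventually_ge_atTop _
    have h3 : ∀ᶠ j in atTop, exy b a ρ (ψ j) (n (ψ j)) l = -ρ l := by
      filter_upwards [h1, h2, hr] with j h1 h2 h3
      unfold exy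
      rw [exc_mone, mul_neg, mul_one]
      have h4 : 0 < r j := by linarith
      rw [div_lt_iff₀ h4] at h1
      have h5 : (-c) / 2 ≤ -(∑ i, n (ψ j) i * b i l - exs (ψ j) (n (ψ j)) * a l) := by
        have : (-c) / 2 * 1 ≤ (-c) / 2 * r j := mul_le_mul_of_nonneg_left h3 (by linarith)
        linarith
      have h6 : (1 : ℝ) ≤ -(∑ i, n (ψ j) i * b i l - exs (ψ j) (n (ψ j)) * a l)
          * (((ψ j : ℕ) : ℝ) + 1) := by
        calc (1 : ℝ) = (-c) / 2 * (2 / (-c)) := by
              have hc0 : c ≠ 0 := hneg.ne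
              field_simp
          _ ≤ _ := mul_le_mul h5 h2 (by
            have : 0 < -c := by linarith
            positivity) (by linarith)
      linarith
    exact tendsto_nhds_unique hyl (tendsto_const_nhds.congr' (h3.mono fun j hj => hj.symm))

open Filter Topology in
theorem exists_of_nonInf (L : Submodule ℝ (Fin m → ℝ)) (a ρ : Fin m → ℝ) (h : NonInf L ρ) :
    ∃ y ∈ L, ∃ z : Fin m → ℝ, Orth L (fun l => z l + a l) ∧ InSgn ρ z y := by
  obtain ⟨k, b, hb1, hb2, hb3⟩ := ex_param L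
  choose n hn using ex_step L a ρ b hb3
  have hclosed : IsClosed (L : Set (Fin m → ℝ)) := L.closed_of_finiteDimensional
  have hbdd : ∀ j, exy b a ρ j (n j) ∈ Metric.closedBall (0 : Fin m → ℝ) ‖ρ‖ := by
    intro j
    rw [mem_closedBall_zero_iff, pi_norm_le_iff_of_nonneg (norm_nonneg _)]
    intro l
    exact (ex_le b a ρ j (n j) l).trans (norm_le_pi_norm ρ l)
  have hlimle : ∀ (ψ : ℕ → ℕ) (y : Fin m → ℝ),
      Tendsto (fun j => exy b a ρ (ψ j) (n (ψ j))) atTop (𝓝 y) → y ∈ L ∧ ∀ l, |y l| ≤ |ρ l| := by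
    intro ψ y hy
    refine ⟨hclosed.mem_of_tendsto hy (Eventually.of_forall fun j => hn _), fun l => ?_⟩
    have hyl : Tendsto (fun j => |exy b a ρ (ψ j) (n (ψ j)) l|) atTop (𝓝 |y l|) :=
      ((tendsto_pi_nhds.1 hy) l).abs
    exact le_of_tendsto hyl (Eventually.of_forall fun j => ex_le b a ρ _ _ l)
  by_cases hC : ∃ C : ℝ, ∃ᶠ j in atTop, ‖n j‖ ≤ C
  · obtain ⟨C, hC⟩ := hC
    have hcomp : IsCompact ((Metric.closedBall (0 : Fin k → ℝ) C) ×ˢ
        (Metric.closedBall (0 : Fin m → ℝ) ‖ρ‖)) :=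
      (isCompact_closedBall _ _).prod (isCompact_closedBall _ _)
    obtain ⟨⟨n0, y⟩, -, ψ, hψ, hlim⟩ := hcomp.tendsto_subseq'
      (x := fun j => (n j, exy b a ρ j (n j))) (hC.mono fun j hj =>
        ⟨mem_closedBall_zero_iff.2 hj, hbdd j⟩)
    have hn0 : Tendsto (fun j => n (ψ j)) atTop (𝓝 n0) :=
      (continuous_fst.tendsto _).comp hlim
    have hy : Tendsto (fun j => exy b a ρ (ψ j) (n (ψ j))) atTop (𝓝 y) :=
      (continuous_snd.tendsto _).comp hlim
    obtain ⟨hyL, hyle⟩ := hlimle ψ y hy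
    have hbig : Tendsto (fun j => ((ψ j : ℕ) : ℝ) + 1) atTop atTop :=
      tendsto_atTop_add_const_right _ _ (tendsto_natCast_atTop_atTop.comp hψ.tendsto_atTop)
    have hs : ∀ᶠ j in atTop, exs (ψ j) (n (ψ j)) = 1 := by
      have h1 : ∀ᶠ j in atTop, ‖n (ψ j)‖ < ‖n0‖ + 1 :=
        hn0.norm.eventually (gt_mem_nhds (by linarith))
      have h2 : ∀ᶠ j in atTop, ‖n0‖ + 1 ≤ ((ψ j : ℕ) : ℝ) + 1 := hbig.eventually_ge_atTop _
      filter_upwards [h1, h2] with j h1 h2
      exact exs_one _ _ (by linarith)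
    refine ⟨y, hyL, fun l => ∑ i, n0 i * b i l - a l, ?_, fun l => ?_⟩
    · have := hb1 n0
      simpa only [sub_add_cancel] using this
    · have hz : Tendsto (fun j => (∑ i, n (ψ j) i * b i l
          - exs (ψ j) (n (ψ j)) * a l) / 1) atTop (𝓝 (∑ i, n0 i * b i l - a l)) := by
        have h1 : Tendsto (fun j => ∑ i, n (ψ j) i * b i l) atTop (𝓝 (∑ i, n0 i * b i l)) :=
          tendsto_finsetSum _ fun i _ => ((tendsto_pi_nhds.1 hn0) i).mul_const _
        have h2 := h1.sub_const (a l)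
        refine h2.congr' ?_
        filter_upwards [hs] with j hj
        rw [hj, one_mul, div_one]
      obtain ⟨h1, h2⟩ := ex_lim b a ρ n ψ hψ y hy l (fun _ => 1)
        (Eventually.of_forall fun _ => le_rfl) _ hz
      exact ⟨h1, h2, hyle l⟩
  · exfalso
    push Not at hC
    have htop : Tendsto (fun j => ‖n j‖) atTop atTop := by
      rw [tendsto_atTop]
      intro C
      exact (hC C).mono fun j hj => hj.le
    have hcomp : IsCompact ((Metric.closedBall (0 : Fin k → ℝ) 1) ×ˢ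
        (Metric.closedBall (0 : Fin m → ℝ) ‖ρ‖)) :=
      (isCompact_closedBall _ _).prod (isCompact_closedBall _ _)
    obtain ⟨⟨u, y⟩, -, ψ, hψ, hlim⟩ := hcomp.tendsto_subseq
      (x := fun j => ((‖n j‖)⁻¹ • n j, exy b a ρ j (n j))) (fun j =>
        ⟨mem_closedBall_zero_iff.2 (by
          show ‖(‖n j‖)⁻¹ • n j‖ ≤ 1
          rw [norm_smul, norm_inv, norm_norm]
          exact inv_mul_le_one), hbdd j⟩)
    have hu : Tendsto (fun j => (‖n (ψ j)‖)⁻¹ • n (ψ j)) atTop (𝓝 u) :=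
      (continuous_fst.tendsto _).comp hlim
    have hy : Tendsto (fun j => exy b a ρ (ψ j) (n (ψ j))) atTop (𝓝 y) :=
      (continuous_snd.tendsto _).comp hlim
    obtain ⟨hyL, -⟩ := hlimle ψ y hy
    have htop' : Tendsto (fun j => ‖n (ψ j)‖) atTop atTop := htop.comp hψ.tendsto_atTop
    have hr : ∀ᶠ j in atTop, 1 ≤ ‖n (ψ j)‖ := htop'.eventually_ge_atTop 1
    have hu1 : ‖u‖ = 1 := by
      refine tendsto_nhds_unique hu.norm (tendsto_const_nhds.congr' ?_)
      filter_upwards [hr] with j hj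
      rw [norm_smul, norm_inv, norm_norm, inv_mul_cancel₀ (by linarith)]
    have hw0 : (fun l => ∑ i, u i * b i l) ≠ 0 := by
      intro h0
      rw [hb2 u h0, norm_zero] at hu1
      exact zero_ne_one hu1
    refine h _ (hb1 u) hw0 ⟨y, hyL, fun l => ?_⟩
    refine ex_lim b a ρ n ψ hψ y hy l (fun j => ‖n (ψ j)‖) hr _ ?_
    have h1 : Tendsto (fun j => ∑ i, ((‖n (ψ j)‖)⁻¹ • n (ψ j)) i * b i l) atTop
        (𝓝 (∑ i, u i * b i l)) :=
      tendsto_finsetSum _ fun i _ => ((tendsto_pi_nhds.1 hu) i).mul_const _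
    have h2 : Tendsto (fun j => exs (ψ j) (n (ψ j)) * a l / ‖n (ψ j)‖) atTop (𝓝 0) := by
      apply squeeze_zero_norm (a := fun j => |a l| / ‖n (ψ j)‖)
      · intro j
        rw [norm_div, norm_mul, norm_norm]
        apply div_le_div_of_nonneg_right _ (norm_nonneg _)
        exact mul_le_of_le_one_left (norm_nonneg _) (exs_abs _ _)
      · exact htop'.const_div_atTop _
    have h3 := h1.sub h2
    rw [sub_zero] at h3
    refine h3.congr fun j => ?_
    rw [sub_div, Finset.sum_div]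
    congr 1
    refine Finset.sum_congr rfl fun i _ => ?_
    rw [Pi.smul_apply, smul_eq_mul]
    ring

end Pool.Agent.LVE
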