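import Pool.Agent.LVE.Defs

/-!
# Perturbing a vector so that there is no solution at infinity
-/

set_option autoImplicit false

open scoped BigOperators Classical

namespace Pool.Agent.LVE

open Pool.Agent.GRD

variable {m : ℕ}

/-- the bad vectors for the sign vector `τ` -/
noncomputable def GNbad (L : Submodule ℝ (Fin m → ℝ)) (τ : Fin m → SignType) :
    Submodule ℝ (Fin m → ℝ) where
  carrier := {ρ | ∃ y ∈ L, ∀ l, (τ l = 1 → y l = ρ l) ∧ (τ l = -1 → y l = -ρ l)}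
  zero_mem' := ⟨0, L.zero_mem, fun l => ⟨fun _ => rfl, fun _ => by simp⟩⟩
  add_mem' := by
    rintro a b ⟨y, hy, hy'⟩ ⟨z, hz, hz'⟩
    refine ⟨y + z, L.add_mem hy hz, fun l => ⟨fun h => ?_, fun h => ?_⟩⟩
    · simp only [Pi.add_apply, (hy' l).1 h, (hz' l).1 h]
    · simp only [Pi.add_apply, (hy' l).2 h, (hz' l).2 h]
      ring
  smul_mem' := by
    rintro c a ⟨y, hy, hy'⟩
    refine ⟨c • y, L.smul_mem c hy, fun l => ⟨fun h => ?_, fun h => ?_⟩⟩
    · simp only [Pi.smul_apply, (hy' l).1 h]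
    · simp only [Pi.smul_apply, (hy' l).2 h, smul_eq_mul]
      ring

theorem GN_mem {L : Submodule ℝ (Fin m → ℝ)} {τ : Fin m → SignType} {ρ : Fin m → ℝ} :
    ρ ∈ GNbad L τ ↔ ∃ y ∈ L, ∀ l, (τ l = 1 → y l = ρ l) ∧ (τ l = -1 → y l = -ρ l) := Iff.rfl

theorem GN_ne_top {L : Submodule ℝ (Fin m → ℝ)} {w : Fin m → ℝ} (hw : Orth L w) (hw0 : w ≠ 0) :
    GNbad L (fun l => SignType.sign (w l)) ≠ ⊤ := by
  intro htop
  have hmem : (fun l => |w l|) ∈ GNbad L (fun l => SignType.sign (w l)) := by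
    rw [htop]; trivial
  obtain ⟨y, hy, hy'⟩ := GN_mem.1 hmem
  have h1 := hw y hy
  have h2 : ∑ l, w l * y l = ∑ l, w l ^ 2 := by
    refine Finset.sum_congr rfl fun l _ => ?_
    rcases lt_trichotomy (w l) 0 with h | h | h
    · rw [(hy' l).2 (sign_neg h), abs_of_neg h]
      ring
    · rw [h]; ring
    · rw [(hy' l).1 (sign_pos h), abs_of_pos h]
      ring
  rw [h2] at h1
  apply hw0
  funext l
  have h3 := (Finset.sum_eq_zero_iff_of_nonneg (fun l _ => sq_nonneg (w l))).1 h1 l (Finset.mem_univ l)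
  simpa using h3

theorem exists_nonInf (L : Submodule ℝ (Fin m → ℝ)) (ρ : Fin m → ℝ) (δ : ℝ) (hδ : 0 < δ) :
    ∃ ρ' : Fin m → ℝ, (∀ l, |ρ' l - ρ l| < δ) ∧ NonInf L ρ' := by
  have hnull : MeasureTheory.volume
      (⋃ τ ∈ {τ : Fin m → SignType | GNbad L τ ≠ ⊤}, (GNbad L τ : Set (Fin m → ℝ))) = 0 := by
    refine (MeasureTheory.measure_biUnion_null_iff (Set.to_countable _)).2 fun τ hτ => ?_
    exact MeasureTheory.Measure.addHaar_submodule _ _ hτ
  have hpos : 0 < MeasureTheory.volume (Metric.ball ρ δ) := Metric.measure_ball_pos _ _ hδ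
  obtain ⟨ρ', h1, h2⟩ : ∃ ρ' ∈ Metric.ball ρ δ,
      ρ' ∉ ⋃ τ ∈ {τ : Fin m → SignType | GNbad L τ ≠ ⊤}, (GNbad L τ : Set (Fin m → ℝ)) := by
    by_contra hcon
    push Not at hcon
    have := MeasureTheory.measure_mono (μ := MeasureTheory.volume) (show Metric.ball ρ δ ⊆ _ from hcon)
    rw [hnull] at this
    exact absurd this (not_le.2 hpos)
  refine ⟨ρ', fun l => ?_, ?_⟩
  · have h3 : dist (ρ' l) (ρ l) ≤ dist ρ' ρ := dist_le_pi_dist ρ' ρ l
    rw [Real.dist_eq] at h3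
    exact lt_of_le_of_lt h3 (Metric.mem_ball.1 h1)
  · rintro w hw hw0 ⟨y, hy, hy'⟩
    apply h2
    refine Set.mem_biUnion (x := fun l => SignType.sign (w l)) (GN_ne_top hw hw0) ?_
    refine GN_mem.2 ⟨y, hy, fun l => ⟨fun h => (hy' l).1 (sign_eq_one_iff.1 h),
      fun h => (hy' l).2 (sign_eq_neg_one_iff.1 h)⟩⟩

end Pool.Agent.LVE
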