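import Pool.Agent.LVE.Defs
import Pool.Agent.LVE.EX
import Pool.Agent.LVE.GN

set_option autoImplicit false

open scoped BigOperators Classical

namespace Pool.Agent.LVE

open Pool.Agent.GRD

variable {m : ℕ}

/-- EY -/
theorem exists_all (L : Submodule ℝ (Fin m → ℝ)) (a ρ : Fin m → ℝ) :
    ∃ y ∈ L, ∃ z : Fin m → ℝ, Orth L (fun l => z l + a l) ∧ InSgn ρ z y := by
  have h1 : ∀ j : ℕ, ∃ ρ' : Fin m → ℝ, (∀ l, |ρ' l - ρ l| < 1 / ((j : ℝ) + 1)) ∧
      NonInf L ρ' := fun j => exists_nonInf L ρ _ (by positivity)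
  choose r hr hN using h1
  have h2 := fun j => exists_of_nonInf L a (r j) (hN j)
  choose y hy z hz hs using h2
  -- infinitely many have the same sign vector
  obtain ⟨σ, hσ⟩ := Finite.exists_infinite_fiber
    (fun (j : ℕ) (l : Fin m) => SignType.sign (z j l))
  have hfr : ∃ᶠ j in Filter.atTop, (fun l : Fin m => SignType.sign (z j l)) = σ := by
    rw [Nat.frequently_atTop_iff_infinite]
    exact Set.infinite_coe_iff.1 hσ
  obtain ⟨φ, hφ, hφσ⟩ := Filter.extraction_of_frequently_atTop hfr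
  have hj1 : ∀ j : ℕ, 1 / ((j : ℝ) + 1) ≤ 1 := by
    intro j
    rw [div_le_one (by positivity)]
    linarith [(Nat.cast_nonneg j : (0 : ℝ) ≤ j)]
  have hb : ∀ n, y (φ n) ∈ Set.Icc (fun l => -(|ρ l| + 1)) (fun l => |ρ l| + 1) := by
    intro n
    have h3 : ∀ l, |y (φ n) l| ≤ |ρ l| + 1 := by
      intro l
      have h4 := (hs (φ n) l).2.2
      have h5 := (hr (φ n) l).le.trans (hj1 _)
      have h6 : |r (φ n) l| ≤ |ρ l| + |r (φ n) l - ρ l| := by
        have := abs_add_le (ρ l) (r (φ n) l - ρ l)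
        rwa [add_sub_cancel] at this
      linarith
    exact ⟨fun l => (abs_le.1 (h3 l)).1, fun l => (abs_le.1 (h3 l)).2⟩
  obtain ⟨y0, -, ψ, hψ, hlim⟩ := isCompact_Icc.tendsto_subseq hb
  have hmono : StrictMono fun n => φ (ψ n) := hφ.comp hψ
  have hr0 : ∀ l, Filter.Tendsto (fun n => r (φ (ψ n)) l) Filter.atTop (nhds (ρ l)) := by
    intro l
    have h3 : Filter.Tendsto (fun j => r j l) Filter.atTop (nhds (ρ l)) := by
      rw [tendsto_iff_norm_sub_tendsto_zero]
      exact squeeze_zero (fun _ => norm_nonneg _) (fun j => (hr j l).le)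
        tendsto_one_div_add_atTop_nhds_zero_nat
    exact h3.comp hmono.tendsto_atTop
  have hyl : ∀ l, Filter.Tendsto (fun n => y (φ (ψ n)) l) Filter.atTop (nhds (y0 l)) :=
    fun l => (tendsto_pi_nhds.1 hlim) l
  have hsg : ∀ n l, SignType.sign (z (φ n) l) = SignType.sign (z (φ 0) l) := by
    intro n l
    have h3 := congrFun (hφσ n) l
    have h4 := congrFun (hφσ 0) l
    exact h3.trans h4.symm
  refine ⟨y0, ?_, z (φ 0), hz (φ 0), fun l => ⟨?_, ?_, ?_⟩⟩
  · exact (Submodule.closed_of_finiteDimensional L).mem_of_tendsto hlim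
      (Filter.Eventually.of_forall fun n => hy _)
  · intro hpos
    refine tendsto_nhds_unique (hyl l) ((hr0 l).congr fun n => ?_)
    have h3 := hsg (ψ n) l
    rw [sign_pos hpos] at h3
    exact ((hs (φ (ψ n)) l).1 (sign_eq_one_iff.1 h3)).symm
  · intro hneg
    refine tendsto_nhds_unique (hyl l) ((hr0 l).neg.congr fun n => ?_)
    have h3 := hsg (ψ n) l
    rw [sign_neg hneg] at h3
    exact ((hs (φ (ψ n)) l).2.1 (sign_eq_neg_one_iff.1 h3)).symm
  · exact le_of_tendsto_of_tendsto' (hyl l).abs (hr0 l).abs fun n => (hs _ l).2.2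

end Pool.Agent.LVE
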