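import Pool.Agent.LVE.CN
import Pool.Agent.FF.Final

/-!
# Faces of centrally symmetric polytopes with at most `d + e` facets at each vertex
-/

set_option autoImplicit false

open scoped BigOperators RealInnerProductSpace Classical

namespace Pool.Agent.LVE

noncomputable section

open Module Pool.Agent.GRD

/-- the final theorem: `3 ^ (d - e) ≤ N(P)` if every vertex lies in at most `d + e` facets -/
theorem final {d n : ℕ} (a : Fin n → EuclideanSpace ℝ (Fin d)) (e : ℕ)
    (P : Set (EuclideanSpace ℝ (Fin d)))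
    (hP : (P = {x | ∀ i, |inner ℝ (a i) x| ≤ 1} ∧ Bornology.IsBounded P) ∨
      (P = convexHull ℝ (Set.range a ∪ Set.range (fun i => -a i)) ∧ (interior P).Nonempty))
    (he : ∀ x : EuclideanSpace ℝ (Fin d), (∀ i, |inner ℝ (a i) x| ≤ 1) →
      {i | |inner ℝ (a i) x| = 1}.ncard ≤ d + e) :
    (3 : ℕ∞) ^ d ≤
      3 ^ e * {F : Set (EuclideanSpace ℝ (Fin d)) | F.Nonempty ∧ IsExposed ℝ P F}.encard := by
  obtain ⟨h1, h2, h3⟩ := Pool.Agent.FF.both a P hP
  have h4 : 3 ^ finrank ℝ (LinearMap.range (TT a)) ≤ 3 ^ e * NL (LinearMap.range (TT a)) := by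
    refine count (LinearMap.range (TT a)) e ?_
    rintro y ⟨x, rfl⟩ hy
    rw [h1]
    have h5 := he x (fun i => hy i)
    rw [Set.ncard_eq_toFinset_card'] at h5
    refine le_trans (Finset.card_le_card ?_) h5
    intro l hl
    rw [Tt, Finset.mem_filter] at hl
    rw [Set.mem_toFinset]
    exact hl.2
  rw [h1] at h4
  calc (3 : ℕ∞) ^ d ≤ 3 ^ e * (NL (LinearMap.range (TT a)) : ℕ∞) := by exact_mod_cast h4
    _ ≤ _ := by gcongr

end

end Pool.Agent.LVE
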