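import Pool.Agent.LVE.CNC
import Pool.Agent.FF.Final

/-!
# Faces of centrally symmetric polytopes weighted by their excess, with a direction
-/

set_option autoImplicit false

open scoped BigOperators RealInnerProductSpace Classical ENNReal

namespace Pool.Agent.LVE

noncomputable section

open Module Pool.Agent.GRD

variable {d n : ℕ}

/-- a functional on the space of `x` is a functional on the range -/
theorem fc_dir (a : Fin n → E d) (hinj : Function.Injective (TT a)) (c : E d) :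
    ∃ a0 : Fin n → ℝ, ∀ x : E d, ∑ l, a0 l * ⟪a l, x⟫ = ⟪c, x⟫ := by
  obtain ⟨S, hS⟩ := LinearMap.exists_leftInverse_of_injective (TT a) (LinearMap.ker_eq_bot.2 hinj)
  refine ⟨fun l => ⟪c, S (Pi.single l 1)⟫, fun x => ?_⟩
  have h1 : x = S (TT a x) := by
    have := LinearMap.congr_fun hS x
    exact this.symm
  have h2 : TT a x = ∑ l, ⟪a l, x⟫ • (Pi.single l (1 : ℝ) : Fin n → ℝ) := by
    funext j
    rw [Finset.sum_apply, TT_apply]
    simp [Pi.single_apply]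
  conv_rhs => rw [h1, h2, map_sum, inner_sum]
  refine Finset.sum_congr rfl fun l _ => ?_
  rw [map_smul, inner_smul_right, mul_comm]

/-- from the cells to the faces -/
theorem fc_tsum {P : Set (E d)} (a : Fin n → E d) (hinjT : Function.Injective (TT a)) (c : E d)
    (F : (Fin n → ZMod 3) → Set (E d))
    (hF : ∀ s, Rz a s → (F s).Nonempty ∧ IsExposed ℝ P (F s))
    (hinj : ∀ s s', Rz a s → Rz a s' → F s = F s' → s = s') (e : Set (E d) → ℕ)
    (he : ∀ s, Rz a s → ∀ x : E d, (∀ i, |⟪a i, x⟫| ≤ 1) → (∀ i, s i ≠ 0 → ⟪a i, x⟫ = sg (s i)) →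
      (∀ y : E d, (∀ i, |⟪a i, y⟫| ≤ 1) → (∀ i, s i ≠ 0 → ⟪a i, y⟫ = sg (s i)) →
        ⟪c, y⟫ ≤ ⟪c, x⟫) →
      {i | |⟪a i, x⟫| = 1}.ncard ≤ d + e (F s)) :
    (3 : ℝ≥0∞) ^ d ≤
      ∑' G : {G : Set (E d) // G.Nonempty ∧ IsExposed ℝ P G}, (3 : ℝ≥0∞) ^ e G.1 := by
  have hfr : finrank ℝ (LinearMap.range (TT a)) = d := by
    rw [LinearMap.finrank_range_of_inj hinjT]; simp
  obtain ⟨a0, ha0⟩ := fc_dir a hinjT c
  obtain ⟨S, hS⟩ : ∃ S, S = Finset.univ.filter
      (fun s : Fin n → ZMod 3 => ∃ y ∈ LinearMap.range (TT a), Cell s y) := ⟨_, rfl⟩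
  have hRz : ∀ s ∈ S, Rz a s := by
    intro s hs
    rw [hS] at hs
    obtain ⟨y, ⟨x, rfl⟩, hc⟩ := (Finset.mem_filter.1 hs).2
    exact ⟨x, hc⟩
  have h1 := count_dir (LinearMap.range (TT a)) a0 (fun t => e (F t)) (by
    rintro t ⟨y0, ⟨x0, rfl⟩, hc⟩ y ⟨⟨x, rfl⟩, hy, ht⟩ htop
    rw [hfr]
    have h5 := he t ⟨x0, hc⟩ x (fun i => hy i) (fun i hi => ht i hi) (by
      intro u hu hu'
      have h6 := htop (TT a u) ⟨⟨u, rfl⟩, fun i => hu i, fun i hi => hu' i hi⟩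
      have e1 : ∑ l, a0 l * TT a u l = ⟪c, u⟫ := ha0 u
      have e2 : ∑ l, a0 l * TT a x l = ⟪c, x⟫ := ha0 x
      rw [e1, e2] at h6
      exact h6)
    rw [Set.ncard_eq_toFinset_card'] at h5
    refine le_trans (Finset.card_le_card ?_) h5
    intro l hl
    rw [Tt, Finset.mem_filter] at hl
    rw [Set.mem_toFinset]
    exact hl.2)
  rw [hfr, ← hS] at h1
  have h2 : (3 : ℝ≥0∞) ^ d ≤ ∑ t ∈ S, (3 : ℝ≥0∞) ^ e (F t) := by exact_mod_cast h1
  refine h2.trans ?_
  rw [← Finset.tsum_subtype S (fun t => (3 : ℝ≥0∞) ^ e (F t))]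
  have hφ : Function.Injective (fun t : {t // t ∈ S} =>
      (⟨F t.1, hF t.1 (hRz t.1 t.2)⟩ : {G : Set (E d) // G.Nonempty ∧ IsExposed ℝ P G})) := by
    intro t t' h
    have h3 : F t.1 = F t'.1 := congrArg Subtype.val h
    exact Subtype.ext (hinj _ _ (hRz t.1 t.2) (hRz t'.1 t'.2) h3)
  exact ENNReal.tsum_comp_le_tsum_of_injective hφ
    (fun G : {G : Set (E d) // G.Nonempty ∧ IsExposed ℝ P G} => (3 : ℝ≥0∞) ^ e G.1)

/-- facet version -/
theorem fc_facet (a : Fin n → E d) {P : Set (E d)} (hinjT : Function.Injective (TT a))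
    (hP : P = {x | ∀ i, |⟪a i, x⟫| ≤ 1}) (c : E d) (e : Set (E d) → ℕ)
    (he : ∀ F : Set (E d), F.Nonempty → IsExposed ℝ P F → ∀ x ∈ F, (∀ y ∈ F, ⟪c, y⟫ ≤ ⟪c, x⟫) →
      {i | |⟪a i, x⟫| = 1}.ncard ≤ d + e F) :
    (3 : ℝ≥0∞) ^ d ≤
      ∑' G : {G : Set (E d) // G.Nonempty ∧ IsExposed ℝ P G}, (3 : ℝ≥0∞) ^ e G.1 := by
  have hF : ∀ s, Rz a s → ({x | x ∈ P ∧ ∀ i, s i ≠ 0 → ⟪a i, x⟫ = sg (s i)}).Nonempty ∧
      IsExposed ℝ P {x | x ∈ P ∧ ∀ i, s i ≠ 0 → ⟪a i, x⟫ = sg (s i)} := by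
    intro s hs
    obtain ⟨z, hz⟩ := hs
    have hzP : z ∈ P := by
      rw [hP]; intro i
      exact hz.abs_le i
    have hzF : z ∈ {x | x ∈ P ∧ ∀ i, s i ≠ 0 → ⟪a i, x⟫ = sg (s i)} :=
      ⟨hzP, fun i hi => (hz i).2 hi⟩
    refine ⟨⟨z, hzF⟩, fun _ => ?_⟩
    set l : StrongDual ℝ (E d) := ∑ i, (sg (s i)) • innerSL ℝ (a i) with hl
    have hlx : ∀ x, l x = ∑ i, sg (s i) * ⟪a i, x⟫ := by
      intro x
      simp [hl]
    have hbound : ∀ x ∈ P, ∀ i, sg (s i) * ⟪a i, x⟫ ≤ sg (s i) * sg (s i) := by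
      intro x hx i
      by_cases h : s i = 0
      · simp [h, sg]
      · rw [sg_mul_self h]
        rw [hP] at hx
        have h1 := hx i
        calc sg (s i) * ⟪a i, x⟫ ≤ |sg (s i) * ⟪a i, x⟫| := le_abs_self _
          _ = |⟪a i, x⟫| := by rw [abs_mul, abs_sg h, one_mul]
          _ ≤ 1 := h1
    have hval : ∀ x, (x ∈ P ∧ ∀ i, s i ≠ 0 → ⟪a i, x⟫ = sg (s i)) →
        l x = ∑ i, sg (s i) * sg (s i) := by
      intro x hx
      rw [hlx]
      refine Finset.sum_congr rfl fun i _ => ?_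
      by_cases h : s i = 0
      · simp [h, sg]
      · rw [hx.2 i h]
    refine ⟨l, ?_⟩
    ext x
    constructor
    · intro hx
      refine ⟨hx.1, fun u hu => ?_⟩
      rw [hval x hx, hlx]
      exact Finset.sum_le_sum fun i _ => hbound u hu i
    · rintro ⟨hxP, hmax⟩
      refine ⟨hxP, fun i hi => ?_⟩
      have h1 := hmax z hzP
      rw [hval z hzF, hlx x] at h1
      have h2 : ∀ j ∈ Finset.univ, sg (s j) * ⟪a j, x⟫ = sg (s j) * sg (s j) := by
        by_contra hcon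
        simp only [Finset.mem_univ, true_implies, not_forall] at hcon
        obtain ⟨j, hj⟩ := hcon
        have : ∑ i, sg (s i) * ⟪a i, x⟫ < ∑ i, sg (s i) * sg (s i) :=
          Finset.sum_lt_sum (fun i _ => hbound x hxP i)
            ⟨j, Finset.mem_univ _, lt_of_le_of_ne (hbound x hxP j) hj⟩
        linarith
      have h3 := h2 i (Finset.mem_univ _)
      have h4 : sg (s i) ≠ 0 := by
        intro h0
        have := sg_mul_self hi
        rw [h0] at this; simp at this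
      exact mul_left_cancel₀ h4 h3
  refine fc_tsum (P := P) a hinjT c
    (fun s => {x | x ∈ P ∧ ∀ i, s i ≠ 0 → ⟪a i, x⟫ = sg (s i)}) hF ?_ e ?_
  · intro s s' hs hs' hFF
    obtain ⟨z, hz⟩ := hs
    obtain ⟨z', hz'⟩ := hs'
    have hmem : ∀ (s : Fin n → ZMod 3) (z : E d), Cell s (TT a z) →
        z ∈ {x | x ∈ P ∧ ∀ i, s i ≠ 0 → ⟪a i, x⟫ = sg (s i)} := by
      intro s z h1
      refine ⟨?_, fun i hi => (h1 i).2 hi⟩
      rw [hP]; intro i
      exact h1.abs_le i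
    have hzF := hmem s z hz
    have hzF' := hmem s' z' hz'
    have hFF' : {x | x ∈ P ∧ ∀ i, s i ≠ 0 → ⟪a i, x⟫ = sg (s i)} =
        {x | x ∈ P ∧ ∀ i, s' i ≠ 0 → ⟪a i, x⟫ = sg (s' i)} := hFF
    rw [hFF'] at hzF
    rw [← hFF'] at hzF'
    funext i
    by_cases h : s i = 0
    · by_cases h' : s' i = 0
      · rw [h, h']
      · exfalso
        have e1 := hzF.2 i h'
        have e2 := (hz i).1 h
        rw [TT_apply, e1, abs_sg h'] at e2
        exact lt_irrefl _ e2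
    · have e1 := hzF'.2 i h
      by_cases h' : s' i = 0
      · exfalso
        have e2 := (hz' i).1 h'
        rw [TT_apply, e1, abs_sg h] at e2
        exact lt_irrefl _ e2
      · have e2 := (hz' i).2 h'
        rw [TT_apply, e1] at e2
        exact sg_inj e2
  · intro s hs x hx hx' htop
    refine he _ (hF s hs).1 (hF s hs).2 x ⟨?_, hx'⟩ ?_
    · rw [hP]
      exact hx
    · rintro y ⟨hy, hy'⟩
      rw [hP] at hy
      exact htop y hy hy'

/-- vertex version -/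
theorem fc_vertex (v : Fin n → E d) {P : Set (E d)} (hinjT : Function.Injective (TT v))
    (hP : P = convexHull ℝ (Set.range v ∪ Set.range (fun i => -v i)))
    (hne : P.Nonempty) (c : E d) (e : Set (E d) → ℕ)
    (he : ∀ F : Set (E d), F.Nonempty → IsExposed ℝ P F → ∀ x : E d,
      (∀ i, |⟪v i, x⟫| ≤ 1) → (F = P ∨ ∀ g ∈ F, ⟪g, x⟫ = 1) →
      (∀ y : E d, (∀ i, |⟪v i, y⟫| ≤ 1) → (F = P ∨ ∀ g ∈ F, ⟪g, y⟫ = 1) → ⟪c, y⟫ ≤ ⟪c, x⟫) →
      {i | |⟪v i, x⟫| = 1}.ncard ≤ d + e F) :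
    (3 : ℝ≥0∞) ^ d ≤
      ∑' G : {G : Set (E d) // G.Nonempty ∧ IsExposed ℝ P G}, (3 : ℝ≥0∞) ^ e G.1 := by
  have hle := hull_le v hP
  have hvP : ∀ i, v i ∈ P := fun i => by
    rw [hP]; exact subset_convexHull ℝ _ (Or.inl ⟨i, rfl⟩)
  have hvP' : ∀ i, -v i ∈ P := fun i => by
    rw [hP]; exact subset_convexHull ℝ _ (Or.inr ⟨i, rfl⟩)
  obtain ⟨i₀⟩ : Nonempty (Fin n) := by
    rw [hP, convexHull_nonempty_iff] at hne
    rcases hne with ⟨x, ⟨i, -⟩ | ⟨i, -⟩⟩
    · exact ⟨i⟩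
    · exact ⟨i⟩
  have hch : ∀ s : Fin n → ZMod 3, ∃ z : E d, Rz v s → Cell s (TT v z) := by
    intro s
    by_cases h : Rz v s
    · obtain ⟨z, hz⟩ := h
      exact ⟨z, fun _ => hz⟩
    · exact ⟨0, fun h' => absurd h' h⟩
  choose Z hZ using hch
  set Z' : (Fin n → ZMod 3) → E d := fun s => if s = 0 then 0 else Z s with hZ'
  have hFdef : ∀ s, Rz v s → s ≠ 0 → ∀ x ∈ P,
      ((∀ u ∈ P, ⟪Z' s, u⟫ ≤ ⟪Z' s, x⟫) ↔ ⟪Z s, x⟫ = 1) := by
    intro s hs hs0 x hx
    have hZs : Z' s = Z s := by simp [hZ', hs0]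
    rw [hZs]
    have hc := hZ s hs
    have hbd := hle (Z s) 1 (fun i => hc.abs_le i)
    obtain ⟨i, hi⟩ : ∃ i, s i ≠ 0 := by
      by_contra hcon
      simp only [not_exists, not_not] at hcon
      exact hs0 (funext hcon)
    have h2 : ⟪v i, Z s⟫ = sg (s i) := (hc i).2 hi
    constructor
    · intro hmax
      apply le_antisymm (hbd x hx)
      rcases sg_cases hi with h | h
      · have := hmax _ (hvP i)
        rw [real_inner_comm, h2, h] at this
        exact this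
      · have := hmax _ (hvP' i)
        rw [inner_neg_right, real_inner_comm, h2, h] at this
        linarith
    · intro hx1 u hu
      rw [hx1]; exact hbd u hu
  have hF : ∀ s, Rz v s → ({x | x ∈ P ∧ ∀ u ∈ P, ⟪Z' s, u⟫ ≤ ⟪Z' s, x⟫}).Nonempty ∧
      IsExposed ℝ P {x | x ∈ P ∧ ∀ u ∈ P, ⟪Z' s, u⟫ ≤ ⟪Z' s, x⟫} := by
    intro s hs
    refine ⟨?_, fun _ => ⟨innerSL ℝ (Z' s), rfl⟩⟩
    by_cases hs0 : s = 0
    · refine ⟨v i₀, hvP i₀, fun u _ => ?_⟩
      simp [hZ', hs0]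
    · obtain ⟨i, hi⟩ : ∃ i, s i ≠ 0 := by
        by_contra hcon
        simp only [not_exists, not_not] at hcon
        exact hs0 (funext hcon)
      have h2 : ⟪v i, Z s⟫ = sg (s i) := (hZ s hs i).2 hi
      rcases sg_cases hi with h | h
      · refine ⟨v i, hvP i, (hFdef s hs hs0 _ (hvP i)).2 ?_⟩
        rw [real_inner_comm, h2, h]
      · refine ⟨-v i, hvP' i, (hFdef s hs hs0 _ (hvP' i)).2 ?_⟩
        rw [inner_neg_right, real_inner_comm, h2, h]; norm_num
  refine fc_tsum (P := P) v hinjT c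
    (fun s => {x | x ∈ P ∧ ∀ u ∈ P, ⟪Z' s, u⟫ ≤ ⟪Z' s, x⟫}) hF ?_ e ?_
  · intro s s' hs hs' hFF
    have hFF' : {x | x ∈ P ∧ ∀ u ∈ P, ⟪Z' s, u⟫ ≤ ⟪Z' s, x⟫} =
        {x | x ∈ P ∧ ∀ u ∈ P, ⟪Z' s', u⟫ ≤ ⟪Z' s', x⟫} := hFF
    have hm : ∀ s, Rz v s → s ≠ 0 → ∀ i,
        ((v i ∈ {x | x ∈ P ∧ ∀ u ∈ P, ⟪Z' s, u⟫ ≤ ⟪Z' s, x⟫}) ↔ sg (s i) = 1) ∧
        ((-v i ∈ {x | x ∈ P ∧ ∀ u ∈ P, ⟪Z' s, u⟫ ≤ ⟪Z' s, x⟫}) ↔ sg (s i) = -1) := by
      intro s hs hs0 i
      have hc := hZ s hs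
      have e0 : ∀ w ∈ P, (w ∈ {x | x ∈ P ∧ ∀ u ∈ P, ⟪Z' s, u⟫ ≤ ⟪Z' s, x⟫}) ↔
          ⟪Z s, w⟫ = 1 := by
        intro w hw
        rw [← hFdef s hs hs0 w hw]
        exact ⟨fun h => h.2, fun h => ⟨hw, h⟩⟩
      rw [e0 _ (hvP i), e0 _ (hvP' i), inner_neg_right, real_inner_comm]
      by_cases h : s i = 0
      · have h3 : |⟪v i, Z s⟫| < 1 := (hc i).1 h
        have h3 := abs_lt.1 h3
        have h4 : sg (s i) = 0 := by simp [h, sg]
        rw [h4]
        constructor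
        · constructor
          · intro h5; rw [h5] at h3; linarith [h3.2]
          · intro h5; norm_num at h5
        · constructor
          · intro h5; linarith [h3.1]
          · intro h5; norm_num at h5
      · have h2 : ⟪v i, Z s⟫ = sg (s i) := (hc i).2 h
        rw [h2]
        constructor
        · exact Iff.rfl
        · constructor
          · intro h5; linarith
          · intro h5; linarith
    have hz0 : ∀ s, s = 0 → {x | x ∈ P ∧ ∀ u ∈ P, ⟪Z' s, u⟫ ≤ ⟪Z' s, x⟫} = P := by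
      intro s hs0
      ext x
      constructor
      · intro h; exact h.1
      · intro h; exact ⟨h, fun u _ => by simp [hZ', hs0]⟩
    have hnP : ∀ s, Rz v s → s ≠ 0 →
        {x | x ∈ P ∧ ∀ u ∈ P, ⟪Z' s, u⟫ ≤ ⟪Z' s, x⟫} ≠ P := by
      intro s hs hs0 heq
      have h1 := (hm s hs hs0 i₀).1.1 (by rw [heq]; exact hvP i₀)
      have h2 := (hm s hs hs0 i₀).2.1 (by rw [heq]; exact hvP' i₀)
      rw [h1] at h2; norm_num at h2
    by_cases h0 : s = 0
    · by_cases h0' : s' = 0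
      · rw [h0, h0']
      · exfalso
        apply hnP s' hs' h0'
        rw [← hFF', hz0 s h0]
    · by_cases h0' : s' = 0
      · exfalso
        apply hnP s hs h0
        rw [hFF', hz0 s' h0']
      · funext i
        obtain ⟨p1, p2⟩ := hm s hs h0 i
        obtain ⟨q1, q2⟩ := hm s' hs' h0' i
        rw [hFF'] at p1 p2
        have r1 : sg (s i) = 1 ↔ sg (s' i) = 1 := p1.symm.trans q1
        have r2 : sg (s i) = -1 ↔ sg (s' i) = -1 := p2.symm.trans q2
        have tri : ∀ c : ZMod 3, sg c = 0 ∨ sg c = 1 ∨ sg c = -1 := by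
          intro c
          unfold sg
          split_ifs <;> simp
        apply sg_inj
        rcases tri (s i) with h | h | h
        · rcases tri (s' i) with h' | h' | h'
          · rw [h, h']
          · rw [r1.2 h', h']
          · rw [r2.2 h', h']
        · rw [h, r1.1 h]
        · rw [h, r2.1 h]
  · intro s hs x hx hx' htop
    have hmem : ∀ w ∈ P, s ≠ 0 → (w ∈ {x | x ∈ P ∧ ∀ u ∈ P, ⟪Z' s, u⟫ ≤ ⟪Z' s, x⟫} ↔
        ⟪Z s, w⟫ = 1) := by
      intro w hw hs0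
      rw [← hFdef s hs hs0 w hw]
      exact ⟨fun h => h.2, fun h => ⟨hw, h⟩⟩
    have hnP : s ≠ 0 → {x | x ∈ P ∧ ∀ u ∈ P, ⟪Z' s, u⟫ ≤ ⟪Z' s, x⟫} ≠ P := by
      intro hs0 heq
      have h1 : ⟪Z s, v i₀⟫ = 1 := (hmem _ (hvP i₀) hs0).1 (by rw [heq]; exact hvP i₀)
      have h2 : ⟪Z s, -v i₀⟫ = 1 := (hmem _ (hvP' i₀) hs0).1 (by rw [heq]; exact hvP' i₀)
      rw [inner_neg_right, h1] at h2
      norm_num at h2
    refine he _ (hF s hs).1 (hF s hs).2 x hx ?_ ?_
    · by_cases hs0 : s = 0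
      · left
        ext y
        constructor
        · intro h; exact h.1
        · intro h; exact ⟨h, fun u _ => by simp [hZ', hs0]⟩
      · right
        rintro g ⟨hgP, hgm⟩
        have hg1 : ⟪Z s, g⟫ = 1 := (hFdef s hs hs0 g hgP).1 hgm
        have hc := hZ s hs
        have hxle : ⟪g, x⟫ ≤ 1 := by
          rw [real_inner_comm]
          exact hle x 1 hx g hgP
        obtain ⟨δ, hδ, hδ'⟩ : ∃ δ : ℝ, 0 < δ ∧ ∀ i, s i = 0 → |⟪v i, Z s⟫| + 2 * δ ≤ 1 := by
          have hpos : ∀ i, 0 < (if s i = 0 then (1 - |⟪v i, Z s⟫|) / 2 else 1 : ℝ) := by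
            intro i
            split_ifs with h
            · have h3 : |⟪v i, Z s⟫| < 1 := (hc i).1 h
              linarith
            · exact one_pos
          refine ⟨Finset.univ.inf' ⟨i₀, Finset.mem_univ _⟩
            (fun i => (if s i = 0 then (1 - |⟪v i, Z s⟫|) / 2 else 1 : ℝ)), ?_, ?_⟩
          · rw [Finset.lt_inf'_iff]
            exact fun i _ => hpos i
          · intro i hi
            have h4 := Finset.inf'_le
              (fun i => (if s i = 0 then (1 - |⟪v i, Z s⟫|) / 2 else 1 : ℝ))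
              (Finset.mem_univ i)
            simp only [hi, if_true] at h4
            linarith
        have h5 := hle (Z s + δ • (Z s - x)) 1 (fun i => by
          rw [inner_add_right, inner_smul_right, inner_sub_right]
          by_cases hi : s i = 0
          · have h6 := hδ' i hi
            have h7 : |⟪v i, Z s⟫| ≤ 1 := hc.abs_le i
            have h8 := hx i
            have h9 : |⟪v i, Z s⟫ - ⟪v i, x⟫| ≤ 2 := by
              have := abs_sub (⟪v i, Z s⟫) (⟪v i, x⟫)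
              linarith
            calc |⟪v i, Z s⟫ + δ * (⟪v i, Z s⟫ - ⟪v i, x⟫)|
                ≤ |⟪v i, Z s⟫| + |δ * (⟪v i, Z s⟫ - ⟪v i, x⟫)| := abs_add_le _ _
              _ = |⟪v i, Z s⟫| + δ * |⟪v i, Z s⟫ - ⟪v i, x⟫| := by
                  rw [abs_mul, abs_of_pos hδ]
              _ ≤ |⟪v i, Z s⟫| + δ * 2 := by gcongr
              _ ≤ 1 := by linarith
          · have h6 : ⟪v i, Z s⟫ = sg (s i) := (hc i).2 hi
            rw [h6, hx' i hi, sub_self, mul_zero, add_zero, abs_sg hi]) g hgP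
        rw [inner_add_left, inner_smul_left, inner_sub_left, hg1, real_inner_comm] at h5
        have h6 : δ * (1 - ⟪g, x⟫) ≤ 0 := by
          simp only [conj_trivial] at h5
          linarith
        have h7 : 1 - ⟪g, x⟫ ≤ 0 := by
          by_contra hcon
          push Not at hcon
          have := mul_pos hδ hcon
          linarith
        linarith
    · intro y hy hy'
      refine htop y hy fun i hi => ?_
      have hs0 : s ≠ 0 := by
        intro h0
        rw [h0] at hi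
        exact hi rfl
      have hg : ∀ g ∈ {x | x ∈ P ∧ ∀ u ∈ P, ⟪Z' s, u⟫ ≤ ⟪Z' s, x⟫}, ⟪g, y⟫ = 1 := by
        rcases hy' with h | h
        · exact absurd h (hnP hs0)
        · exact h
      have h2 : ⟪v i, Z s⟫ = sg (s i) := (hZ s hs i).2 hi
      rcases sg_cases hi with h | h
      · rw [h]
        refine hg _ ((hmem _ (hvP i) hs0).2 ?_)
        rw [real_inner_comm, h2, h]
      · have h3 := hg (-v i) ((hmem _ (hvP' i) hs0).2 (by
          rw [inner_neg_right, real_inner_comm, h2, h]; norm_num))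
        rw [inner_neg_left] at h3
        rw [h]
        linarith

end

end Pool.Agent.LVE
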