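import Pool.Agent.LVE.Defs

/-!
Row GA: a generic functional.
-/

set_option autoImplicit false

open scoped BigOperators Classical

namespace Pool.Agent.LVE

open Pool.Agent.GRD

variable {m : ℕ}

theorem exists_gen (L : Submodule ℝ (Fin m → ℝ)) : ∃ a : Fin m → ℝ, Gen L a := by
  let ι := {X : Finset (Fin m) // ∃ y ∈ L, y ≠ 0 ∧ ∀ l, l ∉ X → y l = 0}
  let y : ι → Fin m → ℝ := fun X => Classical.choose X.2
  have hy : ∀ X : ι, y X ∈ L ∧ y X ≠ 0 ∧ ∀ l, l ∉ X.1 → y X l = 0 := fun X =>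
    Classical.choose_spec X.2
  let f : ι → Module.Dual ℝ (Fin m → ℝ) := fun X => ∑ l, (y X l) • LinearMap.proj l
  have hf : ∀ (X : ι) (a : Fin m → ℝ), f X a = ∑ l, a l * y X l := by
    intro X a
    show (∑ l, (y X l) • LinearMap.proj l : (Fin m → ℝ) →ₗ[ℝ] ℝ) a = _
    rw [LinearMap.sum_apply]
    refine Finset.sum_congr rfl fun l _ => ?_
    rw [LinearMap.smul_apply, LinearMap.proj_apply, smul_eq_mul, mul_comm]
  obtain ⟨a, ha⟩ := Module.Dual.exists_forall_ne_zero_of_forall_exists f (by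
    intro X
    refine ⟨y X, ?_⟩
    rw [hf]
    intro h0
    apply (hy X).2.1
    have h1 : ∀ l ∈ Finset.univ, 0 ≤ y X l * y X l := fun l _ => mul_self_nonneg _
    have h2 := (Finset.sum_eq_zero_iff_of_nonneg h1).1 h0
    funext l
    exact mul_self_eq_zero.1 (h2 l (Finset.mem_univ l)))
  refine ⟨a, fun z hz y' hy' h => ?_⟩
  by_contra hne
  let X : ι := ⟨Finset.univ.filter fun l => z l = 0, y', hy', hne, fun l hl => h l (by
    intro h0
    exact hl (Finset.mem_filter.2 ⟨Finset.mem_univ l, h0⟩))⟩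
  apply ha X
  rw [hf]
  have h1 := hz (y X) (hy X).1
  rw [← h1]
  refine Finset.sum_congr rfl fun l _ => ?_
  by_cases h0 : z l = 0
  · show a l * y X l = (z l + a l) * y X l
    rw [h0, zero_add]
  · have h2 : y X l = 0 := (hy X).2.2 l (by
      intro h3
      exact h0 (Finset.mem_filter.1 h3).2)
    rw [h2, mul_zero, mul_zero]

end Pool.Agent.LVE
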